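import Pool.Agent.Lib.MP_70d11c_co.Up

namespace Pool.Agent.Lib.MP_70d11c_co

lemma exch (b c : ℕ) {l : Multiset X} (h : ∀ y ∈ l, Pos y) (hl : 1 ≤ l.card) :
    root (hub (b + c + 2) ::ₘ hub b ::ₘ l) ≤ root (hub (b + c + 1) ::ₘ hub (b + 1) ::ₘ l) := by
  have hP := PP_ge h
  have hS := SS_nonneg h
  have hm : (1 : ℚ) ≤ l.card := by exact_mod_cast hl
  have hb : (0 : ℚ) ≤ b := Nat.cast_nonneg b
  have hc : (0 : ℚ) ≤ c := Nat.cast_nonneg c
  have key : ∀ a a' : ℕ, root (hub a ::ₘ hub a' ::ₘ l) =
      PP l * (3 / 2) ^ (a + a') / (9 * (l.card + 2)) * (16 * (l.card + 2 + SS l) -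
        ((l.card + 2 + SS l) * (4 * (a + a' + 2) - 1) - 12 * (a + a' + 2) + 6) /
          ((a + 1) * (a' + 1))) := by
    intro a a'
    simp only [root, PP_cons, SS_cons, Multiset.card_cons, hub, hubZ, hubp]
    push_cast
    field_simp
    ring
  rw [key, key, show b + c + 1 + (b + 1) = b + c + 2 + b by ring]
  push_cast
  rw [show (b : ℚ) + c + 1 + (b + 1) = b + c + 2 + b by ring]
  gcongr ?_ * (_ - ?_)
  apply div_le_div_of_nonneg_left _ (by positivity) (by nlinarith)
  nlinarith

lemma balance (j : ℕ) : ∀ (k : ℕ) (A : Multiset ℕ), (A.map fun a => a ^ 2).sum = k →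
    (∀ a ∈ A, 3 ≤ a ∧ a ≤ 8) → 3 ≤ j + A.card →
    ∃ a x y, 3 ≤ a ∧ a ≤ 7 ∧ x + y = A.card ∧
      x * (2 * a + 1) + y * (2 * a + 3) = sz (A.map hub) ∧
      root (Multiset.replicate j Px + A.map hub) ≤ famv j a x y := by
  intro k
  induction k using Nat.strong_induction_on with
  | _ k ih =>
    intro A hk hA hD
    by_cases hex : ∃ a ∈ A, ∃ b ∈ A, b + 2 ≤ a
    · obtain ⟨a, ha, b, hb, hab⟩ := hex
      obtain ⟨c, rfl⟩ : ∃ c, a = b + c + 2 := ⟨a - b - 2, by omega⟩
      obtain ⟨A1, rfl⟩ := Multiset.exists_cons_of_mem ha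
      have hb' : b ∈ A1 := by
        rcases Multiset.mem_cons.1 hb with h | h
        · omega
        · exact h
      obtain ⟨A2, rfl⟩ := Multiset.exists_cons_of_mem hb'
      have a1 := hA _ ha
      have a2 := hA _ hb
      have g1 : (((b + c + 1) ::ₘ (b + 1) ::ₘ A2).map fun a => a ^ 2).sum < k := by
        rw [← hk]
        simp only [Multiset.map_cons, Multiset.sum_cons]
        nlinarith
      have g2 : ∀ z ∈ (b + c + 1) ::ₘ (b + 1) ::ₘ A2, 3 ≤ z ∧ z ≤ 8 := by
        intro z hz
        simp only [Multiset.mem_cons] at hz hA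
        rcases hz with rfl | rfl | hz
        · omega
        · omega
        · exact hA z (Or.inr (Or.inr hz))
      obtain ⟨a, x, y, h1, h2, h3, h4, h5⟩ := ih _ g1 _ rfl g2 (by simpa using hD)
      refine ⟨a, x, y, h1, h2, by simpa using h3, ?_, le_trans ?_ h5⟩
      · rw [h4]; simp [hub]; ring
      · simp only [Multiset.map_cons, Multiset.add_cons]
        refine exch b c (fun y hy => ?_) ?_
        · rcases Multiset.mem_add.1 hy with hy | hy
          · rw [Multiset.eq_of_mem_replicate hy]; exact pos_P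
          · obtain ⟨z, -, rfl⟩ := Multiset.mem_map.1 hy
            exact pos_hub z
        · simp only [Multiset.card_cons] at hD
          simp only [Multiset.card_add, Multiset.card_replicate, Multiset.card_map]
          omega
    · obtain ⟨a, h1, h2, h3⟩ : ∃ a, 3 ≤ a ∧ a ≤ 7 ∧ ∀ z ∈ A, z = a ∨ z = a + 1 := by
        by_cases h0 : A = 0
        · exact ⟨3, le_rfl, by norm_num, by simp [h0]⟩
        · obtain ⟨a, ha, hmin⟩ := Multiset.exists_min_image id h0
          simp only [id] at hmin
          have a1 := hA a ha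
          push Not at hex
          by_cases h8 : a = 8
          · refine ⟨7, by norm_num, le_rfl, fun z hz => ?_⟩
            have := hmin z hz
            have := hA z hz
            omega
          · refine ⟨a, a1.1, by omega, fun z hz => ?_⟩
            have := hmin z hz
            have := hex z hz a ha
            omega
      have e : A = Multiset.replicate (A.count a) a + Multiset.replicate (A.count (a + 1)) (a + 1) := by
        ext z
        rw [Multiset.count_add, Multiset.count_replicate, Multiset.count_replicate]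
        by_cases k1 : a = z
        · subst k1; simp
        · by_cases k2 : a + 1 = z
          · subst k2; simp
          · rw [if_neg k1, if_neg k2, Multiset.count_eq_zero]
            intro hz
            have := h3 z hz
            omega
      generalize A.count a = x at e
      generalize A.count (a + 1) = y at e
      subst e
      refine ⟨a, x, y, h1, h2, by simp, ?_, le_of_eq ?_⟩
      · simp only [Multiset.map_add, Multiset.map_replicate, sz_add, sz_replicate, hub]; ring
      rw [Multiset.map_add, Multiset.map_replicate, Multiset.map_replicate, ← add_assoc, root_fam]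

lemma split_good {l : Multiset X} (h : ∀ y ∈ l, y = Px ∨ ∃ a, 3 ≤ a ∧ a ≤ 8 ∧ y = hub a) :
    ∃ (j : ℕ) (A : Multiset ℕ), (∀ a ∈ A, 3 ≤ a ∧ a ≤ 8) ∧
      l = Multiset.replicate j Px + A.map hub := by
  induction l using Multiset.induction_on with
  | empty => exact ⟨0, 0, by simp, by simp⟩
  | cons y l ih =>
    obtain ⟨j, A, h1, rfl⟩ := ih fun z hz => h z (Multiset.mem_cons_of_mem hz)
    rcases h y (Multiset.mem_cons_self _ _) with rfl | ⟨a, k1, k2, rfl⟩
    · exact ⟨j + 1, A, h1, by rw [Multiset.replicate_succ, Multiset.cons_add]⟩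
    · refine ⟨j, a ::ₘ A, fun z hz => ?_, by rw [Multiset.map_cons, Multiset.add_cons]⟩
      rcases Multiset.mem_cons.1 hz with rfl | hz
      · exact ⟨k1, k2⟩
      · exact h1 z hz

lemma good_bal {l : Multiset X} (h : ∀ y ∈ l, y = Px ∨ ∃ a, 3 ≤ a ∧ a ≤ 8 ∧ y = hub a)
    (hc : 3 ≤ l.card) : ∃ j a x y, 3 ≤ a ∧ a ≤ 7 ∧ j + x + y = l.card ∧
      sz l = 2 * j + x * (2 * a + 1) + y * (2 * a + 3) ∧ root l ≤ famv j a x y := by
  obtain ⟨j, A, h1, rfl⟩ := split_good h
  obtain ⟨a, x, y, k1, k2, k3, k4, k5⟩ := balance j _ A rfl h1 (by simpa using hc)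
  refine ⟨j, a, x, y, k1, k2, by simp; omega, ?_, k5⟩
  rw [sz_add, ← k4, sz_replicate]
  simp [Px]; ring

end Pool.Agent.Lib.MP_70d11c_co
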