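import Pool.Agent.Lib.MP_70d11c_co.Small2

namespace Pool.Agent.Lib.MP_70d11c_co

lemma dp_ok1 : allUpTo dpChk 35 = true := by decide +kernel

lemma dp_ok2 : allUpTo (fun i => dpChk (i + 35)) 10 = true := by decide +kernel

lemma dp_ok : ∀ s < 45, dpChk s = true := by
  intro s hs
  by_cases h : s < 35
  · exact allUpTo_spec dp_ok1 s h
  · have := allUpTo_spec dp_ok2 (s - 35) (by omega)
    rwa [show s - 35 + 35 = s by omega] at this

end Pool.Agent.Lib.MP_70d11c_co
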