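import Mathlib

/-!
Definitions used in the statement on the maximum Laplacian ratio of trees of bounded diameter.
-/

namespace Pool.Agent.Lib.MP_70d11c_co

open Classical in
/-- The Laplacian ratio `per L(G) / (d_1 ⋯ d_n)` of a finite simple graph. -/
noncomputable def lapRatio {V : Type} [Fintype V] [DecidableEq V] (G : SimpleGraph V) : ℚ :=
  (G.lapMatrix ℚ).permanent / ∏ v, (G.degree v : ℚ)

/-- `Z_a = (3/2)^a (4a+3) / (3a+3)`. -/
def hubZ (a : ℕ) : ℚ := (3 / 2) ^ a * (4 * a + 3) / (3 * a + 3)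

/-- `p_a = 3 / (4a+3)`. -/
def hubp (a : ℕ) : ℚ := 3 / (4 * a + 3)

/-- `F(j,a,x,y)`. It is the Laplacian ratio of the tree whose centre carries `j` pendant paths
with two vertices, `x` neighbours carrying `a` such pendant paths each and `y` neighbours
carrying `a+1` such pendant paths each. -/
def famv (j a x y : ℕ) : ℚ :=
  (3 / 2) ^ j * hubZ a ^ x * hubZ (a + 1) ^ y *
    (1 + (j / 3 + x * hubp a + y * hubp (a + 1)) / (j + x + y))

/-- The value `F` for `n` vertices, `j` pendant paths at the centre and `m` further neighbours of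
the centre, among which the remaining `s = (n-1-m)/2 - j` pendant paths are shared as evenly as
possible. -/
def fam (n j m : ℕ) : ℚ :=
  famv j (((n - 1 - m) / 2 - j) / m) (m - ((n - 1 - m) / 2 - j) % m) (((n - 1 - m) / 2 - j) % m)

/-- The optimal pairs `(j, m)` for `n = 0, 1, …, 243` (the first two entries are not used). -/
def tab : List (ℕ × ℕ) :=
  [
   (0, 0), (0, 0), (0, 1), (1, 0), (1, 1), (2, 0), (1, 1), (3, 0), (2, 1), (4, 0), (2, 1), (5, 0),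
   (3, 1), (6, 0), (3, 1), (7, 0), (4, 1), (8, 0), (4, 1), (9, 0), (5, 1), (10, 0), (5, 1), (4, 2),
   (6, 1), (4, 2), (6, 1), (4, 2), (7, 1), (5, 2), (7, 1), (5, 2), (8, 1), (5, 2), (8, 1), (6, 2),
   (4, 3), (7, 2), (5, 3), (7, 2), (5, 3), (7, 2), (6, 3), (8, 2), (6, 3), (8, 2), (6, 3), (5, 4),
   (7, 3), (5, 4), (7, 3), (6, 4), (7, 3), (6, 4), (7, 3), (6, 4), (5, 5), (6, 4), (5, 5), (7, 4),
   (6, 5), (8, 4), (6, 5), (8, 4), (6, 5), (5, 6), (6, 5), (5, 6), (6, 5), (5, 6), (7, 5), (6, 6),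
   (8, 5), (6, 6), (8, 5), (6, 6), (5, 7), (6, 6), (5, 7), (6, 6), (5, 7), (7, 6), (5, 7), (8, 6),
   (6, 7), (8, 6), (6, 7), (5, 8), (6, 7), (5, 8), (6, 7), (5, 8), (7, 7), (5, 8), (8, 7), (5, 8),
   (5, 9), (6, 8), (5, 9), (6, 8), (5, 9), (6, 8), (5, 9), (7, 8), (5, 9), (8, 8), (5, 9), (5, 10),
   (5, 9), (5, 10), (5, 9), (5, 10), (6, 9), (5, 10), (7, 9), (5, 10), (4, 11), (5, 10), (4, 11), (5, 10),
   (4, 11), (5, 10), (5, 11), (6, 10), (5, 11), (7, 10), (5, 11), (4, 12), (5, 11), (4, 12), (5, 11), (4, 12),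
   (5, 11), (4, 12), (6, 11), (4, 12), (7, 11), (4, 12), (4, 13), (5, 12), (4, 13), (5, 12), (4, 13), (5, 12),
   (4, 13), (6, 12), (4, 13), (3, 14), (4, 13), (3, 14), (4, 13), (4, 14), (4, 13), (4, 14), (5, 13), (4, 14),
   (6, 13), (4, 14), (3, 15), (4, 14), (3, 15), (4, 14), (3, 15), (4, 14), (3, 15), (5, 14), (3, 15), (3, 16),
   (3, 15), (3, 16), (4, 15), (3, 16), (4, 15), (3, 16), (4, 15), (3, 16), (5, 15), (3, 16), (2, 17), (3, 16),
   (2, 17), (3, 16), (2, 17), (3, 16), (3, 17), (4, 16), (3, 17), (2, 18), (3, 17), (2, 18), (3, 17), (2, 18),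
   (3, 17), (2, 18), (3, 17), (2, 18), (4, 17), (2, 18), (1, 19), (2, 18), (2, 19), (2, 18), (2, 19), (2, 18),
   (2, 19), (3, 18), (2, 19), (1, 20), (2, 19), (1, 20), (2, 19), (1, 20), (2, 19), (1, 20), (2, 19), (1, 20),
   (3, 19), (1, 20), (1, 21), (1, 20), (1, 21), (1, 20), (1, 21), (2, 20), (1, 21), (2, 20), (1, 21), (0, 22),
   (1, 21), (0, 22), (1, 21), (0, 22), (1, 21), (0, 22), (1, 21), (0, 22), (0, 23), (0, 22), (0, 23), (0, 22),
   (0, 23), (1, 22), (0, 23), (1, 22)]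

/-- The optimal pair `(j, m)` for `n` vertices. For `n ≥ 244` put `x = 5(n-1) mod 11`. -/
def opt (n : ℕ) : ℕ × ℕ :=
  if n ≤ 243 then tab.getD n (0, 0)
  else
    (if 5 * (n - 1) % 11 = 10 ∧ n ≤ 333 then 1 else 0,
     if 5 * (n - 1) % 11 = 10 ∨ (5 * (n - 1) % 11 = 9 ∧ 423 < n) ∨
        (5 * (n - 1) % 11 = 8 ∧ 722 < n) ∨ (5 * (n - 1) % 11 = 7 ∧ 2319 < n)
     then (n - 1 + 2 * (5 * (n - 1) % 11)) / 11 - 2
     else (n - 1 + 2 * (5 * (n - 1) % 11)) / 11)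

/-- The maximum Laplacian ratio of a tree with `n` vertices and diameter at most `k`. -/
def maxRatio (n k : ℕ) : ℚ :=
  if k ≤ 2 then 2
  else if k = 3 then 4 - 2 * (n - 1) / (n ^ 2 / 4 : ℕ)
  else if k ≤ 5 ∧ n % 2 = 1 then 4 / 3 * (3 / 2) ^ (n / 2)
  else if k = 4 ∧ n ≤ 10 then (3 / 2) ^ (n / 2 - 1) * (4 * n + 4) / (3 * n)
  else if k = 4 then (3 / 2) ^ (n / 2 - 1) * (40 * n - 88) / (27 * (n - 2))
  else if k = 5 then (3 / 2) ^ (n / 2 - 1) * (16 - (2 * n - 6) / ((n + 2) ^ 2 / 16 : ℕ)) / 9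
  else fam n (opt n).1 (opt n).2

end Pool.Agent.Lib.MP_70d11c_co
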