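import Pool.Agent.Lib.MP_70d11c_co.FamNat

namespace Pool.Agent.Lib.MP_70d11c_co

noncomputable def chkB (h m A B : ℕ) : Bool :=
  allUpTo (fun j => (Nat.blt h (Nat.add j (Nat.mul 3 m))).rec
    ((Nat.blt (Nat.add j (Nat.mul 8 m)) h).rec (cmp1 h j m A B) true) true) 25

noncomputable def chkA (n A B : ℕ) : Bool :=
  allUpTo (fun i => chkB (Nat.sub (Nat.div (Nat.sub n 1) 2) i)
    (Nat.add (Nat.mul 2 i) (Nat.mod (Nat.sub n 1) 2)) A B) (n / 14 + 1)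

lemma chk1_ok : allUpTo (fun n => chkA n (MN n) (MD n)) 393 = true := by decide +kernel

lemma F1 {n j m : ℕ} (hn : 2 ≤ n) (hn2 : n ≤ 392) (hj : j ≤ 24) (hv : Valid n j m)
    (h1 : j + 3 * m ≤ (n - 1 - m) / 2) (h2 : (n - 1 - m) / 2 ≤ j + 8 * m) : fam n j m ≤ M n := by
  have hv' := hv
  obtain ⟨v1, v2, v3, v4⟩ := hv'
  have k1 := allUpTo_spec (allUpTo_spec (allUpTo_spec chk1_ok n (by omega)) (m / 2) (by omega)) j
    (by omega)
  have e1 : Nat.sub (Nat.div (Nat.sub n 1) 2) (m / 2) = (n - 1 - m) / 2 := by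
    change (n - 1) / 2 - m / 2 = _
    omega
  have e2 : Nat.add (Nat.mul 2 (m / 2)) (Nat.mod (Nat.sub n 1) 2) = m := by
    change 2 * (m / 2) + (n - 1) % 2 = m
    omega
  simp only [e1, e2] at k1
  have c1 : Nat.blt ((n - 1 - m) / 2) (Nat.add j (Nat.mul 3 m)) = false := by
    rw [← Bool.not_eq_true, Nat.blt_eq]
    change ¬ (_ < j + 3 * m)
    omega
  have c2 : Nat.blt (Nat.add j (Nat.mul 8 m)) ((n - 1 - m) / 2) = false := by
    rw [← Bool.not_eq_true, Nat.blt_eq]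
    change ¬ (j + 8 * m < _)
    omega
  rw [c1, c2] at k1
  exact cmp1_ok hn hv k1

noncomputable def chkD (h m A B : ℕ) : Bool :=
  allUpTo (fun j => (Nat.blt (Nat.add h 29) (Nat.add j (Nat.mul 5 m))).rec
    ((Nat.blt (Nat.add (Nat.add j 6) (Nat.mul 5 m)) h).rec (cmp1 h j m A B) true) true) 5

noncomputable def chkC (n i0 A B : ℕ) : Bool :=
  allUpTo (fun i => chkD (Nat.sub (Nat.div (Nat.sub n 1) 2) (Nat.add i0 i))
    (Nat.add (Nat.mul 2 (Nat.add i0 i)) (Nat.mod (Nat.sub n 1) 2)) A B) 6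

noncomputable def chkE (n : ℕ) : Bool := chkC n ((n - 21) / 22) (MN n) (MD n)

lemma chk2_ok : allUpTo (fun a => allUpTo (fun b => chkE (393 + 73 * a + b)) 73) 27 = true := by
  decide +kernel

lemma F2 {n j m : ℕ} (hn : 393 ≤ n) (hn2 : n ≤ 2363) (hj : j ≤ 4) (hv : Valid n j m)
    (h1 : j + 5 * m ≤ (n - 1 - m) / 2 + 29) (h2 : (n - 1 - m) / 2 ≤ j + 6 + 5 * m) :
    fam n j m ≤ M n := by
  have hv' := hv
  obtain ⟨v1, v2, v3, v4⟩ := hv'
  have k0 := allUpTo_spec (allUpTo_spec chk2_ok ((n - 393) / 73) (by omega)) ((n - 393) % 73)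
    (by omega)
  rw [show 393 + 73 * ((n - 393) / 73) + (n - 393) % 73 = n by omega] at k0
  unfold chkE chkC at k0
  have k1 := allUpTo_spec (allUpTo_spec k0 (m / 2 - (n - 21) / 22) (by omega)) j (by omega)
  have e0 : Nat.add ((n - 21) / 22) (m / 2 - (n - 21) / 22) = m / 2 := by
    change (n - 21) / 22 + (m / 2 - (n - 21) / 22) = _
    omega
  have e1 : Nat.sub (Nat.div (Nat.sub n 1) 2) (m / 2) = (n - 1 - m) / 2 := by
    change (n - 1) / 2 - m / 2 = _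
    omega
  have e2 : Nat.add (Nat.mul 2 (m / 2)) (Nat.mod (Nat.sub n 1) 2) = m := by
    change 2 * (m / 2) + (n - 1) % 2 = m
    omega
  simp only [e0, e1, e2] at k1
  have c1 : Nat.blt (Nat.add ((n - 1 - m) / 2) 29) (Nat.add j (Nat.mul 5 m)) = false := by
    rw [← Bool.not_eq_true, Nat.blt_eq]
    change ¬ (_ + 29 < j + 5 * m)
    omega
  have c2 : Nat.blt (Nat.add (Nat.add j 6) (Nat.mul 5 m)) ((n - 1 - m) / 2) = false := by
    rw [← Bool.not_eq_true, Nat.blt_eq]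
    change ¬ (j + 6 + 5 * m < _)
    omega
  rw [c1, c2] at k1
  exact cmp1_ok (by omega) hv k1

def cA (j i : ℕ) : ℚ :=
  (3 / 2) ^ j * if i ≤ 29 then (hubZ 4 / hubZ 5) ^ (29 - i) else (hubZ 6 / hubZ 5) ^ (i - 29)
def cS (i : ℕ) : ℚ :=
  if i ≤ 29 then (29 - i : ℕ) * (hubp 4 - hubp 5) else (i - 29 : ℕ) * (hubp 6 - hubp 5)

lemma fam_Phi {n j m i : ℕ} (hm : 30 ≤ m) (hi : i ≤ 35) (hn : n + 58 = 1 + 2 * j + 11 * m + 2 * i) :
    fam n j m = cA j i * hubZ 5 ^ m * (4 * j / 3 + cS i + 26 / 23 * m) / (j + m) := by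
  have hz : hubZ 5 ≠ 0 := by norm_num [hubZ]
  have hm' : (30 : ℚ) ≤ m := by exact_mod_cast hm
  have hj : (0 : ℚ) ≤ j := by positivity
  by_cases h : i ≤ 29
  · obtain ⟨x, hx, rfl⟩ : ∃ x, x ≤ 29 ∧ i = 29 - x := ⟨29 - i, by omega, by omega⟩
    obtain ⟨y, rfl⟩ : ∃ y, m = x + y := ⟨m - x, by omega⟩
    rw [← famv_eq_fam (a := 4) (by omega)]
    simp only [cA, cS, if_pos h, show 29 - (29 - x) = x by omega, famv]
    push_cast at hm' ⊢
    have : (j : ℚ) + x + y ≠ 0 := by linarith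
    have : (j : ℚ) + (x + y) ≠ 0 := by linarith
    rw [div_pow (hubZ 4), pow_add]
    norm_num [hubp]
    field_simp
    ring
  · obtain ⟨y, rfl⟩ : ∃ y, i = y + 29 := ⟨i - 29, by omega⟩
    obtain ⟨x, rfl⟩ : ∃ x, m = x + y := ⟨m - y, by omega⟩
    rw [← famv_eq_fam (a := 5) (by omega)]
    simp only [cA, cS, if_neg h, Nat.add_sub_cancel, famv]
    push_cast at hm' ⊢
    have : (j : ℚ) + x + y ≠ 0 := by linarith
    have : (j : ℚ) + (x + y) ≠ 0 := by linarith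
    rw [div_pow (hubZ 6), pow_add]
    norm_num [hubp]
    field_simp
    ring

def quadOK (A B α σ j m0 m1 : ℚ) : Prop :=
  0 ≤ B - A ∧ 0 ≤ B * (26 / 23 * (j + m0) + σ + 26 / 23 * m1) - A * (26 / 23 * m1 + α + 26 / 23 * m0) ∧
    0 ≤ B * (σ + 26 / 23 * m1) * (j + m0) - A * (α + 26 / 23 * m0) * m1

instance (A B α σ j m0 m1 : ℚ) : Decidable (quadOK A B α σ j m0 m1) := by
  unfold quadOK; infer_instance

lemma quad_ok : ∀ j : ℕ, j < 5 → ∀ i : ℕ, i < 36 → ∀ i' : ℕ, i' < 11 → ∀ k : ℕ, k < 9 →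
    11 * k + 2 * (i' + 23) = 2 * (j + i) + 66 →
    quadOK (cA j i * hubZ 5 ^ 6) (cA 0 (i' + 23) * hubZ 5 ^ k) (4 * j / 3 + cS i) (cS (i' + 23))
      j 213 (207 + k) := by decide +kernel

lemma F3 {n j m : ℕ} (hn : 2364 ≤ n) (hj : j ≤ 4) (hv : Valid n j m)
    (h1 : j + 5 * m ≤ (n - 1 - m) / 2 + 29) (h2 : (n - 1 - m) / 2 ≤ j + 6 + 5 * m) :
    fam n j m ≤ M n := by
  obtain ⟨v1, v2, v3, v4⟩ := hv
  obtain ⟨i, hi, hni⟩ : ∃ i, i < 36 ∧ n + 58 = 1 + 2 * j + 11 * m + 2 * i :=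
    ⟨(n - 1 - m) / 2 + 29 - (j + 5 * m), by omega, by omega⟩
  obtain ⟨m', i', hi', hni', ho⟩ : ∃ m' i', i' < 11 ∧
      n + 58 = 1 + 2 * 0 + 11 * m' + 2 * (i' + 23) ∧ opt n = (0, m') := by
    unfold opt
    rw [if_neg (by omega), if_neg (by omega)]
    split_ifs with h
    · exact ⟨_, 17 - 5 * (n - 1) % 11, by omega, by omega, rfl⟩
    · exact ⟨_, 6 - 5 * (n - 1) % 11, by omega, by omega, rfl⟩
  obtain ⟨u, rfl⟩ : ∃ u, m = u + 213 := ⟨m - 213, by omega⟩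
  obtain ⟨k, hk, rfl⟩ : ∃ k, k < 9 ∧ m' = u + 207 + k := ⟨m' - (u + 207), by omega, by omega⟩
  obtain ⟨q2, q1, q0⟩ := quad_ok j (by omega) i hi i' hi' k hk (by omega)
  unfold M
  rw [ho, fam_Phi (by omega) (by omega) hni, fam_Phi (by omega) (by omega) hni']
  have hu : (0 : ℚ) ≤ u := Nat.cast_nonneg u
  have hj0 : (0 : ℚ) ≤ j := Nat.cast_nonneg j
  have hk0 : (0 : ℚ) ≤ k := Nat.cast_nonneg k
  have hz : 0 < hubZ 5 ^ (u + 207) := pow_pos (by norm_num [hubZ]) _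
  have e1 : hubZ 5 ^ (u + 213) = hubZ 5 ^ (u + 207) * hubZ 5 ^ 6 := by
    rw [← pow_add]
  rw [e1, pow_add _ (u + 207) k]
  generalize hubZ 5 ^ (u + 207) = E at hz
  generalize hubZ 5 ^ 6 = E6 at *
  generalize hubZ 5 ^ k = Ek at *
  generalize cA j i = A at *
  generalize cA 0 (i' + 23) = B at *
  generalize cS i = σ at *
  generalize cS (i' + 23) = σ' at *
  push_cast
  rw [div_le_div_iff₀ (by linarith) (by linarith)]
  have := mul_nonneg hz.le (add_nonneg (add_nonneg (mul_nonneg (mul_nonneg q2 (sq_nonneg (u : ℚ)))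
    (show (0 : ℚ) ≤ 26 / 23 by norm_num)) (mul_nonneg q1 hu)) q0)
  linarith

end Pool.Agent.Lib.MP_70d11c_co
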