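import Pool.Agent.Lib.MP_70d11c_co.LowChk
import Pool.Agent.Lib.MP_70d11c_co.FamChk

namespace Pool.Agent.Lib.MP_70d11c_co

open Real

lemma valid_of {n j a x y : ℕ} (h : n = 1 + 2 * j + x * (2 * a + 1) + y * (2 * a + 3))
    (hD : 0 < j + x + y) :
    Valid n j (x + y) ∧ (n - 1 - (x + y)) / 2 = j + a * (x + y) + y := by
  have e : n = 1 + (x + y) + 2 * (j + a * (x + y) + y) := by rw [h]; ring
  generalize a * (x + y) = z at *
  refine ⟨⟨by omega, by omega, fun h0 => ?_, by omega⟩, by omega⟩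
  have h1 : x = 0 := by omega
  have h2 : y = 0 := by omega
  subst h1 h2
  omega

lemma F23 {n j a x y : ℕ} (h : n = 1 + 2 * j + x * (2 * a + 1) + y * (2 * a + 3)) (hn : 393 ≤ n)
    (hj : j ≤ 4) (ha : (a = 4 ∧ x ≤ 29) ∨ (a = 5 ∧ y ≤ 6)) : famv j a x y ≤ M n := by
  have hD : 0 < j + x + y := by
    by_contra h0
    have h1 : x = 0 := by omega
    have h2 : y = 0 := by omega
    subst h1 h2
    omega
  obtain ⟨hv, e⟩ := valid_of h hD
  rw [famv_eq_fam h]
  have h1 : j + 5 * (x + y) ≤ (n - 1 - (x + y)) / 2 + 29 := by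
    rcases ha with ⟨rfl, _⟩ | ⟨rfl, _⟩ <;> omega
  have h2 : (n - 1 - (x + y)) / 2 ≤ j + 6 + 5 * (x + y) := by
    rcases ha with ⟨rfl, _⟩ | ⟨rfl, _⟩ <;> omega
  by_cases hn2 : n ≤ 2363
  · exact F2 hn hn2 hj hv h1 h2
  · exact F3 (by omega) hj hv h1 h2

lemma famv_pos (j a x y : ℕ) : 0 < famv j a x y := by
  have h1 := hubZ_ge a
  have h2 := hubZ_ge (a + 1)
  unfold famv hubp
  positivity

lemma M_pos (n : ℕ) : 0 < M n := famv_pos _ _ _ _

lemma ell4_ge : -(1027 / 1000000 : ℝ) ≤ log (hubZ 4) - 9 * w := by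
  have h1 := le_log_hub 4
  have h2 := le_whi
  norm_num [lL, lLt, whi] at h1 h2
  linarith

/-- the uniform lower bound for the optimum -/
lemma low {n : ℕ} (hn : 2 ≤ n) : w * ((n - 1 : ℕ) : ℝ) + g0 - eta0 ≤ log (M n) := by
  by_cases hn2 : n ≤ 392
  · have h1 := low_ok hn hn2
    simp only [lowChk2, Bool.and_eq_true, decide_eq_true_eq] at h1
    have h2 : ((((n - 1 : ℕ) : ℚ) * whi + (122602323 / 1000000000 - eta0) : ℚ) : ℝ) ≤ LB n := by
      exact_mod_cast h1.1
    have h3 := LB_le n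
    have h4 := g0_le
    have h5 : (logHi (26 / 23) : ℝ) ≤ ((122602323 / 1000000000 : ℚ) : ℝ) := by
      exact_mod_cast g0_le'
    have h6 := mul_le_mul_of_nonneg_right le_whi (Nat.cast_nonneg (α := ℝ) (n - 1))
    rw [Rat.cast_add, Rat.cast_sub, Rat.cast_mul, Rat.cast_natCast] at h2
    linarith
  · obtain ⟨x, y, hx, hy, e⟩ : ∃ x y, x ≤ 10 ∧ 1 ≤ y ∧
        n = 1 + 2 * 0 + x * (2 * 4 + 1) + y * (2 * 4 + 3) :=
      ⟨5 * (n - 1) % 11, (n - 1 - 9 * (5 * (n - 1) % 11)) / 11, by omega, by omega, by omega⟩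
    have h1 := F23 e (by omega) (by omega) (Or.inl ⟨rfl, by omega⟩)
    have h2 : log (famv 0 4 x y) ≤ log (M n) :=
      Real.log_le_log (by exact_mod_cast famv_pos _ _ _ _) (by exact_mod_cast h1)
    refine le_trans ?_ h2
    rw [log_famv]
    have hx0 : (0 : ℝ) ≤ x := Nat.cast_nonneg x
    have hx1 : (x : ℝ) ≤ 10 := by exact_mod_cast hx
    have hy1 : (1 : ℝ) ≤ y := by exact_mod_cast hy
    have h3 : g0 ≤ log ((1 + (((0 : ℕ) : ℚ) / 3 + x * hubp 4 + y * hubp (4 + 1)) /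
        (((0 : ℕ) : ℚ) + x + y) : ℚ) : ℝ) := by
      refine Real.log_le_log (by norm_num) ?_
      norm_num [hubp]
      have : (3 : ℝ) / 23 ≤ (x * (3 / 19) + y * (3 / 23)) / (x + y) := by
        rw [le_div_iff₀ (by linarith)]; linarith
      linarith
    have h4 : log (hubZ (4 + 1)) = 11 * w := by unfold w; norm_num; ring
    have h5 := mul_le_mul_of_nonneg_left ell4_ge hx0
    have h6 : ((n - 1 : ℕ) : ℝ) = 9 * x + 11 * y := by
      rw [show n - 1 = 9 * x + 11 * y by omega]; push_cast; ring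
    rw [h4, h6]
    norm_num [eta0] at h3 ⊢
    linarith

lemma FL (j a x y : ℕ) (hD : 0 < j + x + y) :
    log (famv j a x y) ≤ w * ((2 * j + x * (2 * a + 1) + y * (2 * a + 3) : ℕ) : ℝ) + g0 +
      (j * (ell w Px + 23 / (26 * ((j + x + y : ℕ) : ℝ)) * (Px.p - 3 / 23)) +
       x * (ell w (hub a) + 23 / (26 * ((j + x + y : ℕ) : ℝ)) * ((hub a).p - 3 / 23)) +
       y * (ell w (hub (a + 1)) + 23 / (26 * ((j + x + y : ℕ) : ℝ)) * ((hub (a + 1)).p - 3 / 23))) := by
  have := rootW (l := Multiset.replicate j Px + Multiset.replicate x (hub a) +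
      Multiset.replicate y (hub (a + 1))) (fun z hz => by
        rcases Multiset.mem_add.1 hz with hz | hz
        · rcases Multiset.mem_add.1 hz with hz | hz
          · rw [Multiset.eq_of_mem_replicate hz]; exact pos_P
          · rw [Multiset.eq_of_mem_replicate hz]; exact pos_hub _
        · rw [Multiset.eq_of_mem_replicate hz]; exact pos_hub _) (by simp; omega)
  rw [root_fam] at this
  simp only [Multiset.map_add, Multiset.map_replicate, Multiset.sum_add, Multiset.sum_replicate,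
    nsmul_eq_mul, Multiset.card_add, Multiset.card_replicate, sz_add, sz_replicate] at this
  refine this.trans (le_of_eq ?_)
  congr 3
  simp only [Px, hub]
  push_cast
  ring

lemma ellP_le : ell w Px ≤ -(77 / 10000) := by
  have := valP_ge wlo_le 0
  norm_num [valP, lP, wlo] at this ⊢
  linarith

lemma ellH_le {a : ℕ} (ha : a < 24) (c : ℚ) (h : valH wlo 0 a ≤ -c) : ell w (hub a) ≤ -c := by
  have h1 := valH_ge wlo_le 0 ha
  have h2 : (valH wlo 0 a : ℝ) ≤ ((-c : ℚ) : ℝ) := by exact_mod_cast h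
  push_cast at h1 h2
  linarith

lemma ell3 : ell w (hub 3) ≤ -(65 / 10000) := by
  simpa using ellH_le (a := 3) (by norm_num) (65 / 10000) (by decide +kernel)
lemma ell4 : ell w (hub 4) ≤ -(1026 / 1000000) := by
  simpa using ellH_le (a := 4) (by norm_num) (1026 / 1000000) (by decide +kernel)
lemma ell6 : ell w (hub 6) ≤ -(1515 / 1000000) := by
  simpa using ellH_le (a := 6) (by norm_num) (1515 / 1000000) (by decide +kernel)
lemma ell7 : ell w (hub 7) ≤ -(46 / 10000) := by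
  simpa using ellH_le (a := 7) (by norm_num) (46 / 10000) (by decide +kernel)
lemma ell8 : ell w (hub 8) ≤ -(87 / 10000) := by
  simpa using ellH_le (a := 8) (by norm_num) (87 / 10000) (by decide +kernel)

lemma T_le {D D0 : ℕ} (h : D0 ≤ D) (h0 : 0 < D0) : (23 : ℝ) / (26 * D) ≤ 23 / (26 * D0) := by
  have : (D0 : ℝ) ≤ D := by exact_mod_cast h
  have : (0 : ℝ) < D0 := by exact_mod_cast h0
  gcongr

theorem fam_upper {n j a x y : ℕ} (h : n = 1 + 2 * j + x * (2 * a + 1) + y * (2 * a + 3))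
    (ha1 : 3 ≤ a) (ha2 : a ≤ 7) (hD : 0 < j + x + y) : famv j a x y ≤ M n := by
  have hn : 2 ≤ n := by nlinarith
  by_contra hcon
  have h1 : log (M n) < log (famv j a x y) :=
    Real.log_lt_log (by exact_mod_cast M_pos n) (by exact_mod_cast not_le.1 hcon)
  have h2 := low hn
  have h3 := FL j a x y hD
  rw [show 2 * j + x * (2 * a + 1) + y * (2 * a + 3) = n - 1 by omega] at h3
  have hT0 : (0 : ℝ) ≤ 23 / (26 * ((j + x + y : ℕ) : ℝ)) := by positivity
  have hTj : (j : ℝ) * (23 / (26 * ((j + x + y : ℕ) : ℝ))) ≤ 23 / 26 := by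
    have hD' : (0 : ℝ) < ((j + x + y : ℕ) : ℝ) := by exact_mod_cast hD
    have : (j : ℝ) ≤ ((j + x + y : ℕ) : ℝ) := by exact_mod_cast (show j ≤ j + x + y by omega)
    rw [← mul_div_assoc, div_le_div_iff₀ (by positivity) (by norm_num)]
    linarith
  have hT : ∀ D0 : ℕ, 0 < D0 → D0 ≤ j + x + y →
      (23 : ℝ) / (26 * ((j + x + y : ℕ) : ℝ)) ≤ 23 / (26 * D0) := fun D0 k1 k2 => T_le k2 k1
  generalize (23 : ℝ) / (26 * ((j + x + y : ℕ) : ℝ)) = T at *
  have hj0 : (0 : ℝ) ≤ j := Nat.cast_nonneg j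
  have hx0 : (0 : ℝ) ≤ x := Nat.cast_nonneg x
  have hy0 : (0 : ℝ) ≤ y := Nat.cast_nonneg y
  have hsum : -(1027 / 100000 : ℝ) < j * (ell w Px + T * (Px.p - 3 / 23)) +
       x * (ell w (hub a) + T * ((hub a).p - 3 / 23)) +
       y * (ell w (hub (a + 1)) + T * ((hub (a + 1)).p - 3 / 23)) := by
    norm_num [eta0] at h2 ⊢
    linarith
  clear h1 h2 h3
  have eP : ((Px.p : ℚ) : ℝ) - 3 / 23 = 14 / 69 := by norm_num [Px]
  rw [eP] at hsum
  have lP := ellP_le
  have ga : Good (hub a) := Or.inr ⟨a, ha1, by omega, rfl⟩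
  have gb : Good (hub (a + 1)) := Or.inr ⟨a + 1, by omega, by omega, rfl⟩
  have hj : j ≤ 24 := by
    by_contra hj
    have t1 := hT 24 (by norm_num) (by omega)
    norm_num at t1
    have a1 := mul_nonpos_of_nonneg_of_nonpos hx0 (W_good ga hT0 t1)
    have a2 := mul_nonpos_of_nonneg_of_nonpos hy0 (W_good gb hT0 t1)
    have a3 : (25 : ℝ) ≤ j := by exact_mod_cast (show 25 ≤ j by omega)
    nlinarith
  by_cases hn2 : n ≤ 392
  · obtain ⟨hv, e⟩ := valid_of h hD
    apply hcon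
    rw [famv_eq_fam h]
    refine F1 hn hn2 hj hv ?_ ?_
    · rw [e]; nlinarith
    · rw [e]; nlinarith
  have hD24 : 24 ≤ j + x + y := by nlinarith
  have t1 := hT 24 (by norm_num) hD24
  norm_num at t1
  have a0 := mul_nonpos_of_nonneg_of_nonpos hj0 (W_good (Or.inl rfl) hT0 t1)
  rw [eP] at a0
  have a1 := mul_nonpos_of_nonneg_of_nonpos hx0 (W_good ga hT0 t1)
  have a2 := mul_nonpos_of_nonneg_of_nonpos hy0 (W_good gb hT0 t1)
  have l3 := ell3
  have l4 := ell4
  have l6 := ell6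
  have l7 := ell7
  have l8 := ell8
  have hj4 : 35 ≤ j + x + y → j ≤ 4 := by
    intro h35
    by_contra hj
    have t2 := hT 35 (by norm_num) h35
    have a3 : (5 : ℝ) ≤ j := by exact_mod_cast (show 5 ≤ j by omega)
    have a4 : ell w Px + T * (14 / 69) ≤ -(25 / 10000) := by norm_num at t2; linarith
    nlinarith
  have p3 : (((hub 3).p : ℚ) : ℝ) = 1 / 5 := by norm_num [hub, hubp]
  have p4 : (((hub 4).p : ℚ) : ℝ) = 3 / 19 := by norm_num [hub, hubp]
  have p6 : (((hub 6).p : ℚ) : ℝ) = 1 / 9 := by norm_num [hub, hubp]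
  have p7 : (((hub 7).p : ℚ) : ℝ) = 3 / 31 := by norm_num [hub, hubp]
  have p8 : (((hub 8).p : ℚ) : ℝ) = 3 / 35 := by norm_num [hub, hubp]
  interval_cases a
  · have t2 := hT 39 (by norm_num) (by omega)
    have a3 : (39 : ℝ) ≤ x + y := by exact_mod_cast (show 39 ≤ x + y by omega)
    norm_num only at hsum t2
    rw [p3, p4] at hsum
    have b1 : ell w (hub 3) + T * (1 / 5 - 3 / 23) ≤ -(4 / 10000) := by linarith
    have b2 : ell w (hub 4) + T * (3 / 19 - 3 / 23) ≤ -(4 / 10000) := by linarith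
    nlinarith
  · have hx : x ≤ 29 := by
      by_contra hx
      have t2 := hT 36 (by norm_num) (by omega)
      have a3 : (30 : ℝ) ≤ x := by exact_mod_cast (show 30 ≤ x by omega)
      norm_num only at hsum t2 a2
      rw [p4] at hsum
      have b2 : ell w (hub 4) + T * (3 / 19 - 3 / 23) ≤ -(35 / 100000) := by linarith
      nlinarith
    exact hcon (F23 h (by omega) (hj4 (by omega)) (Or.inl ⟨rfl, hx⟩))
  · have hy : y ≤ 6 := by
      by_contra hy
      have a3 : (7 : ℝ) ≤ y := by exact_mod_cast (show 7 ≤ y by omega)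
      norm_num only at hsum a1
      rw [p6] at hsum
      have b2 : ell w (hub 6) + T * (1 / 9 - 3 / 23) ≤ -(1515 / 1000000) := by linarith
      nlinarith
    exact hcon (F23 h (by omega) (hj4 (by omega)) (Or.inr ⟨rfl, hy⟩))
  · have a3 : (7 : ℝ) ≤ x + y := by exact_mod_cast (show 7 ≤ x + y by omega)
    norm_num only at hsum
    rw [p6, p7] at hsum
    have b1 : ell w (hub 6) + T * (1 / 9 - 3 / 23) ≤ -(1515 / 1000000) := by linarith
    have b2 : ell w (hub 7) + T * (3 / 31 - 3 / 23) ≤ -(1515 / 1000000) := by linarith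
    nlinarith
  · have a3 : (7 : ℝ) ≤ x + y := by exact_mod_cast (show 7 ≤ x + y by omega)
    norm_num only at hsum
    rw [p7, p8] at hsum
    have b1 : ell w (hub 7) + T * (3 / 31 - 3 / 23) ≤ -(1515 / 1000000) := by linarith
    have b2 : ell w (hub 8) + T * (3 / 35 - 3 / 23) ≤ -(1515 / 1000000) := by linarith
    nlinarith

end Pool.Agent.Lib.MP_70d11c_co
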