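import Pool.Agent.Lib.MP_70d11c_co.Up

namespace Pool.Agent.Lib.MP_70d11c_co

noncomputable def allUpTo (f : ℕ → Bool) (k : ℕ) : Bool :=
  Nat.rec true (fun i r => (f i).rec false r) k

lemma allUpTo_spec {f : ℕ → Bool} {k : ℕ} (h : allUpTo f k = true) : ∀ i < k, f i = true := by
  induction k with
  | zero => intro i hi; omega
  | succ k ih =>
    have e : allUpTo f (k + 1) = (f k).rec false (allUpTo f k) := rfl
    rw [e] at h
    cases hf : f k with
    | false => rw [hf] at h; exact absurd h (by simp)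
    | true =>
      rw [hf] at h
      intro i hi
      rcases Nat.lt_succ_iff_lt_or_eq.1 hi with hi | rfl
      · exact ih h i hi
      · exact hf

def fN (h j u v x y : ℕ) : ℕ :=
  Nat.mul (Nat.mul (Nat.pow 3 h) (Nat.mul (Nat.pow u x) (Nat.pow v y)))
    (Nat.add (Nat.mul (Nat.add (Nat.mul 4 j) (Nat.mul 3 (Nat.add x y))) (Nat.mul u v))
      (Nat.mul 9 (Nat.add (Nat.mul x v) (Nat.mul y u))))
def fD (h j a u v x y : ℕ) : ℕ :=
  Nat.mul (Nat.mul (Nat.pow 2 h) (Nat.mul (Nat.pow (Nat.add (Nat.mul 3 a) 3) x)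
    (Nat.pow (Nat.add (Nat.mul 3 a) 6) y)))
    (Nat.mul (Nat.mul 3 (Nat.add j (Nat.add x y))) (Nat.mul u v))

lemma fD_pos (h j a x y : ℕ) (hD : 0 < j + (x + y)) : 0 < fD h j a (4 * a + 3) (4 * a + 7) x y := by
  simp only [fD, Nat.mul_eq, Nat.add_eq, Nat.pow_eq]
  positivity

lemma famv_eq (j a x y : ℕ) (hD : 0 < j + (x + y)) :
    famv j a x y = (fN (j + a * x + (a + 1) * y) j (4 * a + 3) (4 * a + 7) x y : ℚ) /
      fD (j + a * x + (a + 1) * y) j a (4 * a + 3) (4 * a + 7) x y := by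
  have h0 : (0 : ℚ) < j + (x + y) := by exact_mod_cast hD
  have h1 : (0 : ℚ) < j + x + y := by linarith
  simp only [fN, fD, Nat.mul_eq, Nat.add_eq, Nat.pow_eq, famv, hubZ, hubp]
  push_cast
  simp only [div_pow, mul_pow, pow_add, ← pow_mul]
  rw [show (4 : ℚ) * (a + 1) + 3 = 4 * a + 7 by ring, show (3 : ℚ) * (a + 1) + 3 = 3 * a + 6 by ring]
  field_simp
  ring

def gN (h j m : ℕ) : ℕ :=
  fN h j (4 * ((h - j) / m) + 3) (4 * ((h - j) / m) + 7) (m - (h - j) % m) ((h - j) % m)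
def gD (h j m : ℕ) : ℕ :=
  fD h j ((h - j) / m) (4 * ((h - j) / m) + 3) (4 * ((h - j) / m) + 7) (m - (h - j) % m)
    ((h - j) % m)

/-- admissible parameters -/
def Valid (n j m : ℕ) : Prop :=
  2 * j + m + 1 ≤ n ∧ (n - 1 - m) % 2 = 0 ∧ (m = 0 → 2 * j + 1 = n) ∧ 0 < j + m

instance (n j m : ℕ) : Decidable (Valid n j m) := by unfold Valid; infer_instance

lemma Valid.decomp {n j m : ℕ} (h : Valid n j m) :
    ((n - 1 - m) / 2 - j) % m ≤ m ∧
    (n - 1 - m) / 2 = j + ((n - 1 - m) / 2 - j) / m * (m - ((n - 1 - m) / 2 - j) % m) +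
      (((n - 1 - m) / 2 - j) / m + 1) * (((n - 1 - m) / 2 - j) % m) := by
  obtain ⟨h1, h2, h3, h4⟩ := h
  obtain ⟨s, hs⟩ : ∃ s, (n - 1 - m) / 2 = j + s := ⟨(n - 1 - m) / 2 - j, by omega⟩
  rw [hs, Nat.add_sub_cancel_left]
  rcases Nat.eq_zero_or_pos m with rfl | hm
  · have : s = 0 := by omega
    subst this; simp
  · have k1 := Nat.mod_lt s hm
    have k2 := Nat.div_add_mod s m
    refine ⟨k1.le, ?_⟩
    generalize s / m = a at *
    generalize s % m = y at *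
    obtain ⟨x, rfl⟩ : ∃ x, m = x + y := ⟨m - y, by omega⟩
    rw [Nat.add_sub_cancel, ← k2]
    ring

lemma fam_eq {n j m : ℕ} (h : Valid n j m) :
    fam n j m = (gN ((n - 1 - m) / 2) j m : ℚ) / gD ((n - 1 - m) / 2) j m ∧
      0 < gD ((n - 1 - m) / 2) j m := by
  obtain ⟨k1, k2⟩ := h.decomp
  have hD : 0 < j + ((m - ((n - 1 - m) / 2 - j) % m) + ((n - 1 - m) / 2 - j) % m) := by
    have := h.2.2.2
    omega
  refine ⟨?_, fD_pos _ _ _ _ _ hD⟩
  unfold fam gN gD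
  rw [famv_eq _ _ _ _ hD, ← k2]

lemma valid_small : ∀ n, n < 244 → 2 ≤ n → Valid n (opt n).1 (opt n).2 := by decide +kernel

lemma valid_opt {n : ℕ} (hn : 2 ≤ n) : Valid n (opt n).1 (opt n).2 := by
  by_cases h : n < 244
  · exact valid_small n h hn
  · unfold opt Valid
    rw [if_neg (by omega)]
    simp only
    split_ifs <;> omega

def M (n : ℕ) : ℚ := fam n (opt n).1 (opt n).2
def MN (n : ℕ) : ℕ := gN ((n - 1 - (opt n).2) / 2) (opt n).1 (opt n).2
def MD (n : ℕ) : ℕ := gD ((n - 1 - (opt n).2) / 2) (opt n).1 (opt n).2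

lemma M_eq {n : ℕ} (hn : 2 ≤ n) : M n = (MN n : ℚ) / MD n ∧ 0 < MD n := fam_eq (valid_opt hn)

lemma famv_eq_fam {n j a x y : ℕ} (h : n = 1 + 2 * j + x * (2 * a + 1) + y * (2 * a + 3)) :
    famv j a x y = fam n j (x + y) := by
  have e : (n - 1 - (x + y)) / 2 - j = a * (x + y) + y := by
    have : n = 1 + (x + y) + 2 * (j + (a * (x + y) + y)) := by rw [h]; ring
    omega
  unfold fam
  rw [e]
  rcases Nat.eq_zero_or_pos x with rfl | hx
  · rcases Nat.eq_zero_or_pos y with rfl | hy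
    · simp [famv]
    · rw [Nat.zero_add, show a * y + y = y * (a + 1) by ring, Nat.mul_mod_right,
        Nat.mul_div_cancel_left _ hy]
      simp [famv]
  · have h1 : (a * (x + y) + y) % (x + y) = y := by
      rw [mul_comm, Nat.mul_add_mod, Nat.mod_eq_of_lt (by omega)]
    have h2 : (a * (x + y) + y) / (x + y) = a := by
      rw [mul_comm, Nat.mul_add_div (by omega), Nat.div_eq_of_lt (by omega), add_zero]
    rw [h1, h2, Nat.add_sub_cancel]

def cmp3 (h j a u v x y A B : ℕ) : Bool :=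
  Nat.ble (Nat.mul (fN h j u v x y) B) (Nat.mul A (fD h j a u v x y))
def cmp2 (h j m a y A B : ℕ) : Bool :=
  cmp3 h j a (Nat.add (Nat.mul 4 a) 3) (Nat.add (Nat.mul 4 a) 7) (Nat.sub m y) y A B
def cmp1 (h j m A B : ℕ) : Bool :=
  cmp2 h j m (Nat.div (Nat.sub h j) m) (Nat.mod (Nat.sub h j) m) A B

lemma cmp1_ok {n j m : ℕ} (hn : 2 ≤ n) (hv : Valid n j m)
    (h : cmp1 ((n - 1 - m) / 2) j m (MN n) (MD n) = true) : fam n j m ≤ M n := by
  have h' : gN ((n - 1 - m) / 2) j m * MD n ≤ MN n * gD ((n - 1 - m) / 2) j m :=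
    Nat.le_of_ble_eq_true h
  obtain ⟨e1, p1⟩ := fam_eq hv
  obtain ⟨e2, p2⟩ := M_eq hn
  rw [e1, e2, div_le_div_iff₀ (by exact_mod_cast p1) (by exact_mod_cast p2)]
  exact_mod_cast h'

end Pool.Agent.Lib.MP_70d11c_co
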