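import Pool.Agent.Lib.MP_70d11c_co.Up

namespace Pool.Agent.Lib.MP_70d11c_co

open Real

def logS (z : ℚ) : ℚ :=
  2 * (z + z ^ 3 / 3 + z ^ 5 / 5 + z ^ 7 / 7 + z ^ 9 / 9 + z ^ 11 / 11 + z ^ 13 / 13 + z ^ 15 / 15)
def logT (z : ℚ) : ℚ := logS z + 2 * z ^ 17 / (1 - z ^ 2)
def logLo (x : ℚ) : ℚ := logS ((x - 1) / (x + 1))
def logHi (x : ℚ) : ℚ := logT ((x - 1) / (x + 1))

lemma log_aux {x : ℚ} (hx : 1 ≤ x) :
    0 ≤ (((x - 1) / (x + 1) : ℚ) : ℝ) ∧ (((x - 1) / (x + 1) : ℚ) : ℝ) < 1 ∧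
      (1 + (((x - 1) / (x + 1) : ℚ) : ℝ)) / (1 - (((x - 1) / (x + 1) : ℚ) : ℝ)) = x := by
  have hx' : (1 : ℝ) ≤ x := by exact_mod_cast hx
  push_cast
  refine ⟨div_nonneg (by linarith) (by linarith), by rw [div_lt_one (by linarith)]; linarith, ?_⟩
  have : (1 : ℝ) - (x - 1) / (x + 1) = 2 / (x + 1) := by field_simp; ring
  rw [this]
  field_simp
  ring

lemma logLo_le {x : ℚ} (hx : 1 ≤ x) : (logLo x : ℝ) ≤ log x := by
  obtain ⟨h0, h1, h2⟩ := log_aux hx
  have := Real.sum_range_le_log_div h0 h1 8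
  rw [h2] at this
  unfold logLo logS
  generalize (x - 1) / (x + 1) = z at *
  simp only [Finset.sum_range_succ, Finset.sum_range_zero] at this
  push_cast at this ⊢
  norm_num at this ⊢
  linarith

lemma le_logHi {x : ℚ} (hx : 1 ≤ x) : log x ≤ (logHi x : ℝ) := by
  obtain ⟨h0, h1, h2⟩ := log_aux hx
  have := Real.log_div_le_sum_range_add h0 h1 8
  rw [h2] at this
  unfold logHi logT logS
  generalize (x - 1) / (x + 1) = z at *
  simp only [Finset.sum_range_succ, Finset.sum_range_zero] at this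
  push_cast at this ⊢
  norm_num at this ⊢
  rw [mul_div_assoc]
  linarith

lemma conc {q q0 t : ℝ} (hq : 1 ≤ q) (hq0 : 1 ≤ q0) (_ht0 : 0 ≤ t) (ht : t ≤ 1 / 2) :
    log q + t / q ≤ log q0 + t / q0 + (1 / q0 - t / q0 ^ 2) * (q - q0) := by
  have hq' : 0 < q := by linarith
  have hq0' : 0 < q0 := by linarith
  have key : log q - log q0 ≤ (q - q0) / q0 - t * (q - q0) ^ 2 / (q * q0 ^ 2) := by
    rcases le_total q0 q with h | h
    · have hu : 1 ≤ q / q0 := by rw [le_div_iff₀ hq0']; linarith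
      have h1 := Real.self_le_sinh_iff.2 (Real.log_nonneg hu)
      rw [Real.sinh_log (by positivity), Real.log_div hq'.ne' hq0'.ne'] at h1
      refine h1.trans ?_
      have e : (q - q0) / q0 - t * (q - q0) ^ 2 / (q * q0 ^ 2) - (q / q0 - (q / q0)⁻¹) / 2 =
          (q - q0) ^ 2 * (q0 / 2 - t) / (q * q0 ^ 2) := by field_simp; ring
      have : 0 ≤ (q - q0) ^ 2 * (q0 / 2 - t) / (q * q0 ^ 2) :=
        div_nonneg (mul_nonneg (sq_nonneg _) (by linarith)) (by positivity)
      linarith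
    · have hu : 0 ≤ q0 / q - 1 := by rw [sub_nonneg, le_div_iff₀ hq']; linarith
      have h1 := Real.le_log_one_add_of_nonneg hu
      rw [show 1 + (q0 / q - 1) = q0 / q by ring, Real.log_div hq0'.ne' hq'.ne'] at h1
      have e : (q - q0) / q0 - t * (q - q0) ^ 2 / (q * q0 ^ 2) + 2 * (q0 / q - 1) / (q0 / q - 1 + 2) =
          (q - q0) ^ 2 * (q * q0 - t * (q + q0)) / (q * q0 ^ 2 * (q + q0)) := by
        rw [show q0 / q - 1 + 2 = (q + q0) / q by field_simp; ring]
        field_simp; ring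
      have : 0 ≤ (q - q0) ^ 2 * (q * q0 - t * (q + q0)) / (q * q0 ^ 2 * (q + q0)) :=
        div_nonneg (mul_nonneg (sq_nonneg _) (by nlinarith)) (by positivity)
      linarith
  have e : (q - q0) / q0 - t * (q - q0) ^ 2 / (q * q0 ^ 2) =
      t / q0 + (1 / q0 - t / q0 ^ 2) * (q - q0) - t / q := by field_simp; ring
  linarith

noncomputable def ell (μ : ℝ) (x : X) : ℝ := log x.Z - μ * x.s

lemma sum_ell (μ t : ℝ) {l : Multiset X} (h : ∀ y ∈ l, Pos y) :
    log (PP l) - μ * sz l + t * SS l = (l.map fun y => ell μ y + t * y.p).sum := by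
  induction l using Multiset.induction_on with
  | empty => simp
  | cons a l ih =>
    have h1 := (h a (Multiset.mem_cons_self _ _)).2.1
    have h3 := fun y hy => h y (Multiset.mem_cons_of_mem hy)
    have h2 := PP_ge h3
    have h1' : (1 : ℝ) ≤ a.Z := by exact_mod_cast h1
    have h2' : (1 : ℝ) ≤ PP l := by exact_mod_cast h2
    rw [Multiset.map_cons, Multiset.sum_cons, ← ih h3, PP_cons, SS_cons, sz_cons]
    push_cast
    rw [Real.log_mul (by linarith) (by linarith)]
    unfold ell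
    ring

lemma gen_bound (μ t q0 d : ℝ) {l : Multiset X} (h : ∀ y ∈ l, Pos y) (hd : 1 ≤ d) (hq0 : 1 ≤ q0)
    (ht0 : 0 ≤ t) (ht : t ≤ 1 / 2) :
    log (PP l * (1 + SS l / d)) - μ * sz l + t / (d + SS l) ≤
      log (q0 / d) + t / q0 - (1 / q0 - t / q0 ^ 2) * (q0 - d) +
        (l.map fun y => ell μ y + (1 / q0 - t / q0 ^ 2) * y.p).sum := by
  have h2 : (1 : ℝ) ≤ PP l := by exact_mod_cast PP_ge h
  have h3 : (0 : ℝ) ≤ SS l := by exact_mod_cast SS_nonneg h
  have h4 := conc (q := d + SS l) (by linarith) hq0 ht0 ht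
  rw [← sum_ell μ _ h, show 1 + SS l / d = (d + SS l) / d by field_simp,
    Real.log_mul (by linarith) (by positivity), Real.log_div (by linarith) (by linarith),
    Real.log_div (by linarith) (by linarith)]
  linarith

lemma node_bound (μ t q0 : ℝ) {l : Multiset X} (h : ∀ y ∈ l, Pos y) (hq0 : 1 ≤ q0)
    (ht0 : 0 ≤ t) (ht : t ≤ 1 / 2) :
    ell μ (node l) + t * (node l).p ≤
      -μ + log (q0 / (l.card + 1)) + t / q0 - (1 / q0 - t / q0 ^ 2) * (q0 - (l.card + 1)) +
        (l.map fun y => ell μ y + (1 / q0 - t / q0 ^ 2) * y.p).sum := by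
  have := gen_bound μ t q0 (l.card + 1) h (by have : (0 : ℝ) ≤ l.card := by positivity
                                              linarith) hq0 ht0 ht
  have e : ell μ (node l) + t * (node l).p =
      -μ + (log (PP l * (1 + SS l / (l.card + 1))) - μ * sz l + t / (l.card + 1 + SS l)) := by
    simp only [ell, node]; push_cast; ring
  rw [e]
  linarith

lemma root_bound (μ q0 : ℝ) {l : Multiset X} (h : ∀ y ∈ l, Pos y) (hl : 1 ≤ l.card)
    (hq0 : 1 ≤ q0) :
    log (root l) ≤ μ * sz l + log (q0 / l.card) - 1 / q0 * (q0 - l.card) +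
        (l.map fun y => ell μ y + 1 / q0 * y.p).sum := by
  have := gen_bound μ 0 q0 l.card h (by exact_mod_cast hl) hq0 le_rfl (by norm_num)
  simp only [zero_div, sub_zero, add_zero] at this
  simp only [root]; push_cast
  linarith

lemma sum_le_of_mem {l : Multiset X} (f : X → ℝ) (A B : ℝ) {y0 : X} (h0 : y0 ∈ l)
    (hA : ∀ y ∈ l, f y ≤ A) (hB : f y0 ≤ B) : (l.map f).sum ≤ (l.card - 1) * A + B := by
  obtain ⟨l', rfl⟩ := Multiset.exists_cons_of_mem h0
  have := Multiset.sum_le_card_nsmul (l'.map f) A (by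
    intro x hx
    obtain ⟨y, hy, rfl⟩ := Multiset.mem_map.1 hx
    exact hA y (Multiset.mem_cons_of_mem hy))
  rw [Multiset.card_map, nsmul_eq_mul] at this
  rw [Multiset.map_cons, Multiset.sum_cons, Multiset.card_cons]
  push_cast
  linarith

lemma sum_le_all {l : Multiset X} (f : X → ℝ) (A : ℝ) (hA : ∀ y ∈ l, f y ≤ A) :
    (l.map f).sum ≤ l.card * A := by
  have := Multiset.sum_le_card_nsmul (l.map f) A (by
    intro x hx
    obtain ⟨y, hy, rfl⟩ := Multiset.mem_map.1 hx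
    exact hA y hy)
  rwa [Multiset.card_map, nsmul_eq_mul] at this

def lP : ℚ := 405465109 / 1000000000
def lPlo : ℚ := 405465108 / 1000000000

lemma log_P_le : log (3 / 2) ≤ (lP : ℝ) := by
  have h := le_logHi (x := 3 / 2) (by norm_num)
  have h2 : logHi (3 / 2) ≤ lP := by decide +kernel
  have h3 : (logHi (3 / 2) : ℝ) ≤ lP := by exact_mod_cast h2
  push_cast at h
  linarith

lemma le_log_P : (lPlo : ℝ) ≤ log (3 / 2) := by
  have h := logLo_le (x := 3 / 2) (by norm_num)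
  have h2 : lPlo ≤ logLo (3 / 2) := by decide +kernel
  have h3 : (lPlo : ℝ) ≤ logLo (3 / 2) := by exact_mod_cast h2
  push_cast at h
  linarith

lemma log_hubZ (a : ℕ) :
    log (hubZ a) = a * log (3 / 2) + log (((4 * a + 3) / (3 * a + 3) : ℚ) : ℝ) := by
  unfold hubZ
  push_cast
  rw [mul_div_assoc, Real.log_mul (by positivity) (by positivity), Real.log_pow]

lemma hub_frac (a : ℕ) : (1 : ℚ) ≤ (4 * a + 3) / (3 * a + 3) := by
  rw [le_div_iff₀ (by positivity)]
  have : (0 : ℚ) ≤ a := by positivity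
  linarith

end Pool.Agent.Lib.MP_70d11c_co
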