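import Pool.Agent.Lib.MP_70d11c_co.PotChkD

namespace Pool.Agent.Lib.MP_70d11c_co

open Real

noncomputable def w : ℝ := log (hubZ 5) / 11
noncomputable def g0 : ℝ := log (26 / 23)
def wlo : ℚ := 206586181 / 1000000000
def whi : ℚ := 206586182 / 1000000000
def eta0 : ℚ := 1027 / 100000

lemma ell_hub5 : ell w (hub 5) = 0 := by
  simp only [ell, hub, w]; push_cast; ring

lemma wlo_le : (wlo : ℝ) ≤ w := by
  have h1 := logLo_le (x := 3 / 2) (by norm_num)
  have h2 := logLo_le (hub_frac 5)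
  have h3 : 11 * wlo ≤ 5 * logLo (3 / 2) + logLo ((4 * (5 : ℕ) + 3) / (3 * (5 : ℕ) + 3)) := by
    decide +kernel
  have h4 : ((11 * wlo : ℚ) : ℝ) ≤ ((5 * logLo (3 / 2) +
    logLo ((4 * (5 : ℕ) + 3) / (3 * (5 : ℕ) + 3)) : ℚ) : ℝ) := by exact_mod_cast h3
  unfold w
  rw [log_hubZ]
  rw [Rat.cast_add, Rat.cast_mul, Rat.cast_mul] at h4
  norm_num at h1 h2 h4 ⊢
  linarith

lemma le_whi : w ≤ (whi : ℝ) := by
  have h1 := le_logHi (x := 3 / 2) (by norm_num)
  have h2 := le_logHi (hub_frac 5)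
  have h3 : 5 * logHi (3 / 2) + logHi ((4 * (5 : ℕ) + 3) / (3 * (5 : ℕ) + 3)) ≤ 11 * whi := by
    decide +kernel
  have h4 : ((5 * logHi (3 / 2) + logHi ((4 * (5 : ℕ) + 3) / (3 * (5 : ℕ) + 3)) : ℚ) : ℝ) ≤
    ((11 * whi : ℚ) : ℝ) := by exact_mod_cast h3
  unfold w
  rw [log_hubZ]
  rw [Rat.cast_add, Rat.cast_mul, Rat.cast_mul] at h4
  norm_num at h1 h2 h4 ⊢
  linarith

lemma g0_le : g0 ≤ (logHi (26 / 23) : ℝ) := by
  have h1 := le_logHi (x := 26 / 23) (by norm_num)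
  push_cast at h1
  exact h1

lemma le_g0 : (logLo (26 / 23) : ℝ) ≤ g0 := by
  have h1 := logLo_le (x := 26 / 23) (by norm_num)
  push_cast at h1
  exact h1

lemma mu24 : (pot24.mu : ℝ) ≤ w := wlo_le

lemma W_interp {x : X} {η : ℚ} {A B : ℚ} (h0 : ell w x + ((0 : ℚ) : ℝ) * x.p ≤ A)
    (h1 : ell w x + ((23 / 624 : ℚ) : ℝ) * x.p ≤ B) (k0 : A ≤ -η) (k1 : B ≤ 23 / 624 * (3 / 23) - η)
    {t : ℝ} (ht0 : 0 ≤ t) (ht1 : t ≤ 23 / 624) : ell w x + t * (x.p - 3 / 23) ≤ -η := by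
  have k0' : (A : ℝ) ≤ ((-η : ℚ) : ℝ) := by exact_mod_cast k0
  have k1' : (B : ℝ) ≤ ((23 / 624 * (3 / 23) - η : ℚ) : ℝ) := by exact_mod_cast k1
  push_cast at *
  rcases le_total 0 ((x.p : ℝ) - 3 / 23) with h | h
  · nlinarith
  · nlinarith

lemma W_hub : ∀ a : ℕ, a < 24 → a ≠ 5 →
    valH wlo 0 a ≤ -0 ∧ valH wlo (23 / 624) a ≤ 23 / 624 * (3 / 23) - 0 := by decide +kernel

lemma W_hub' : ∀ a : ℕ, a < 24 → ¬ (3 ≤ a ∧ a ≤ 8) →
    valH wlo 0 a ≤ -eta0 ∧ valH wlo (23 / 624) a ≤ 23 / 624 * (3 / 23) - eta0 := by decide +kernel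

lemma W_bad {x : X} (hx : pot24.Cls w x) (hg : ¬ Good x) {t : ℝ} (ht0 : 0 ≤ t)
    (ht1 : t ≤ 23 / 624) : ell w x + t * (x.p - 3 / 23) ≤ -eta0 := by
  rcases hx with rfl | ⟨a, ha, rfl⟩ | hx
  · exact absurd (Or.inl rfl) hg
  · have := W_hub' a ha fun h => hg (Or.inr ⟨a, h.1, h.2, rfl⟩)
    exact W_interp (valH_ge wlo_le 0 ha) (valH_ge wlo_le _ ha) this.1 this.2 ht0 ht1
  · exact W_interp (Pot.beta_ge (by decide +kernel) (by decide +kernel) hx le_rfl (by norm_num))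
      (Pot.beta_ge (by decide +kernel) (by decide +kernel) hx (by norm_num) (by norm_num))
      (by decide +kernel) (by decide +kernel) ht0 ht1

lemma W_good {x : X} (hg : Good x) {t : ℝ} (ht0 : 0 ≤ t)
    (ht1 : t ≤ 23 / 624) : ell w x + t * (x.p - 3 / 23) ≤ 0 := by
  rcases hg with rfl | ⟨a, h1, h2, rfl⟩
  · simpa using W_interp (η := 0) (valP_ge wlo_le 0) (valP_ge wlo_le _) (by decide +kernel)
      (by decide +kernel) ht0 ht1
  · by_cases h5 : a = 5
    · subst h5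
      rw [ell_hub5]
      norm_num [hub, hubp]
    · have := W_hub a (by omega) h5
      simpa using W_interp (η := 0) (valH_ge wlo_le 0 (by omega)) (valH_ge wlo_le _ (by omega))
        this.1 this.2 ht0 ht1

lemma W_all {x : X} (hx : pot24.Cls w x) {t : ℝ} (ht0 : 0 ≤ t)
    (ht1 : t ≤ 23 / 624) : ell w x + t * (x.p - 3 / 23) ≤ 0 := by
  by_cases hg : Good x
  · exact W_good hg ht0 ht1
  · have := W_bad hx hg ht0 ht1
    have : (0 : ℝ) ≤ eta0 := by norm_num [eta0]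
    linarith

lemma clsW {D h : ℕ} {x : X} (hx : Br D h x) : pot24.Cls w x := by
  refine Br.ind (pot24.Cls w) (fun l _ h2 h3 => ?_) hx
  by_cases hc : l.card < 24
  · exact Pot.step_cls mu24 pot24_ok hc h2 h3
  right; right
  have hm : (24 : ℝ) ≤ l.card := by exact_mod_cast (show 24 ≤ l.card by omega)
  have b1 := node_bound w 0 ((l.card + 1) * (26 / 23)) h2 (by linarith) le_rfl (by norm_num)
  have ht0 : (0 : ℝ) ≤ 1 / ((l.card + 1) * (26 / 23)) := by positivity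
  have ht1 : (1 : ℝ) / ((l.card + 1) * (26 / 23)) ≤ 23 / 624 := by
    rw [div_le_iff₀ (by positivity)]; linarith
  have b2 := sum_le_all (l := l) (fun y => ell w y + 1 / ((l.card + 1) * (26 / 23)) * y.p)
    (1 / ((l.card + 1) * (26 / 23)) * (3 / 23)) (fun y hy => by
      have := W_all (h3 y hy) ht0 ht1
      linarith)
  have e1 : ((l.card : ℝ) + 1) * (26 / 23) / (l.card + 1) = 26 / 23 := by field_simp
  have e2 : (1 : ℝ) / ((l.card + 1) * (26 / 23)) * ((l.card + 1) * (26 / 23) - (l.card + 1)) =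
      3 / 26 := by field_simp; ring
  have e3 : (l.card : ℝ) * (1 / ((l.card + 1) * (26 / 23)) * (3 / 23)) ≤ 3 / 26 := by
    have : (l.card : ℝ) * (1 / ((l.card + 1) * (26 / 23)) * (3 / 23)) =
        3 / 26 * (l.card / (l.card + 1)) := by field_simp
    rw [this]
    have : (l.card : ℝ) / (l.card + 1) ≤ 1 := by rw [div_le_one (by positivity)]; linarith
    linarith
  simp only [zero_div, sub_zero, zero_mul, add_zero] at b1
  rw [e1, e2] at b1
  have b3 := g0_le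
  unfold g0 at b3
  have b4 := wlo_le
  have b5 : logHi (26 / 23) - wlo ≤ -(83 / 1000) := by decide +kernel
  have b6 : ((logHi (26 / 23) - wlo : ℚ) : ℝ) ≤ ((-(83 / 1000) : ℚ) : ℝ) := by exact_mod_cast b5
  rw [Rat.cast_sub] at b6
  have b7 : ell w (node l) ≤ -(83 / 1000) := by
    push_cast at b6
    linarith
  have b8 : ((node l).p : ℝ) ≤ 1 / 25 := by
    have := SS_nonneg h2
    have h4 : (0 : ℝ) ≤ SS l := by exact_mod_cast this
    simp only [node]
    push_cast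
    exact one_div_le_one_div_of_le (by norm_num) (by linarith)
  refine ⟨?_, ?_, ?_⟩ <;> simp only [pot24] <;> push_cast <;> linarith

lemma rootW {l : Multiset X} (h : ∀ y ∈ l, Pos y) (hl : 1 ≤ l.card) :
    log (root l) ≤ w * sz l + g0 +
      (l.map fun y => ell w y + 23 / (26 * l.card) * (y.p - 3 / 23)).sum := by
  have hm : (1 : ℝ) ≤ l.card := by exact_mod_cast hl
  have b1 := root_bound w (l.card * (26 / 23)) h hl (by linarith)
  have e1 : ((l.card : ℝ)) * (26 / 23) / l.card = 26 / 23 := by field_simp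
  have e2 : (1 : ℝ) / (l.card * (26 / 23)) * (l.card * (26 / 23) - l.card) =
      3 / 26 := by field_simp; ring
  rw [e1, e2] at b1
  have e3 : (l.map fun y => ell w y + 23 / (26 * l.card) * (y.p - 3 / 23)).sum =
      (l.map fun y => ell w y + 1 / (l.card * (26 / 23)) * y.p).sum - 3 / 26 := by
    have : (fun y : X => ell w y + 23 / (26 * l.card) * (y.p - 3 / 23)) = fun y =>
        (ell w y + 1 / (l.card * (26 / 23)) * y.p) + (-(3 / (26 * l.card))) := by
      funext y; field_simp; ring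
    rw [this, Multiset.sum_map_add]
    simp only [Multiset.map_const', Multiset.sum_replicate, nsmul_eq_mul]
    have : (l.card : ℝ) * -(3 / (26 * l.card)) = -(3 / 26) := by field_simp
    rw [this, sub_eq_add_neg]
  rw [e3]
  unfold g0
  linarith

lemma big_bad {D H : ℕ} {l : Multiset X} (hl : ∀ y ∈ l, Br D H y) (hc : 24 ≤ l.card) {y0 : X}
    (hy0 : y0 ∈ l) (hbad : ¬ Good y0) : log (root l) ≤ w * sz l + g0 - eta0 := by
  have hm : (24 : ℝ) ≤ l.card := by exact_mod_cast hc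
  have ht0 : (0 : ℝ) ≤ 23 / (26 * l.card) := by positivity
  have ht1 : (23 : ℝ) / (26 * l.card) ≤ 23 / 624 :=
    div_le_div_of_nonneg_left (by norm_num) (by norm_num) (by linarith)
  have b1 := rootW (fun y hy => (hl y hy).pos) (by omega)
  have b2 := sum_le_of_mem (l := l) (fun y => ell w y + 23 / (26 * l.card) * (y.p - 3 / 23)) 0
    (-eta0) hy0 (fun y hy => W_all (clsW (hl y hy)) ht0 ht1) (W_bad (clsW (hl _ hy0)) hbad ht0 ht1)
  linarith

end Pool.Agent.Lib.MP_70d11c_co
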