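import Pool.Agent.Lib.MP_70d11c_co.FamNat
import Pool.Agent.Lib.MP_70d11c_co.Wpot

namespace Pool.Agent.Lib.MP_70d11c_co

open Real

def lLt : List ℕ := [0, 559615786, 1011600910, 1439538874, 1858249209, 2272447997, 2684105075,
  3094189129, 3503232058, 3911550235]

def lL (a : ℕ) : ℚ := (lLt.getD a 0 : ℚ) / 1000000000

lemma lL_ok : ∀ a : ℕ, a < 10 → lL a ≤ a * lPlo + logLo ((4 * a + 3) / (3 * a + 3)) := by
  decide +kernel

lemma hubZ_ge (a : ℕ) : 1 ≤ hubZ a := (pos_hub a).2.1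

lemma le_log_hub (a : ℕ) : (lL a : ℝ) ≤ log (hubZ a) := by
  by_cases ha : a < 10
  · have h1 : (lL a : ℝ) ≤ ((a * lPlo + logLo ((4 * a + 3) / (3 * a + 3)) : ℚ) : ℝ) := by
      exact_mod_cast lL_ok a ha
    have h2 := logLo_le (hub_frac a)
    have h3 := le_log_P
    have h4 : (0 : ℝ) ≤ a := by positivity
    rw [log_hubZ]
    rw [Rat.cast_add, Rat.cast_mul, Rat.cast_natCast] at h1
    nlinarith
  · have : lL a = 0 := by
      unfold lL
      rw [List.getD_eq_default _ _ (by simp [lLt]; omega)]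
      simp
    rw [this]
    exact_mod_cast Real.log_nonneg (by exact_mod_cast hubZ_ge a)

lemma log_famv (j a x y : ℕ) : log (famv j a x y) = j * log (3 / 2) + x * log (hubZ a) +
    y * log (hubZ (a + 1)) +
    log ((1 + (j / 3 + x * hubp a + y * hubp (a + 1)) / (j + x + y) : ℚ) : ℝ) := by
  have h1 : (0 : ℝ) < hubZ a := by exact_mod_cast (zero_lt_one.trans_le (hubZ_ge a))
  have h2 : (0 : ℝ) < hubZ (a + 1) := by exact_mod_cast (zero_lt_one.trans_le (hubZ_ge _))
  have h3 : (0 : ℚ) < 1 + (j / 3 + x * hubp a + y * hubp (a + 1)) / (j + x + y) := by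
    unfold hubp; positivity
  have h4 : (0 : ℝ) < ((1 + (j / 3 + x * hubp a + y * hubp (a + 1)) / (j + x + y) : ℚ) : ℝ) := by
    exact_mod_cast h3
  unfold famv
  rw [Rat.cast_mul, Real.log_mul (by push_cast; positivity) h4.ne']
  push_cast
  rw [Real.log_mul (by positivity) (by positivity), Real.log_mul (by positivity) (by positivity),
    Real.log_pow, Real.log_pow, Real.log_pow]

def lbv (j a x y : ℕ) : ℚ := j * lPlo + x * lL a + y * lL (a + 1) +
  logLo (1 + (j / 3 + x * hubp a + y * hubp (a + 1)) / (j + x + y))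

lemma lbv_le (j a x y : ℕ) : (lbv j a x y : ℝ) ≤ log (famv j a x y) := by
  have h3 : (1 : ℚ) ≤ 1 + (j / 3 + x * hubp a + y * hubp (a + 1)) / (j + x + y) := by
    have : (0 : ℚ) ≤ (j / 3 + x * hubp a + y * hubp (a + 1)) / (j + x + y) := by
      unfold hubp; positivity
    linarith
  have h1 := logLo_le h3
  have h2 := mul_le_mul_of_nonneg_left le_log_P (Nat.cast_nonneg (α := ℝ) j)
  have h4 := mul_le_mul_of_nonneg_left (le_log_hub a) (Nat.cast_nonneg (α := ℝ) x)
  have h5 := mul_le_mul_of_nonneg_left (le_log_hub (a + 1)) (Nat.cast_nonneg (α := ℝ) y)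
  rw [log_famv]
  unfold lbv
  rw [Rat.cast_add, Rat.cast_add, Rat.cast_add, Rat.cast_mul, Rat.cast_mul, Rat.cast_mul,
    Rat.cast_natCast, Rat.cast_natCast, Rat.cast_natCast]
  linarith

def lbf (n j m : ℕ) : ℚ :=
  lbv j (((n - 1 - m) / 2 - j) / m) (m - ((n - 1 - m) / 2 - j) % m) (((n - 1 - m) / 2 - j) % m)

def LB (n : ℕ) : ℚ := lbf n (opt n).1 (opt n).2

lemma LB_le (n : ℕ) : (LB n : ℝ) ≤ log (M n) := lbv_le _ _ _ _

def lowChk2 (n : ℕ) (k v : ℚ) : Bool :=
  decide (k * whi + (122602323 / 1000000000 - eta0) ≤ v) &&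
    pots.all fun c => (decide (c.D ≤ 10) && decide (n ≤ 46)) || decide (n ≤ c.D) ||
      decide (c.mu * k + c.C ≤ v)

def lowChk (n : ℕ) : Bool := lowChk2 (n + 2) (n + 1) (LB (n + 2))

lemma low_ok1 : allUpTo lowChk 200 = true := by decide +kernel
lemma low_ok2 : allUpTo (fun i => lowChk (i + 200)) 191 = true := by decide +kernel

lemma low_ok {n : ℕ} (h1 : 2 ≤ n) (h2 : n ≤ 392) : lowChk2 n ((n - 1 : ℕ) : ℚ) (LB n) = true := by
  obtain ⟨i, rfl⟩ : ∃ i, n = i + 2 := ⟨n - 2, by omega⟩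
  have : lowChk i = true := by
    by_cases h : i < 200
    · exact allUpTo_spec low_ok1 i h
    · have := allUpTo_spec low_ok2 (i - 200) (by omega)
      rwa [show i - 200 + 200 = i by omega] at this
  unfold lowChk at this
  rw [show i + 2 - 1 = i + 1 by omega]
  exact_mod_cast this

lemma g0_le' : logHi (26 / 23) ≤ 122602323 / 1000000000 := by decide +kernel

lemma pots_far : pots.all (fun c => decide (c.mu ≤ wlo) &&
    decide (c.mu * 392 + c.C ≤ wlo * 392 + logLo (26 / 23) - eta0)) = true := by decide +kernel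

lemma pots_D : ∀ D : ℕ, D < 24 → 2 ≤ D → ∃ c ∈ pots, c.D = D := by decide +kernel

end Pool.Agent.Lib.MP_70d11c_co
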