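import Pool.Agent.Lib.MP_70d11c_co.Small2

namespace Pool.Agent.Lib.MP_70d11c_co

lemma pot2_ok : (pot2.stepAll && pot2.rootOK) = true := by decide +kernel

lemma pot3_ok : (pot3.stepAll && pot3.rootOK) = true := by decide +kernel

lemma pot4_ok : (pot4.stepAll && pot4.rootOK) = true := by decide +kernel

lemma pot5_ok : (pot5.stepAll && pot5.rootOK) = true := by decide +kernel

lemma pot6_ok : (pot6.stepAll && pot6.rootOK) = true := by decide +kernel

lemma pot7_ok : (pot7.stepAll && pot7.rootOK) = true := by decide +kernel

lemma pot8_ok : (pot8.stepAll && pot8.rootOK) = true := by decide +kernel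

lemma pot9_ok : (pot9.stepAll && pot9.rootOK) = true := by decide +kernel

lemma pot10_ok : (pot10.stepAll && pot10.rootOK) = true := by decide +kernel

lemma pot11_ok : (pot11.stepAll && pot11.rootOK) = true := by decide +kernel

lemma pot12_ok : (pot12.stepAll && pot12.rootOK) = true := by decide +kernel

lemma pot13_ok : (pot13.stepAll && pot13.rootOK) = true := by decide +kernel

lemma pot14_ok : (pot14.stepAll && pot14.rootOK) = true := by decide +kernel

lemma pot15_ok : (pot15.stepAll && pot15.rootOK) = true := by decide +kernel

end Pool.Agent.Lib.MP_70d11c_co
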