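import Pool.Agent.Lib.MP_70d11c_co.Small2

namespace Pool.Agent.Lib.MP_70d11c_co

lemma pot16_ok : (pot16.stepAll && pot16.rootOK) = true := by decide +kernel

lemma pot17_ok : (pot17.stepAll && pot17.rootOK) = true := by decide +kernel

lemma pot18_ok : (pot18.stepAll && pot18.rootOK) = true := by decide +kernel

lemma pot19_ok : (pot19.stepAll && pot19.rootOK) = true := by decide +kernel

end Pool.Agent.Lib.MP_70d11c_co
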