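import Pool.Agent.Lib.MP_70d11c_co.Small2

namespace Pool.Agent.Lib.MP_70d11c_co

lemma pot20_ok : (pot20.stepAll && pot20.rootOK) = true := by decide +kernel

lemma pot21_ok : (pot21.stepAll && pot21.rootOK) = true := by decide +kernel

lemma pot22_ok : (pot22.stepAll && pot22.rootOK) = true := by decide +kernel

end Pool.Agent.Lib.MP_70d11c_co
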