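import Mathlib
import Pool.Agent.Lib.MP_70d11c_co.Defs

-- part Pool.Agent.Lib.MP_70d11c_co.Perm
section

namespace Pool.Agent.Lib.MP_70d11c_co

open Finset

variable {V : Type} [Fintype V] [DecidableEq V]

lemma prod_split (h : V → ℚ) {u w : V} (huw : u ≠ w) :
    ∏ i, h i = h u * h w * ∏ i ∈ (univ.erase u).erase w, h i := by
  rw [← Finset.mul_prod_erase univ h (mem_univ u),
    ← Finset.mul_prod_erase (univ.erase u) h (show w ∈ univ.erase u by simp [huw.symm]), mul_assoc]

/-- Eliminating a pendant vertex from a permanent. -/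
lemma perm_leaf (M M' : Matrix V V ℚ) {u w : V} (huw : u ≠ w) (c : ℚ)
    (hrow : ∀ x, x ≠ u → x ≠ w → M u x = 0) (hcol : ∀ x, x ≠ u → x ≠ w → M x u = 0)
    (h2 : M' w u = 0) (h3 : M' w w = M w w + c)
    (hc : c * M u u = M u w * M w u)
    (h4 : ∀ x y, ¬ (x = u ∧ y = w) → ¬ (x = w ∧ y = u) → ¬ (x = w ∧ y = w) → M' x y = M x y) :
    M.permanent = M'.permanent := by
  let g : Equiv.Perm V → ℚ := fun σ =>
    if σ u = u ∧ σ w = w then (M u w * M w u) * ∏ i ∈ (univ.erase u).erase w, M (σ i) i else 0
  let f : Equiv.Perm V → ℚ := fun σ => if σ u = u then ∏ i, M (σ i) i else 0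
  have hoth : ∀ σ : Equiv.Perm V, ∏ i ∈ (univ.erase u).erase w, M' (σ i) i
      = ∏ i ∈ (univ.erase u).erase w, M (σ i) i := by
    intro σ
    refine Finset.prod_congr rfl fun i hi => ?_
    simp only [mem_erase, mem_univ, and_true] at hi
    exact h4 _ _ (fun h => hi.1 h.2) (fun h => hi.2 h.2) (fun h => hi.1 h.2)
  have c1 : ∀ σ : Equiv.Perm V, ∏ i, M' (σ i) i = f σ + g σ := by
    intro σ
    rw [prod_split _ huw, hoth]
    by_cases hu : σ u = u
    · have huu : M' u u = M u u := h4 _ _ (fun h => huw h.2) (fun h => huw h.1) (fun h => huw h.1)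
      by_cases hw : σ w = w
      · simp only [f, g, hu, hw, and_self, if_true]
        rw [prod_split _ huw, hu, hw, huu, h3, ← hc]; ring
      · have hwu : σ w ≠ u := fun h => huw (σ.injective (hu.trans h.symm))
        simp only [f, g, hu, hw, and_false, if_true, if_false]
        rw [prod_split _ huw, hu, huu, h4 _ _ (fun h => hwu h.1) (fun h => huw h.2.symm)
          (fun h => hw h.1)]
        ring
    · simp only [f, g, hu, false_and, if_false]
      by_cases hw : σ u = w
      · rw [hw, h2]; ring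
      · rw [h4 _ _ (fun h => hu h.1) (fun h => hw h.1) (fun h => hw h.1), hcol _ hu hw]; ring
  have c2 : ∀ σ : Equiv.Perm V, ∏ i, M (σ i) i = f σ + g (σ * Equiv.swap u w) := by
    intro σ
    have e1 : (σ * Equiv.swap u w) u = σ w := by simp
    have e2 : (σ * Equiv.swap u w) w = σ u := by simp
    by_cases hu : σ u = u
    · have : ¬ (σ w = u ∧ σ u = w) := fun h => huw (hu.symm.trans h.2)
      simp only [f, g, e1, e2, hu, if_true]
      rw [if_neg (fun h => huw h.2)]; ring
    · simp only [f, g, e1, e2, hu, if_false]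
      by_cases hw : σ w = u ∧ σ u = w
      · rw [if_pos hw, prod_split _ huw, hw.1, hw.2]
        have : ∏ i ∈ (univ.erase u).erase w, M ((σ * Equiv.swap u w) i) i
            = ∏ i ∈ (univ.erase u).erase w, M (σ i) i := by
          refine Finset.prod_congr rfl fun i hi => ?_
          simp only [mem_erase, mem_univ, and_true] at hi
          rw [Equiv.Perm.mul_apply, Equiv.swap_apply_of_ne_of_ne hi.2 hi.1]
        rw [this]; ring
      · rw [if_neg hw, add_zero]
        by_cases hw' : σ u = w
        · have hwu : σ w ≠ u := fun h => hw ⟨h, hw'⟩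
          refine Finset.prod_eq_zero (mem_univ (σ.symm u)) ?_
          rw [Equiv.apply_symm_apply]
          refine hrow _ ?_ ?_
          · intro h; apply hu; conv_lhs => rw [← h]
            simp
          · intro h; apply hwu; rw [← h]; simp
        · exact Finset.prod_eq_zero (mem_univ u) (hcol _ hu hw')
  unfold Matrix.permanent
  simp only [c1, c2, Finset.sum_add_distrib]
  congr 1
  exact Equiv.sum_comp (Equiv.mulRight (Equiv.swap u w)) g

end Pool.Agent.Lib.MP_70d11c_co
end

-- part Pool.Agent.Lib.MP_70d11c_co.RT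
section

namespace Pool.Agent.Lib.MP_70d11c_co

open Finset

/-- A rooted tree given by its parent function. -/
structure RT (V : Type) where
  r : V
  par : V → V
  dep : V → ℕ
  dep_par : ∀ v, v ≠ r → dep (par v) + 1 = dep v
  dep_r : dep r = 0

namespace RT

variable {V : Type} (T : RT V)

def G : SimpleGraph V where
  Adj u v := (u ≠ T.r ∧ T.par u = v) ∨ (v ≠ T.r ∧ T.par v = u)
  symm := ⟨fun _ _ h => h.symm⟩
  loopless := ⟨fun v h => by
    have : v ≠ T.r ∧ T.par v = v := by rcases h with h | h <;> exact h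
    have h2 := T.dep_par v this.1
    rw [this.2] at h2; omega⟩

lemma adj_iff (u v : V) :
    T.G.Adj u v ↔ (u ≠ T.r ∧ T.par u = v) ∨ (v ≠ T.r ∧ T.par v = u) := Iff.rfl

lemma adj_par {v : V} (h : v ≠ T.r) : T.G.Adj v (T.par v) := Or.inl ⟨h, rfl⟩

lemma eq_r_of_dep {v : V} (h : T.dep v = 0) : v = T.r := by
  by_contra hv
  have := T.dep_par v hv
  omega

/-- walking up inside a set closed under the parent map -/
lemma edist_up (A : V → Prop) (c : V) (g : V → ℕ)
    (h : ∀ v, A v → v = c ∨ (v ≠ T.r ∧ A (T.par v) ∧ g (T.par v) < g v)) :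
    ∀ (k : ℕ) (v : V), A v → g v ≤ k → T.G.edist v c ≤ k := by
  intro k
  induction k with
  | zero =>
    intro v hv hg
    rcases h v hv with rfl | ⟨_, _, h3⟩
    · simp
    · omega
  | succ k ih =>
    intro v hv hg
    rcases h v hv with rfl | ⟨h1, h2, h3⟩
    · simp
    · have e1 : T.G.edist v (T.par v) = 1 := SimpleGraph.edist_eq_one_iff_adj.2 (T.adj_par h1)
      have e2 := ih (T.par v) h2 (by omega)
      calc T.G.edist v c ≤ T.G.edist v (T.par v) + T.G.edist (T.par v) c :=
            SimpleGraph.edist_triangle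
        _ ≤ 1 + (k : ℕ∞) := by rw [e1]; gcongr
        _ = ((k + 1 : ℕ) : ℕ∞) := by push_cast; ring

lemma edist_r (v : V) : T.G.edist v T.r ≤ T.dep v := by
  refine T.edist_up (fun _ => True) T.r T.dep ?_ _ v trivial le_rfl
  intro v _
  by_cases hv : v = T.r
  · exact Or.inl hv
  · have := T.dep_par v hv
    exact Or.inr ⟨hv, trivial, by omega⟩

lemma connected : T.G.Connected := by
  have : Nonempty V := ⟨T.r⟩
  have h : ∀ v, T.G.Reachable v T.r := fun v =>
    SimpleGraph.reachable_of_edist_ne_top (ne_top_of_le_ne_top (by simp) (T.edist_r v))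
  exact ⟨fun u v => (h u).trans (h v).symm⟩

variable [Fintype V] [DecidableEq V]

def ch (v : V) : Finset V := univ.filter fun c => c ≠ T.r ∧ T.par c = v

lemma mem_ch {v c : V} : c ∈ T.ch v ↔ c ≠ T.r ∧ T.par c = v := by simp [ch]

lemma dep_ch {v c : V} (h : c ∈ T.ch v) : T.dep c = T.dep v + 1 := by
  rw [mem_ch] at h
  have := T.dep_par c h.1
  rw [h.2] at this; omega

lemma isTree : T.G.IsTree := by
  classical
  rw [SimpleGraph.isTree_iff_connected_and_card]
  refine ⟨T.connected, le_antisymm ?_ T.connected.card_vert_le_card_edgeSet_add_one⟩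
  have h1 : Nat.card T.G.edgeSet ≤ (univ.erase T.r).card := by
    rw [Nat.card_eq_fintype_card, ← SimpleGraph.edgeFinset_card]
    refine le_trans (Finset.card_le_card ?_)
      (Finset.card_image_le (s := univ.erase T.r) (f := fun v => s(v, T.par v)))
    intro e he
    induction e using Sym2.ind with
    | h u v =>
      rw [SimpleGraph.mem_edgeFinset, SimpleGraph.mem_edgeSet, adj_iff] at he
      rw [Finset.mem_image]
      rcases he with ⟨h1, h2⟩ | ⟨h1, h2⟩
      · exact ⟨u, by simp [h1], by rw [h2]⟩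
      · exact ⟨v, by simp [h1], by rw [h2, Sym2.eq_swap]⟩
  rw [Finset.card_erase_of_mem (mem_univ _), card_univ] at h1
  have : 0 < Fintype.card V := Fintype.card_pos_iff.2 ⟨T.r⟩
  rw [Nat.card_eq_fintype_card (α := V)]
  omega

lemma degree_eq [DecidableRel T.G.Adj] (v : V) :
    T.G.degree v = (T.ch v).card + if v = T.r then 0 else 1 := by
  rw [← SimpleGraph.card_neighborFinset_eq_degree]
  by_cases hv : v = T.r
  · rw [if_pos hv, add_zero]
    congr 1
    ext c
    rw [SimpleGraph.mem_neighborFinset, adj_iff, mem_ch]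
    simp [hv]
  · rw [if_neg hv]
    have hn : T.par v ∉ T.ch v := by
      intro h
      have h1 := T.dep_ch h
      have h2 := T.dep_par v hv
      omega
    rw [← Finset.card_insert_of_notMem hn]
    congr 1
    ext c
    rw [SimpleGraph.mem_neighborFinset, adj_iff, mem_insert, mem_ch]
    simp [hv, eq_comm]

/-- the partially eliminated matrix -/
def mat [DecidableRel T.G.Adj] (a q : V → ℚ) (S : Finset V) : Matrix V V ℚ := fun u v =>
  if u = v then a u + ∑ c ∈ T.ch u \ S, 1 / q c
  else if u ∈ S ∧ v ∈ S ∧ T.G.Adj u v then -1 else 0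

lemma perm_mat [DecidableRel T.G.Adj] (a q : V → ℚ) (hq0 : ∀ v, v ≠ T.r → q v ≠ 0)
    (hq : ∀ v, q v = a v + ∑ c ∈ T.ch v, 1 / q c) :
    ∀ (n : ℕ) (S : Finset V), S.card = n → (∀ v ∈ S, v ≠ T.r → T.par v ∈ S) →
      (T.mat a q S).permanent = ∏ v, q v := by
  intro n
  induction n using Nat.strong_induction_on with
  | _ n ih =>
    intro S hS hcl
    by_cases hne : (S.erase T.r).Nonempty
    · obtain ⟨u, hu, hmax⟩ := Finset.exists_max_image (S.erase T.r) T.dep hne
      rw [mem_erase] at hu
      have hchS : ∀ c ∈ T.ch u, c ∉ S := by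
        intro c hc hcS
        have h1 := T.dep_ch hc
        have h2 := hmax c (mem_erase.2 ⟨(T.mem_ch.1 hc).1, hcS⟩)
        omega
      have huw : u ≠ T.par u := (T.adj_par hu.1).ne
      have hwS : T.par u ∈ S := hcl u hu.2 hu.1
      have hadj : ∀ x, x ∈ S → T.G.Adj u x → x = T.par u := by
        intro x hx h
        rcases h with h | h
        · exact h.2.symm
        · exact absurd hx (hchS x (T.mem_ch.2 h))
      have huu : T.mat a q S u u = q u := by
        simp only [mat, if_true]
        rw [hq u, Finset.sdiff_eq_self_of_disjoint (Finset.disjoint_left.2 hchS)]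
      rw [perm_leaf (T.mat a q S) (T.mat a q (S.erase u)) huw (1 / q u)]
      · refine ih (S.erase u).card ?_ _ rfl ?_
        · rw [← hS]; exact Finset.card_erase_lt_of_mem hu.2
        · intro v hv hvr
          rw [mem_erase] at hv ⊢
          refine ⟨?_, hcl v hv.2 hvr⟩
          intro h
          exact hchS v (T.mem_ch.2 ⟨hvr, h⟩) hv.2
      · intro x hxu hxw
        simp only [mat, if_neg (Ne.symm hxu)]
        rw [if_neg]
        rintro ⟨_, h2, h3⟩
        exact hxw (hadj x h2 h3)
      · intro x hxu hxw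
        simp only [mat, if_neg hxu]
        rw [if_neg]
        rintro ⟨h2, _, h3⟩
        exact hxw (hadj x h2 h3.symm)
      · simp [mat, huw.symm]
      · simp only [mat, if_true]
        have : T.ch (T.par u) \ S.erase u = insert u (T.ch (T.par u) \ S) := by
          ext c
          simp only [mem_sdiff, mem_erase, mem_insert, mem_ch]
          constructor
          · rintro ⟨h1, h2⟩
            by_cases hc : c = u
            · exact Or.inl hc
            · exact Or.inr ⟨h1, fun h => h2 ⟨hc, h⟩⟩
          · rintro (rfl | ⟨h1, h2⟩)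
            · exact ⟨⟨hu.1, rfl⟩, fun h => h.1 rfl⟩
            · exact ⟨h1, fun h => h2 h.2⟩
        rw [this, Finset.sum_insert (by simp [hu.2])]
        ring
      · rw [huu]
        have e1 : T.mat a q S u (T.par u) = -1 := by
          simp only [mat, if_neg huw]
          rw [if_pos ⟨hu.2, hwS, T.adj_par hu.1⟩]
        have e2 : T.mat a q S (T.par u) u = -1 := by
          simp only [mat, if_neg huw.symm]
          rw [if_pos ⟨hwS, hu.2, (T.adj_par hu.1).symm⟩]
        rw [e1, e2]
        field_simp [hq0 u hu.1]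
      · intro x y h1 h2 h3
        by_cases hxy : x = y
        · subst hxy
          have hx : x ≠ T.par u := fun h => h3 ⟨h, h⟩
          simp only [mat, if_true]
          congr 2
          ext c
          simp only [mem_sdiff, mem_erase, mem_ch]
          constructor
          · rintro ⟨k1, k2⟩
            refine ⟨k1, fun h => k2 ⟨?_, h⟩⟩
            rintro rfl
            exact hx k1.2.symm
          · rintro ⟨k1, k2⟩
            exact ⟨k1, fun h => k2 h.2⟩
        · simp only [mat, if_neg hxy, mem_erase]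
          congr 1
          apply propext
          constructor
          · rintro ⟨k1, k2, k3⟩
            exact ⟨k1.2, k2.2, k3⟩
          · rintro ⟨k1, k2, k3⟩
            refine ⟨⟨?_, k1⟩, ⟨?_, k2⟩, k3⟩
            · rintro rfl
              exact h1 ⟨rfl, hadj y k2 k3⟩
            · rintro rfl
              exact h2 ⟨hadj x k1 k3.symm, rfl⟩
    · have hS' : ∀ v ∈ S, v = T.r := by
        intro v hv
        by_contra h
        exact hne ⟨v, mem_erase.2 ⟨h, hv⟩⟩
      have : T.mat a q S = Matrix.diagonal q := by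
        ext u v
        by_cases huv : u = v
        · subst huv
          simp only [mat, if_true, Matrix.diagonal_apply_eq]
          rw [hq u, Finset.sdiff_eq_self_of_disjoint]
          exact Finset.disjoint_left.2 fun c hc hcS => (T.mem_ch.1 hc).1 (hS' c hcS)
        · simp only [mat, if_neg huv, Matrix.diagonal_apply_ne _ huv]
          rw [if_neg]
          rintro ⟨h1, h2, _⟩
          exact huv ((hS' u h1).trans (hS' v h2).symm)
      rw [this, Matrix.permanent_diagonal]

lemma perm_lap [DecidableRel T.G.Adj] (q : V → ℚ) (hq0 : ∀ v, v ≠ T.r → q v ≠ 0)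
    (hq : ∀ v, q v = T.G.degree v + ∑ c ∈ T.ch v, 1 / q c) :
    (T.G.lapMatrix ℚ).permanent = ∏ v, q v := by
  rw [← T.perm_mat (fun v => T.G.degree v) q hq0 hq _ univ rfl (by simp)]
  congr 1
  ext u v
  by_cases huv : u = v
  · subst huv
    simp [mat, SimpleGraph.lapMatrix, SimpleGraph.degMatrix, Finset.sdiff_eq_empty_iff_subset.2 (Finset.subset_univ _)]
  · simp only [mat, if_neg huv, SimpleGraph.lapMatrix, SimpleGraph.degMatrix, Matrix.sub_apply,
      Matrix.diagonal_apply_ne _ huv, SimpleGraph.adjMatrix_apply, mem_univ, true_and]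
    split_ifs <;> simp

lemma prod_rec_aux {M : Type} [CommMonoid M] (F g : V → M)
    (h : ∀ v, F v = g v * ∏ c ∈ T.ch v, F c) :
    F T.r * ∏ c ∈ univ.erase T.r, F c = (∏ v, g v) * ∏ c ∈ univ.erase T.r, F c := by
  have h1 : ∏ v, F v = (∏ v, g v) * ∏ v, ∏ c ∈ T.ch v, F c := by
    rw [← Finset.prod_mul_distrib]; exact Finset.prod_congr rfl fun v _ => h v
  have h2 : ∏ v, ∏ c ∈ T.ch v, F c = ∏ c ∈ univ.erase T.r, F c := by
    rw [← Finset.prod_fiberwise_of_maps_to (s := univ.erase T.r) (t := univ) (g := T.par)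
      (fun _ _ => mem_univ _)]
    refine Finset.prod_congr rfl fun v _ => Finset.prod_congr ?_ fun _ _ => rfl
    ext c; simp [mem_ch]
  rw [h2, ← Finset.mul_prod_erase univ F (mem_univ T.r)] at h1
  exact h1

lemma prod_rec (F g : V → ℚ) (h0 : ∀ v, v ≠ T.r → F v ≠ 0)
    (h : ∀ v, F v = g v * ∏ c ∈ T.ch v, F c) : F T.r = ∏ v, g v :=
  mul_right_cancel₀ (Finset.prod_ne_zero_iff.2 fun v hv => h0 v (mem_erase.1 hv).1)
    (T.prod_rec_aux F g h)

lemma card_rec (F : V → ℕ) (h : ∀ v, F v = 1 + ∑ c ∈ T.ch v, F c) : F T.r = Fintype.card V := by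
  have := T.prod_rec_aux (M := Multiplicative ℕ) (fun v => Multiplicative.ofAdd (F v))
    (fun _ => Multiplicative.ofAdd 1) (fun v => by rw [h v, ofAdd_add, ofAdd_sum])
  have h2 := mul_right_cancel this
  rw [← ofAdd_sum] at h2
  simpa using h2

end RT

/-- every tree is a rooted tree, rooted anywhere, with depth the distance from the root -/
lemma exists_RT {V : Type} [Fintype V] [DecidableEq V] (G : SimpleGraph V) (hG : G.IsTree) (r : V) :
    ∃ T : RT V, T.r = r ∧ T.G = G ∧ ∀ v, T.dep v = G.dist r v := by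
  classical
  have hp : ∀ v, ∃ w, v ≠ r → G.Adj v w ∧ G.dist r w + 1 = G.dist r v := by
    intro v
    by_cases hv : v = r
    · exact ⟨v, fun h => absurd hv h⟩
    · obtain ⟨p, hp⟩ := hG.connected.exists_walk_length_eq_dist v r
      cases p with
      | nil => exact absurd rfl hv
      | cons h p =>
        rename_i w
        refine ⟨w, fun _ => ⟨h, ?_⟩⟩
        have h1 : G.dist w r ≤ p.length := SimpleGraph.dist_le p
        rw [SimpleGraph.Walk.length_cons] at hp
        have h2 := hG.dist_eq_dist_add_one_of_adj r h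
        rw [SimpleGraph.dist_comm (u := r) (v := v), SimpleGraph.dist_comm (u := r) (v := w)] at h2 ⊢
        omega
  choose par hpar using hp
  let T : RT V := ⟨r, par, fun v => G.dist r v, fun v hv => (hpar v hv).2, by simp⟩
  refine ⟨T, rfl, ?_, fun _ => rfl⟩
  have hle : T.G ≤ G := by
    intro u v h
    rcases h with h | h
    · rw [← h.2]; exact (hpar u h.1).1
    · rw [← h.2]; exact (hpar v h.1).1.symm
  have hmin := SimpleGraph.isTree_iff_minimal_connected.1 hG
  exact le_antisymm hle (hmin.2 T.connected hle)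

end Pool.Agent.Lib.MP_70d11c_co
end

-- part Pool.Agent.Lib.MP_70d11c_co.Data
section

namespace Pool.Agent.Lib.MP_70d11c_co

open Finset

/-- data of a branch: size, weight and message -/
@[ext] structure X where
  s : ℕ
  Z : ℚ
  p : ℚ

def sz (l : Multiset X) : ℕ := (l.map X.s).sum
def PP (l : Multiset X) : ℚ := (l.map X.Z).prod
def SS (l : Multiset X) : ℚ := (l.map X.p).sum

@[simp] lemma sz_zero : sz 0 = 0 := rfl
@[simp] lemma PP_zero : PP 0 = 1 := by simp [PP]
@[simp] lemma SS_zero : SS 0 = 0 := by simp [SS]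
@[simp] lemma sz_cons (x : X) (l : Multiset X) : sz (x ::ₘ l) = x.s + sz l := by simp [sz]
@[simp] lemma PP_cons (x : X) (l : Multiset X) : PP (x ::ₘ l) = x.Z * PP l := by simp [PP]
@[simp] lemma SS_cons (x : X) (l : Multiset X) : SS (x ::ₘ l) = x.p + SS l := by simp [SS]
@[simp] lemma sz_add (l l' : Multiset X) : sz (l + l') = sz l + sz l' := by simp [sz]
@[simp] lemma PP_add (l l' : Multiset X) : PP (l + l') = PP l * PP l' := by simp [PP]
@[simp] lemma SS_add (l l' : Multiset X) : SS (l + l') = SS l + SS l' := by simp [SS]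
@[simp] lemma sz_replicate (n : ℕ) (x : X) : sz (Multiset.replicate n x) = n * x.s := by simp [sz]
@[simp] lemma PP_replicate (n : ℕ) (x : X) : PP (Multiset.replicate n x) = x.Z ^ n := by simp [PP]
@[simp] lemma SS_replicate (n : ℕ) (x : X) : SS (Multiset.replicate n x) = n * x.p := by simp [SS]

def node (l : Multiset X) : X :=
  ⟨1 + sz l, PP l * (1 + SS l / (l.card + 1)), 1 / (l.card + 1 + SS l)⟩

def root (l : Multiset X) : ℚ := PP l * (1 + SS l / l.card)

/-- branches of height `< h` all of whose degrees are at most `D` -/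
def Br (D : ℕ) : ℕ → X → Prop
  | 0, _ => False
  | h + 1, x => ∃ l : Multiset X, l.card < D ∧ (∀ y ∈ l, Br D h y) ∧ x = node l

def Pos (x : X) : Prop := 1 ≤ x.s ∧ 1 ≤ x.Z ∧ 0 < x.p ∧ x.p ≤ 1

lemma PP_ge {l : Multiset X} (h : ∀ y ∈ l, Pos y) : 1 ≤ PP l := by
  induction l using Multiset.induction_on with
  | empty => simp
  | cons a l ih =>
    rw [PP_cons]
    have h1 := (h a (Multiset.mem_cons_self _ _)).2.1
    have h2 := ih fun y hy => h y (Multiset.mem_cons_of_mem hy)
    nlinarith

lemma SS_nonneg {l : Multiset X} (h : ∀ y ∈ l, Pos y) : 0 ≤ SS l := by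
  induction l using Multiset.induction_on with
  | empty => simp
  | cons a l ih =>
    rw [SS_cons]
    have h1 := (h a (Multiset.mem_cons_self _ _)).2.2.1
    have h2 := ih fun y hy => h y (Multiset.mem_cons_of_mem hy)
    linarith

lemma SS_le {l : Multiset X} (h : ∀ y ∈ l, Pos y) : SS l ≤ l.card := by
  induction l using Multiset.induction_on with
  | empty => simp
  | cons a l ih =>
    rw [SS_cons, Multiset.card_cons]
    have h1 := (h a (Multiset.mem_cons_self _ _)).2.2.2
    have h2 := ih fun y hy => h y (Multiset.mem_cons_of_mem hy)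
    push_cast
    linarith

lemma card_le_sz {l : Multiset X} (h : ∀ y ∈ l, Pos y) : l.card ≤ sz l := by
  induction l using Multiset.induction_on with
  | empty => simp
  | cons a l ih =>
    rw [sz_cons, Multiset.card_cons]
    have h1 := (h a (Multiset.mem_cons_self _ _)).1
    have h2 := ih fun y hy => h y (Multiset.mem_cons_of_mem hy)
    omega

lemma pos_node {l : Multiset X} (h : ∀ y ∈ l, Pos y) : Pos (node l) := by
  have h1 := PP_ge h
  have h2 := SS_nonneg h
  have h3 : (0 : ℚ) ≤ l.card := by positivity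
  refine ⟨by simp [node], ?_, ?_, ?_⟩
  · have : 0 ≤ SS l / (l.card + 1) := by positivity
    simp only [node]; nlinarith
  · simp only [node]; positivity
  · simp only [node]; rw [div_le_one (by positivity)]; linarith

lemma Br.pos {D : ℕ} : ∀ {h : ℕ} {x : X}, Br D h x → Pos x
  | 0, _, hx => hx.elim
  | _ + 1, _, ⟨_, _, h2, h3⟩ => h3 ▸ pos_node fun y hy => Br.pos (h2 y hy)

lemma Br.succ {D : ℕ} : ∀ {h : ℕ} {x : X}, Br D h x → Br D (h + 1) x
  | 0, _, hx => hx.elim
  | _ + 1, _, ⟨l, h1, h2, h3⟩ => ⟨l, h1, fun y hy => Br.succ (h2 y hy), h3⟩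

lemma Br.mono {D h h' : ℕ} {x : X} (hx : Br D h x) (hh : h ≤ h') : Br D h' x := by
  induction hh with
  | refl => exact hx
  | step _ ih => exact ih.succ

/-- induction over branches -/
lemma Br.ind {D : ℕ} (P : X → Prop)
    (hP : ∀ l : Multiset X, l.card < D → (∀ y ∈ l, Pos y) → (∀ y ∈ l, P y) → P (node l)) :
    ∀ {h : ℕ} {x : X}, Br D h x → P x
  | 0, _, hx => hx.elim
  | _ + 1, _, ⟨l, h1, h2, h3⟩ =>
    h3 ▸ hP l h1 (fun y hy => (h2 y hy).pos) fun y hy => Br.ind P hP (h2 y hy)

namespace RT

variable {V : Type} [Fintype V] [DecidableEq V] (T : RT V)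

lemma ind (P : V → Prop) (h : ∀ v, (∀ c ∈ T.ch v, P c) → P v) (v : V) : P v := by
  have key : ∀ k v, univ.sup T.dep - T.dep v = k → P v := by
    intro k
    induction k using Nat.strong_induction_on with
    | _ k ih =>
      intro v hv
      refine h v fun c hc => ih _ ?_ c rfl
      have h1 := T.dep_ch hc
      have h2 : T.dep c ≤ univ.sup T.dep := Finset.le_sup (f := T.dep) (mem_univ c)
      omega
  exact key _ v rfl

def xf : ℕ → V → X
  | 0, _ => node 0
  | k + 1, v => node ((T.ch v).val.map (xf k))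

lemma xf_stable (H : ℕ) (hH : ∀ v, T.dep v ≤ H) :
    ∀ k v, H ≤ k + T.dep v → T.xf (k + 1) v = T.xf k v := by
  intro k
  induction k with
  | zero =>
    intro v hv
    have : T.ch v = ∅ := by
      rw [Finset.eq_empty_iff_forall_notMem]
      intro c hc
      have h1 := T.dep_ch hc
      have h2 := hH c
      omega
    simp [xf, this]
  | succ k ih =>
    intro v hv
    rw [xf, xf]
    congr 1
    refine Multiset.map_congr rfl fun c hc => ih c ?_
    have := T.dep_ch hc
    omega

lemma exists_data : ∃ x : V → X, ∀ v, x v = node ((T.ch v).val.map x) := by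
  refine ⟨T.xf (univ.sup T.dep), fun v => ?_⟩
  rw [← T.xf_stable (univ.sup T.dep) (fun v => Finset.le_sup (f := T.dep) (mem_univ v)) _ v
    (by omega), xf]

variable (x : V → X) (hx : ∀ v, x v = node ((T.ch v).val.map x))
include hx

lemma data_pos (v : V) : Pos (x v) := by
  refine T.ind (fun v => Pos (x v)) (fun v h => ?_) v
  rw [hx v]
  refine pos_node fun y hy => ?_
  obtain ⟨c, hc, rfl⟩ := Multiset.mem_map.1 hy
  exact h c hc

lemma data_card : Fintype.card V = 1 + sz ((T.ch T.r).val.map x) := by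
  rw [← T.card_rec (fun v => (x v).s), hx]; · rfl
  intro v
  conv_lhs => rw [hx v]
  simp [node, sz, Multiset.map_map]

lemma data_ratio (hr : (T.ch T.r).Nonempty) :
    lapRatio T.G = root ((T.ch T.r).val.map x) := by
  classical
  have hS : ∀ v, SS ((T.ch v).val.map x) = ∑ c ∈ T.ch v, (x c).p := fun v => by
    simp [SS, Multiset.map_map]
  have hP : ∀ v, PP ((T.ch v).val.map x) = ∏ c ∈ T.ch v, (x c).Z := fun v => by
    simp [PP, Multiset.map_map]
  have hdeg : ∀ v, (0 : ℚ) < T.G.degree v := by
    intro v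
    rw [T.degree_eq, Nat.cast_pos]
    have := hr.card_pos
    by_cases hv : v = T.r
    · rw [hv]; omega
    · rw [if_neg hv]; omega
  let q : V → ℚ := fun v => T.G.degree v + ∑ c ∈ T.ch v, (x c).p
  have hq : ∀ v, v ≠ T.r → (x v).p = 1 / q v := by
    intro v hv
    conv_lhs => rw [hx v]
    simp only [node, q, hS, T.degree_eq, hv, if_false, Multiset.card_map, Finset.card_val]
    push_cast; ring
  have hq0 : ∀ v, v ≠ T.r → q v ≠ 0 := by
    intro v hv h
    have := (T.data_pos x hx v).2.2.1
    rw [hq v hv, h] at this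
    simp at this
  have hper := T.perm_lap q hq0 (fun v => by
    simp only [q]
    congr 1
    exact Finset.sum_congr rfl fun c hc => hq c (T.mem_ch.1 hc).1)
  let F : V → ℚ := fun v => if v = T.r then root ((T.ch T.r).val.map x) else (x v).Z
  have hF := T.prod_rec F (fun v => q v / T.G.degree v)
    (fun v hv => by
      have := (T.data_pos x hx v).2.1
      simp only [F, hv, if_false]; linarith)
    (fun v => by
      have e : ∏ c ∈ T.ch v, F c = ∏ c ∈ T.ch v, (x c).Z :=
        Finset.prod_congr rfl fun c hc => by simp [F, (T.mem_ch.1 hc).1]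
      rw [e]
      have hd := hdeg v
      by_cases hv : v = T.r
      · subst hv
        simp only [F, if_true, root, hS, hP, q, Multiset.card_map, Finset.card_val]
        rw [T.degree_eq, if_pos rfl, add_zero] at hd ⊢
        rw [add_div, div_self hd.ne', mul_comm]
      · simp only [F, hv, if_false]
        conv_lhs => rw [hx v]
        simp only [node, hS, hP, q, Multiset.card_map, Finset.card_val]
        rw [T.degree_eq, if_neg hv] at hd ⊢
        rw [add_div, div_self hd.ne', mul_comm, Nat.cast_add, Nat.cast_one])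
  simp only [F, if_true] at hF
  rw [hF, Finset.prod_div_distrib, ← hper]
  unfold lapRatio
  congr!

lemma data_Br (D : ℕ) (A : V → Prop) (g : V → ℕ) (hD : ∀ v, A v → (T.ch v).card < D)
    (hA : ∀ v, A v → ∀ c ∈ T.ch v, A c ∧ g c < g v) (v : V) : A v → Br D (g v + 1) (x v) := by
  refine T.ind (fun v => A v → Br D (g v + 1) (x v)) (fun v h hv => ?_) v
  refine ⟨_, by simpa using hD v hv, fun y hy => ?_, hx v⟩
  obtain ⟨c, hc, rfl⟩ := Multiset.mem_map.1 hy
  exact (h c hc (hA v hv c hc).1).mono (hA v hv c hc).2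

end RT

end Pool.Agent.Lib.MP_70d11c_co
end

-- part Pool.Agent.Lib.MP_70d11c_co.Types
section

namespace Pool.Agent.Lib.MP_70d11c_co

def Lx : X := ⟨1, 1, 1⟩
def Px : X := ⟨2, 3 / 2, 1 / 3⟩
def hub (a : ℕ) : X := ⟨2 * a + 1, hubZ a, hubp a⟩
def star (a : ℕ) : X := ⟨a + 1, (2 * a + 1) / (a + 1), 1 / (2 * a + 1)⟩

lemma node_zero : node 0 = Lx := by simp [node, Lx]

lemma node_rep_L (a : ℕ) : node (Multiset.replicate a Lx) = star a := by
  ext
  · simp [node, star, Lx, add_comm]
  · simp only [node, star, Lx, PP_replicate, SS_replicate, Multiset.card_replicate]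
    field_simp; ring
  · simp only [node, star, Lx, SS_replicate, Multiset.card_replicate]
    congr 1; ring

lemma node_rep_P (a : ℕ) : node (Multiset.replicate a Px) = hub a := by
  ext
  · simp [node, hub, Px]; ring
  · simp only [node, hub, Px, PP_replicate, SS_replicate, Multiset.card_replicate, hubZ]
    field_simp; ring
  · simp only [node, hub, Px, SS_replicate, Multiset.card_replicate, hubp]
    field_simp; ring

lemma star_zero : star 0 = Lx := by simp [star, Lx]
lemma star_one : star 1 = Px := by ext <;> norm_num [star, Px]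
lemma hub_zero : hub 0 = Lx := by ext <;> norm_num [hub, Lx, hubZ, hubp]
lemma node_L : node {Lx} = Px := by rw [← star_one, ← node_rep_L]; rfl

lemma Br_L {D : ℕ} (hD : 1 ≤ D) : Br D 1 Lx := ⟨0, hD, by simp, node_zero.symm⟩

lemma Br_star {D a : ℕ} (hD : a < D) : Br D 2 (star a) :=
  ⟨Multiset.replicate a Lx, by simpa using hD, fun y hy => by
    rw [Multiset.eq_of_mem_replicate hy]; exact Br_L (by omega), (node_rep_L a).symm⟩

lemma Br_P {D : ℕ} (hD : 2 ≤ D) : Br D 2 Px := star_one ▸ Br_star hD

lemma Br_hub {D a : ℕ} (hD : a < D) (hD2 : 2 ≤ D) : Br D 3 (hub a) :=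
  ⟨Multiset.replicate a Px, by simpa using hD, fun y hy => by
    rw [Multiset.eq_of_mem_replicate hy]; exact Br_P hD2, (node_rep_P a).symm⟩

lemma Br_one {D : ℕ} {x : X} (h : Br D 1 x) : x = Lx := by
  obtain ⟨l, -, h2, rfl⟩ := h
  have : l = 0 := Multiset.eq_zero_of_forall_notMem fun y hy => (h2 y hy).elim
  rw [this, node_zero]

lemma Br_two {D : ℕ} {x : X} (h : Br D 2 x) : ∃ a, x = star a := by
  obtain ⟨l, -, h2, rfl⟩ := h
  refine ⟨l.card, ?_⟩
  rw [← node_rep_L]
  congr 1
  exact Multiset.eq_replicate.2 ⟨rfl, fun y hy => Br_one (h2 y hy)⟩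

lemma pos_L : Pos Lx := (Br_L le_rfl).pos
lemma pos_P : Pos Px := (Br_P le_rfl).pos
lemma pos_star (a : ℕ) : Pos (star a) := (Br_star (Nat.lt_succ_self a)).pos
lemma pos_hub (a : ℕ) : Pos (hub a) := (Br_hub (D := a + 2) (by omega) (by omega)).pos

lemma root_cons (x : X) {l : Multiset X} (h : ∀ y ∈ l, Pos y) :
    root (x ::ₘ l) = x.Z * (node l).Z * (1 + x.p * (node l).p) := by
  have := SS_nonneg h
  simp only [root, node, PP_cons, SS_cons, Multiset.card_cons]
  push_cast
  field_simp
  ring

lemma root_fam (j a x y : ℕ) :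
    root (Multiset.replicate j Px + Multiset.replicate x (hub a) +
      Multiset.replicate y (hub (a + 1))) = famv j a x y := by
  simp only [root, PP_add, SS_add, PP_replicate, SS_replicate, Multiset.card_add,
    Multiset.card_replicate, famv, Px, hub]
  push_cast
  ring

end Pool.Agent.Lib.MP_70d11c_co
end

-- part Pool.Agent.Lib.MP_70d11c_co.Small
section

namespace Pool.Agent.Lib.MP_70d11c_co

def Stars (l : Multiset X) : Prop := ∀ y ∈ l, ∃ a, y = star a

lemma Stars.pos {l : Multiset X} (h : Stars l) : ∀ y ∈ l, Pos y := fun y hy => by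
  obtain ⟨a, rfl⟩ := h y hy; exact pos_star a

lemma Stars.cons {l : Multiset X} (h : Stars l) (a : ℕ) : Stars (star a ::ₘ l) := fun y hy => by
  rcases Multiset.mem_cons.1 hy with rfl | hy
  · exact ⟨a, rfl⟩
  · exact h y hy

lemma star_big (a : ℕ) (ha : 3 ≤ a) : (star a).Z ^ 2 ≤ (3 / 2) ^ (a + 1) * (49 / 81) := by
  rcases ha.eq_or_lt with rfl | ha
  · norm_num [star]
  · obtain ⟨b, rfl⟩ := Nat.exists_eq_add_of_le (show 4 ≤ a from ha)
    have h1 : (star (4 + b)).Z ≤ 2 := by
      simp only [star]; rw [div_le_iff₀ (by positivity)]; linarith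
    have h0 : 0 ≤ (star (4 + b)).Z := by simp only [star]; positivity
    have h2 : (1 : ℚ) ≤ (3 / 2) ^ b := one_le_pow₀ (by norm_num)
    have : ((3 : ℚ) / 2) ^ (4 + b + 1) = (3 / 2) ^ b * (243 / 32) := by ring
    rw [this]
    nlinarith

lemma stars_summary {l : Multiset X} (h : Stars l) :
    ∃ e j c o : ℕ, l.card = e + j + c + o ∧
      PP l ^ 2 ≤ (3 / 2) ^ sz l * ((2 / 3) ^ e * (200 / 243) ^ c * (49 / 81) ^ o) ∧
      SS l ≤ e + j / 3 + c / 5 + o / 7 ∧
      (o = 0 → sz l = e + 2 * j + 3 * c ∧ PP l = (3 / 2) ^ j * (5 / 3) ^ c ∧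
        SS l = e + j / 3 + c / 5) ∧ (e = 0 → c = 0 → o = 0 → l = Multiset.replicate j Px) := by
  induction l using Multiset.induction_on with
  | empty => exact ⟨0, 0, 0, 0, by simp, by simp, by simp, by simp, by simp⟩
  | cons y l ih =>
    obtain ⟨e, j, c, o, h1, h2, h3, h4, h5⟩ := ih fun z hz => h z (Multiset.mem_cons_of_mem hz)
    obtain ⟨a, rfl⟩ := h y (Multiset.mem_cons_self _ _)
    simp only [Multiset.card_cons, PP_cons, SS_cons, sz_cons, mul_pow]
    rcases a with _ | _ | _ | a
    · refine ⟨e + 1, j, c, o, by omega, ?_, ?_, ?_, by simp⟩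
      · norm_num [star]; refine h2.trans (le_of_eq ?_); ring
      · norm_num [star]; linarith
      · intro ho
        obtain ⟨k1, k2, k3⟩ := h4 ho
        norm_num [star]
        exact ⟨by omega, k2, by linarith⟩
    · refine ⟨e, j + 1, c, o, by omega, ?_, ?_, ?_, ?_⟩
      · norm_num [star]
        refine (mul_le_mul_of_nonneg_left h2 (by norm_num)).trans (le_of_eq ?_); ring
      · norm_num [star]; linarith
      · intro ho
        obtain ⟨k1, k2, k3⟩ := h4 ho
        norm_num [star]
        exact ⟨by omega, by rw [k2]; ring, by linarith⟩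
      · intro k1 k2 k3
        rw [h5 k1 k2 k3, Multiset.replicate_succ, ← star_one]
    · refine ⟨e, j, c + 1, o, by omega, ?_, ?_, ?_, by simp⟩
      · norm_num [star]
        refine (mul_le_mul_of_nonneg_left h2 (by norm_num)).trans (le_of_eq ?_); ring
      · norm_num [star]; linarith
      · intro ho
        obtain ⟨k1, k2, k3⟩ := h4 ho
        norm_num [star]
        exact ⟨by omega, by rw [k2]; ring, by linarith⟩
    · refine ⟨e, j, c, o + 1, by omega, ?_, ?_, by simp, by simp⟩
      · have := star_big (a + 1 + 1 + 1) (by omega)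
        refine (mul_le_mul this h2 (by positivity) (by positivity)).trans (le_of_eq ?_)
        simp only [star]; ring
      · have : (star (a + 1 + 1 + 1)).p ≤ 1 / 7 := by
          simp only [star]
          apply one_div_le_one_div_of_le (by norm_num)
          push_cast
          have : (0 : ℚ) ≤ a := by positivity
          linarith
        push_cast
        linarith

lemma kap_le (e c o e' c' o' : ℕ) (h1 : e' ≤ e) (h2 : c' ≤ c) (h3 : o' ≤ o) :
    ((2 : ℚ) / 3) ^ e * (200 / 243) ^ c * (49 / 81) ^ o ≤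
      (2 / 3) ^ e' * (200 / 243) ^ c' * (49 / 81) ^ o' := by
  gcongr ?_ * ?_ * ?_ <;> exact pow_le_pow_of_le_one (by norm_num) (by norm_num) (by assumption)

/-- from a bound on squares -/
lemma sq_bound {P v E κ t : ℚ} (N κ' b : ℚ) (hP : 0 ≤ P) (hv0 : 0 ≤ v) (ht : 0 ≤ t) (hE : 0 ≤ E)
    (hN : 0 ≤ N) (h1 : P ^ 2 ≤ E ^ 2 * N * κ) (h2 : κ ≤ κ') (h3 : v ≤ b)
    (h4 : N * κ' * b ^ 2 ≤ t ^ 2) : P * v ≤ t * E := by
  have h5 : P ^ 2 ≤ E ^ 2 * N * κ' := h1.trans (by gcongr)
  rw [← pow_le_pow_iff_left₀ (by positivity) (by positivity) two_ne_zero]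
  calc (P * v) ^ 2 = P ^ 2 * v ^ 2 := by ring
    _ ≤ (E ^ 2 * N * κ') * b ^ 2 := mul_le_mul h5 (by gcongr) (by positivity) ((sq_nonneg _).trans h5)
    _ = E ^ 2 * (N * κ' * b ^ 2) := by ring
    _ ≤ E ^ 2 * t ^ 2 := by gcongr
    _ = _ := by ring

lemma frac_le {S m b : ℚ} (hm : 0 < m) (h : S ≤ (b - 1) * m) : 1 + S / m ≤ b := by
  have : S / m ≤ b - 1 := by rw [div_le_iff₀ hm]; exact h
  linarith

lemma K4odd {l : Multiset X} (h : Stars l) (hm : 1 ≤ l.card) (t : ℕ) (ht : sz l = 2 * t) :
    root l ≤ 4 / 3 * (3 / 2) ^ t := by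
  obtain ⟨e, j, c, o, h1, h2, h3, h4, -⟩ := stars_summary h
  have hP := PP_ge h.pos
  have hS := SS_nonneg h.pos
  have hm' : (0 : ℚ) < l.card := by exact_mod_cast hm
  have hc : (l.card : ℚ) = e + j + c + o := by exact_mod_cast h1
  have e2 : ((3 : ℚ) / 2) ^ sz l = ((3 / 2) ^ t) ^ 2 * 1 := by rw [ht]; ring
  rw [e2] at h2
  have hj : (0 : ℚ) ≤ j := by positivity
  have hc0 : (0 : ℚ) ≤ c := by positivity
  have ho : (0 : ℚ) ≤ o := by positivity
  have he : (0 : ℚ) ≤ e := by positivity
  unfold root
  rcases e with _ | _ | e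
  · refine sq_bound 1 _ (4 / 3) (by linarith) (by positivity) (by norm_num) (by positivity)
      (by norm_num) h2 (kap_le _ _ _ 0 0 0 (by omega) (by omega) (by omega))
      (frac_le hm' ?_) (by norm_num)
    push_cast at *; linarith
  · have hco : 1 ≤ c ∨ 1 ≤ o := by
      by_contra hh
      have := (h4 (by omega)).1
      omega
    have hb : 1 + SS l / l.card ≤ 5 / 3 := by
      refine frac_le hm' ?_
      have : (1 : ℚ) ≤ c + o := by exact_mod_cast (show 1 ≤ c + o by omega)
      push_cast at *; linarith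
    rcases hco with hco | hco
    · exact sq_bound 1 _ (5 / 3) (by linarith) (by positivity) (by norm_num) (by positivity)
        (by norm_num) h2 (kap_le _ _ _ 1 1 0 (by omega) (by omega) (by omega)) hb (by norm_num)
    · exact sq_bound 1 _ (5 / 3) (by linarith) (by positivity) (by norm_num) (by positivity)
        (by norm_num) h2 (kap_le _ _ _ 1 0 1 (by omega) (by omega) (by omega)) hb (by norm_num)
  · refine sq_bound 1 _ 2 (by linarith) (by positivity) (by norm_num) (by positivity)
      (by norm_num) h2 (kap_le _ _ _ 2 0 0 (by omega) (by omega) (by omega))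
      (frac_le hm' ?_) (by norm_num)
    linarith

def c4 (n : ℕ) : ℚ := if n ≤ 10 then (4 * n + 4) / (3 * n) else (40 * n - 88) / (27 * (n - 2))

lemma c4_ge (n : ℕ) (hn : 2 ≤ n) (h : n % 2 = 0) : 29 / 20 ≤ c4 n := by
  unfold c4
  split_ifs with h1
  · have : (2 : ℚ) ≤ n := by exact_mod_cast hn
    have : (n : ℚ) ≤ 10 := by exact_mod_cast h1
    rw [le_div_iff₀ (by positivity)]; linarith
  · have : (12 : ℚ) ≤ n := by exact_mod_cast (show 12 ≤ n by omega)
    rw [le_div_iff₀ (by linarith)]; linarith

lemma c4_le (n : ℕ) (hn : 6 ≤ n) : c4 n ≤ 14 / 9 := by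
  have : (6 : ℚ) ≤ n := by exact_mod_cast hn
  unfold c4
  split_ifs with h1
  · rw [div_le_iff₀ (by positivity)]; linarith
  · rw [div_le_iff₀ (by linarith)]; linarith

lemma c4_a (j : ℕ) : (1 : ℚ) + (1 + j / 3) / (j + 1) ≤ c4 (2 * j + 2) := by
  have hj : (0 : ℚ) ≤ j := by positivity
  unfold c4
  split_ifs with h1
  · apply le_of_eq; push_cast; field_simp; ring
  · have : (5 : ℚ) ≤ j := by exact_mod_cast (show 5 ≤ j by omega)
    push_cast
    rw [le_div_iff₀ (by linarith)]
    have e : ((1 : ℚ) + (1 + j / 3) / (j + 1)) * (27 * (2 * j + 2 - 2)) =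
        (18 * j * (4 * j + 6)) / (j + 1) := by field_simp; ring
    rw [e, div_le_iff₀ (by positivity)]
    nlinarith

lemma c4_b (j : ℕ) : (10 : ℚ) / 9 * (1 + (j / 3 + 1 / 5) / (j + 1)) ≤ c4 (2 * j + 4) := by
  unfold c4
  split_ifs with h1
  · have : j ≤ 3 := by omega
    interval_cases j <;> norm_num
  · apply le_of_eq; push_cast
    have : (2 : ℚ) * j + 4 - 2 = 2 * (j + 1) := by ring
    rw [this]
    field_simp; ring

lemma K4even {l : Multiset X} (h : Stars l) (t : ℕ) (ht : sz l = 2 * t + 1) :
    root l ≤ c4 (2 * t + 2) * (3 / 2) ^ t := by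
  obtain ⟨e, j, c, o, h1, h2, h3, h4, -⟩ := stars_summary h
  have hP := PP_ge h.pos
  have hS := SS_nonneg h.pos
  have hm : 1 ≤ l.card := by
    by_contra hh
    have : l = 0 := Multiset.card_eq_zero.1 (by omega)
    rw [this] at ht; simp at ht
  have hm' : (0 : ℚ) < l.card := by exact_mod_cast hm
  have hc : (l.card : ℚ) = e + j + c + o := by exact_mod_cast h1
  have e2 : ((3 : ℚ) / 2) ^ sz l = ((3 / 2) ^ t) ^ 2 * (3 / 2) := by rw [ht]; ring
  rw [e2] at h2
  have hj : (0 : ℚ) ≤ j := by positivity
  have hc0 : (0 : ℚ) ≤ c := by positivity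
  have ho : (0 : ℚ) ≤ o := by positivity
  have he : (0 : ℚ) ≤ e := by positivity
  have hfin : ∀ z : ℚ, z ≤ 29 / 20 * (3 / 2) ^ t → z ≤ c4 (2 * t + 2) * (3 / 2) ^ t :=
    fun z hz => hz.trans (by gcongr; exact c4_ge _ (by omega) (by omega))
  unfold root
  rcases e with _ | _ | _ | e
  · by_cases hex : o = 0 ∧ c = 1
    · obtain ⟨k1, k2, k3⟩ := h4 hex.1
      have := c4_b j
      have htj : t = j + 1 := by omega
      rw [k2, k3, hc, hex.1, hex.2, htj, show 2 * (j + 1) + 2 = 2 * j + 4 by ring]
      refine le_trans (le_of_eq ?_) (mul_le_mul_of_nonneg_right this (by positivity))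
      push_cast; ring
    · have hco : 2 ≤ c ∨ 1 ≤ o := by
        by_contra hh
        have := (h4 (by omega)).1
        omega
      have hb : 1 + SS l / l.card ≤ 4 / 3 := by
        refine frac_le hm' ?_
        push_cast at *; linarith
      apply hfin
      rcases hco with hco | hco
      · exact sq_bound (3 / 2) _ (4 / 3) (by linarith) (by positivity) (by norm_num) (by positivity)
          (by norm_num) h2 (kap_le _ _ _ 0 2 0 (by omega) (by omega) (by omega)) hb (by norm_num)
      · exact sq_bound (3 / 2) _ (4 / 3) (by linarith) (by positivity) (by norm_num) (by positivity)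
          (by norm_num) h2 (kap_le _ _ _ 0 0 1 (by omega) (by omega) (by omega)) hb (by norm_num)
  · by_cases hex : o = 0 ∧ c = 0
    · obtain ⟨k1, k2, k3⟩ := h4 hex.1
      have := c4_a j
      have htj : t = j := by omega
      rw [k2, k3, hc, hex.1, hex.2, htj]
      refine le_trans (le_of_eq ?_) (mul_le_mul_of_nonneg_right this (by positivity))
      push_cast; ring
    · have hco : 2 ≤ c ∨ 1 ≤ o := by
        by_contra hh
        have := (h4 (by omega)).1
        omega
      have hb : 1 + SS l / l.card ≤ 5 / 3 := by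
        refine frac_le hm' ?_
        have : (1 : ℚ) ≤ c + o := by exact_mod_cast (show 1 ≤ c + o by omega)
        push_cast at *; linarith
      apply hfin
      rcases hco with hco | hco
      · exact sq_bound (3 / 2) _ (5 / 3) (by linarith) (by positivity) (by norm_num) (by positivity)
          (by norm_num) h2 (kap_le _ _ _ 1 2 0 (by omega) (by omega) (by omega)) hb (by norm_num)
      · exact sq_bound (3 / 2) _ (5 / 3) (by linarith) (by positivity) (by norm_num) (by positivity)
          (by norm_num) h2 (kap_le _ _ _ 1 0 1 (by omega) (by omega) (by omega)) hb (by norm_num)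
  · have hco : 1 ≤ c ∨ 1 ≤ o := by
      by_contra hh
      have := (h4 (by omega)).1
      omega
    have hb : 1 + SS l / l.card ≤ 16 / 9 := by
      refine frac_le hm' ?_
      have : (1 : ℚ) ≤ c + o := by exact_mod_cast (show 1 ≤ c + o by omega)
      push_cast at *; linarith
    apply hfin
    rcases hco with hco | hco
    · exact sq_bound (3 / 2) _ (16 / 9) (by linarith) (by positivity) (by norm_num) (by positivity)
        (by norm_num) h2 (kap_le _ _ _ 2 1 0 (by omega) (by omega) (by omega)) hb (by norm_num)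
    · exact sq_bound (3 / 2) _ (16 / 9) (by linarith) (by positivity) (by norm_num) (by positivity)
        (by norm_num) h2 (kap_le _ _ _ 2 0 1 (by omega) (by omega) (by omega)) hb (by norm_num)
  · apply hfin
    refine sq_bound (3 / 2) _ 2 (by linarith) (by positivity) (by norm_num) (by positivity)
      (by norm_num) h2 (kap_le _ _ _ 3 0 0 (by omega) (by omega) (by omega))
      (frac_le hm' ?_) (by norm_num)
    linarith

/-- even branch: `Z ≤ (3/2)^(s/2)` -/
lemma A1 {l : Multiset X} (h : Stars l) (t : ℕ) (ht : sz l = 2 * t + 1) :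
    (node l).Z ≤ 3 / 2 * (3 / 2) ^ t := by
  obtain ⟨e, j, c, o, h1, h2, h3, h4, -⟩ := stars_summary h
  have hP := PP_ge h.pos
  have hS := SS_nonneg h.pos
  have hm' : (0 : ℚ) < l.card + 1 := by positivity
  have hc : (l.card : ℚ) = e + j + c + o := by exact_mod_cast h1
  have e2 : ((3 : ℚ) / 2) ^ sz l = ((3 / 2) ^ t) ^ 2 * (3 / 2) := by rw [ht]; ring
  rw [e2] at h2
  have hj : (0 : ℚ) ≤ j := by positivity
  have hc0 : (0 : ℚ) ≤ c := by positivity
  have ho : (0 : ℚ) ≤ o := by positivity
  have he : (0 : ℚ) ≤ e := by positivity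
  simp only [node]
  rcases e with _ | _ | _ | e
  · have hco : 1 ≤ c ∨ 1 ≤ o := by
      by_contra hh
      have := (h4 (by omega)).1
      omega
    have hb : 1 + SS l / (l.card + 1) ≤ 4 / 3 := by
      refine frac_le hm' ?_
      push_cast at *; linarith
    rcases hco with hco | hco
    · exact sq_bound (3 / 2) _ (4 / 3) (by linarith) (by positivity) (by norm_num) (by positivity)
        (by norm_num) h2 (kap_le _ _ _ 0 1 0 (by omega) (by omega) (by omega)) hb (by norm_num)
    · exact sq_bound (3 / 2) _ (4 / 3) (by linarith) (by positivity) (by norm_num) (by positivity)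
        (by norm_num) h2 (kap_le _ _ _ 0 0 1 (by omega) (by omega) (by omega)) hb (by norm_num)
  · refine sq_bound (3 / 2) _ (3 / 2) (by linarith) (by positivity) (by norm_num) (by positivity)
      (by norm_num) h2 (kap_le _ _ _ 1 0 0 (by omega) (by omega) (by omega))
      (frac_le hm' ?_) (by norm_num)
    push_cast at *; linarith
  · refine sq_bound (3 / 2) _ (5 / 3) (by linarith) (by positivity) (by norm_num) (by positivity)
      (by norm_num) h2 (kap_le _ _ _ 2 0 0 (by omega) (by omega) (by omega))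
      (frac_le hm' ?_) (by norm_num)
    push_cast at *; linarith
  · refine sq_bound (3 / 2) _ 2 (by linarith) (by positivity) (by norm_num) (by positivity)
      (by norm_num) h2 (kap_le _ _ _ 3 0 0 (by omega) (by omega) (by omega))
      (frac_le hm' ?_) (by norm_num)
    linarith

/-- odd branch which is not a hub -/
lemma D1 {l : Multiset X} (h : Stars l) (t : ℕ) (ht : sz l = 2 * t) :
    l = Multiset.replicate t Px ∨
      ((node l).Z ≤ 7 / 6 * (3 / 2) ^ t ∧ root (Lx ::ₘ l) ≤ 14 / 9 * (3 / 2) ^ t) := by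
  obtain ⟨e, j, c, o, h1, h2, h3, h4, h5⟩ := stars_summary h
  by_cases hex : e = 0 ∧ c = 0 ∧ o = 0
  · left
    have := (h4 hex.2.2).1
    rw [show t = j by omega]
    exact h5 hex.1 hex.2.1 hex.2.2
  right
  have hP := PP_ge h.pos
  have hS := SS_nonneg h.pos
  have hm' : (0 : ℚ) < l.card + 1 := by positivity
  have hc : (l.card : ℚ) = e + j + c + o := by exact_mod_cast h1
  have e2 : ((3 : ℚ) / 2) ^ sz l = ((3 / 2) ^ t) ^ 2 * 1 := by rw [ht]; ring
  rw [e2] at h2
  have hj : (0 : ℚ) ≤ j := by positivity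
  have hc0 : (0 : ℚ) ≤ c := by positivity
  have ho : (0 : ℚ) ≤ o := by positivity
  have he : (0 : ℚ) ≤ e := by positivity
  simp only [node, root, PP_cons, SS_cons, Multiset.card_cons, Lx, one_mul]
  push_cast
  rcases e with _ | _ | _ | e
  · have hco : 2 ≤ c ∨ 1 ≤ o := by
      by_contra hh
      have := (h4 (by omega)).1
      omega
    have hb : 1 + SS l / (l.card + 1) ≤ 4 / 3 := by
      refine frac_le hm' ?_
      push_cast at *; linarith
    have hb' : 1 + (1 + SS l) / (l.card + 1) ≤ 5 / 3 := by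
      refine frac_le hm' ?_
      have : (1 : ℚ) ≤ c + o := by exact_mod_cast (show 1 ≤ c + o by omega)
      push_cast at *; linarith
    rcases hco with hco | hco
    · exact ⟨sq_bound 1 _ (4 / 3) (by linarith) (by positivity) (by norm_num) (by positivity)
        (by norm_num) h2 (kap_le _ _ _ 0 2 0 (by omega) (by omega) (by omega)) hb (by norm_num),
        sq_bound 1 _ (5 / 3) (by linarith) (by positivity) (by norm_num) (by positivity)
        (by norm_num) h2 (kap_le _ _ _ 0 2 0 (by omega) (by omega) (by omega)) hb' (by norm_num)⟩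
    · exact ⟨sq_bound 1 _ (4 / 3) (by linarith) (by positivity) (by norm_num) (by positivity)
        (by norm_num) h2 (kap_le _ _ _ 0 0 1 (by omega) (by omega) (by omega)) hb (by norm_num),
        sq_bound 1 _ (5 / 3) (by linarith) (by positivity) (by norm_num) (by positivity)
        (by norm_num) h2 (kap_le _ _ _ 0 0 1 (by omega) (by omega) (by omega)) hb' (by norm_num)⟩
  · have hco : 1 ≤ c ∨ 1 ≤ o := by
      by_contra hh
      have := (h4 (by omega)).1
      omega
    have : (1 : ℚ) ≤ c + o := by exact_mod_cast (show 1 ≤ c + o by omega)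
    have hb : 1 + SS l / (l.card + 1) ≤ 13 / 9 := by
      refine frac_le hm' ?_
      push_cast at *; linarith
    have hb' : 1 + (1 + SS l) / (l.card + 1) ≤ 2 := by
      refine frac_le hm' ?_
      push_cast at *; linarith
    rcases hco with hco | hco
    · exact ⟨sq_bound 1 _ (13 / 9) (by linarith) (by positivity) (by norm_num) (by positivity)
        (by norm_num) h2 (kap_le _ _ _ 1 1 0 (by omega) (by omega) (by omega)) hb (by norm_num),
        sq_bound 1 _ 2 (by linarith) (by positivity) (by norm_num) (by positivity)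
        (by norm_num) h2 (kap_le _ _ _ 1 1 0 (by omega) (by omega) (by omega)) hb' (by norm_num)⟩
    · exact ⟨sq_bound 1 _ (13 / 9) (by linarith) (by positivity) (by norm_num) (by positivity)
        (by norm_num) h2 (kap_le _ _ _ 1 0 1 (by omega) (by omega) (by omega)) hb (by norm_num),
        sq_bound 1 _ 2 (by linarith) (by positivity) (by norm_num) (by positivity)
        (by norm_num) h2 (kap_le _ _ _ 1 0 1 (by omega) (by omega) (by omega)) hb' (by norm_num)⟩
  · refine ⟨sq_bound 1 _ (5 / 3) (by linarith) (by positivity) (by norm_num) (by positivity)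
      (by norm_num) h2 (kap_le _ _ _ 2 0 0 (by omega) (by omega) (by omega))
      (frac_le hm' ?_) (by norm_num),
      sq_bound 1 _ 2 (by linarith) (by positivity) (by norm_num) (by positivity)
      (by norm_num) h2 (kap_le _ _ _ 2 0 0 (by omega) (by omega) (by omega))
      (frac_le hm' ?_) (by norm_num)⟩
    · push_cast at *; linarith
    · push_cast at *; linarith
  · refine ⟨sq_bound 1 _ 2 (by linarith) (by positivity) (by norm_num) (by positivity)
      (by norm_num) h2 (kap_le _ _ _ 3 0 0 (by omega) (by omega) (by omega))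
      (frac_le hm' ?_) (by norm_num),
      sq_bound 1 _ 2 (by linarith) (by positivity) (by norm_num) (by positivity)
      (by norm_num) h2 (kap_le _ _ _ 3 0 0 (by omega) (by omega) (by omega))
      (frac_le hm' ?_) (by norm_num)⟩
    · linarith
    · linarith

end Pool.Agent.Lib.MP_70d11c_co
end

-- part Pool.Agent.Lib.MP_70d11c_co.Up
section

namespace Pool.Agent.Lib.MP_70d11c_co

open Finset

variable {V : Type} [Fintype V] [DecidableEq V]

lemma RT.ch_r_nonempty (T : RT V) (h : 2 ≤ Fintype.card V) : (T.ch T.r).Nonempty := by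
  obtain ⟨x, hx⟩ := T.exists_data
  have := T.data_card x hx
  rw [Finset.nonempty_iff_ne_empty]
  intro h0
  rw [h0] at this
  simp at this
  omega

/-- rooting a tree at a vertex of maximum degree -/
lemma up_max (G : SimpleGraph V) (hG : G.IsTree) (h : 2 ≤ Fintype.card V) :
    ∃ (l : Multiset X) (H : ℕ), 1 ≤ l.card ∧ (∀ y ∈ l, Br l.card H y) ∧
      Fintype.card V = 1 + sz l ∧ lapRatio G = root l := by
  classical
  have : Nonempty V := Fintype.card_pos_iff.1 (by omega)
  obtain ⟨r, -, hr⟩ := Finset.exists_max_image univ (fun v => G.degree v) univ_nonempty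
  obtain ⟨T, rfl, rfl, -⟩ := exists_RT G hG r
  obtain ⟨x, hx⟩ := T.exists_data
  have hne := T.ch_r_nonempty h
  refine ⟨(T.ch T.r).val.map x, univ.sup T.dep + 1, by simpa using hne.card_pos, ?_,
    T.data_card x hx, T.data_ratio x hx hne⟩
  intro y hy
  obtain ⟨c, hc, rfl⟩ := Multiset.mem_map.1 hy
  refine (T.data_Br x hx _ (fun v => v ≠ T.r) (fun v => univ.sup T.dep - T.dep v) ?_ ?_ c
    (T.mem_ch.1 hc).1).mono (by omega)
  · intro v hv
    have := hr v (mem_univ v)
    simp only [T.degree_eq, hv, if_false, if_true] at this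
    simp only [Multiset.card_map, Finset.card_val]
    omega
  · intro v _ c hc
    have h1 := T.dep_ch hc
    have h2 : T.dep c ≤ univ.sup T.dep := Finset.le_sup (f := T.dep) (mem_univ c)
    exact ⟨(T.mem_ch.1 hc).1, by omega⟩

namespace RT

variable (T : RT V)

def top (v : V) : V := T.par^[T.dep v - 1] v

omit [Fintype V] [DecidableEq V] in
lemma top_par {v : V} (h1 : v ≠ T.r) (h2 : T.par v ≠ T.r) : T.top (T.par v) = T.top v := by
  have e1 := T.dep_par v h1
  have e2 := T.dep_par _ h2
  unfold top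
  rw [show T.dep v - 1 = (T.dep (T.par v) - 1) + 1 by omega, Function.iterate_succ_apply]

omit [Fintype V] [DecidableEq V] in
lemma top_self {v : V} (h1 : v ≠ T.r) (h2 : T.par v = T.r) : T.top v = v := by
  have e1 := T.dep_par v h1
  rw [h2, T.dep_r] at e1
  unfold top
  rw [← e1]; rfl

lemma top_mem : ∀ (k : ℕ) (v : V), T.dep v = k + 1 → T.top v ∈ T.ch T.r := by
  intro k
  induction k with
  | zero =>
    intro v hv
    have h1 : v ≠ T.r := by rintro rfl; rw [T.dep_r] at hv; omega
    have e1 := T.dep_par v h1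
    have h2 : T.par v = T.r := T.eq_r_of_dep (by omega)
    rw [T.top_self h1 h2]
    exact T.mem_ch.2 ⟨h1, h2⟩
  | succ k ih =>
    intro v hv
    have h1 : v ≠ T.r := by rintro rfl; rw [T.dep_r] at hv; omega
    have e1 := T.dep_par v h1
    have h2 : T.par v ≠ T.r := by intro h; rw [h, T.dep_r] at e1; omega
    rw [← T.top_par h1 h2]
    exact ih _ (by omega)

omit [Fintype V] in
lemma lip (c : V) {u v : V} (p : T.G.Walk u v) :
    |(if u ≠ T.r ∧ T.top u = c then (T.dep u : ℤ) else -T.dep u) -
      (if v ≠ T.r ∧ T.top v = c then (T.dep v : ℤ) else -T.dep v)| ≤ p.length := by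
  have key : ∀ u, u ≠ T.r → |(if u ≠ T.r ∧ T.top u = c then (T.dep u : ℤ) else -T.dep u) -
      (if T.par u ≠ T.r ∧ T.top (T.par u) = c then (T.dep (T.par u) : ℤ) else -T.dep (T.par u))|
        ≤ 1 := by
    intro u hu
    have e1 := T.dep_par u hu
    by_cases h2 : T.par u = T.r
    · rw [h2, T.dep_r] at e1
      rw [h2, T.dep_r, ← e1]
      split_ifs <;> simp
    · rw [T.top_par hu h2, ← e1]
      simp only [hu, h2, ne_eq, not_false_eq_true, true_and]
      split_ifs <;> simp
  induction p with
  | nil => simp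
  | cons h p ih =>
    rename_i a b d
    rw [SimpleGraph.Walk.length_cons]
    have h3 : |(if a ≠ T.r ∧ T.top a = c then (T.dep a : ℤ) else -T.dep a) -
      (if b ≠ T.r ∧ T.top b = c then (T.dep b : ℤ) else -T.dep b)| ≤ 1 := by
      rcases h with h | h
      · rw [← h.2]; exact key a h.1
      · rw [abs_sub_comm, ← h.2]; exact key b h.1
    push_cast
    rw [abs_le] at *
    constructor <;> linarith [h3.1, h3.2, ih.1, ih.2]

end RT

/-- rooting a tree at a central vertex -/
lemma up_diam (G : SimpleGraph V) (hG : G.IsTree) (h : 2 ≤ Fintype.card V) (k : ℕ)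
    (hk : G.ediam ≤ k) :
    ∃ (x0 : X) (l : Multiset X) (D H H' : ℕ), H + H' ≤ k ∧ H ≤ H' + 1 ∧ H' ≤ H ∧ Br D H x0 ∧
      (∀ y ∈ l, Br D H' y) ∧
      Fintype.card V = 1 + sz (x0 ::ₘ l) ∧ lapRatio G = root (x0 ::ₘ l) := by
  classical
  have : Nonempty V := Fintype.card_pos_iff.1 (by omega)
  obtain ⟨r, -, hr⟩ := Finset.exists_min_image univ (fun v => univ.sup (G.dist v)) univ_nonempty
  obtain ⟨T, rfl, rfl, hdep⟩ := exists_RT G hG r
  obtain ⟨x, hx⟩ := T.exists_data
  have hne := T.ch_r_nonempty h
  obtain ⟨u0, -, hu0⟩ := Finset.exists_max_image univ T.dep univ_nonempty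
  have hH : 1 ≤ T.dep u0 := by
    obtain ⟨c, hc⟩ := hne
    have := T.dep_ch hc
    have := hu0 c (mem_univ c)
    omega
  have hu0r : u0 ≠ T.r := by rintro rfl; rw [T.dep_r] at hH; omega
  set c := T.top u0 with hcdef
  have hc : c ∈ T.ch T.r := T.top_mem (T.dep u0 - 1) u0 (by omega)
  have hc' := T.mem_ch.1 hc
  obtain ⟨v0, hv0m, hv0⟩ := Finset.exists_max_image
    (univ.filter fun v => ¬ (v ≠ T.r ∧ T.top v = c)) T.dep ⟨T.r, by simp⟩
  simp only [mem_filter, mem_univ, true_and] at hv0m hv0
  have hdist : ∀ u v, T.G.edist u v ≤ (T.G.dist u v : ℕ∞) := fun u v =>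
    ((T.connected.preconnected u v).coe_dist_eq_edist).ge
  have hdle : ∀ u v (m : ℕ), T.G.edist u v ≤ m → T.G.dist u v ≤ m := fun u v m hm => by
    rw [← (T.connected.preconnected u v).coe_dist_eq_edist] at hm
    exact_mod_cast hm
  refine ⟨x c, ((T.ch T.r).erase c).val.map x, Fintype.card V, T.dep u0, T.dep v0, ?_, ?_,
    hu0 v0 (mem_univ _), ?_, ?_, ?_, ?_⟩
  · obtain ⟨p, hp⟩ := T.connected.exists_walk_length_eq_dist u0 v0
    have h1 := T.lip c p
    rw [if_pos ⟨hu0r, rfl⟩, if_neg hv0m, hp] at h1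
    have h2 := hdle u0 v0 k (SimpleGraph.edist_le_ediam.trans hk)
    have := le_abs_self ((T.dep u0 : ℤ) - -T.dep v0)
    omega
  · by_contra hcon
    have h1 := hr c (mem_univ c)
    have h2 : T.dep u0 ≤ univ.sup (T.G.dist T.r) := by
      rw [hdep]; exact Finset.le_sup (f := T.G.dist T.r) (mem_univ u0)
    have h3 : univ.sup (T.G.dist c) ≤ T.dep u0 - 1 := by
      refine Finset.sup_le fun v _ => ?_
      rw [SimpleGraph.dist_comm]
      by_cases hv : v ≠ T.r ∧ T.top v = c
      · refine hdle _ _ _ (T.edist_up (fun v => v ≠ T.r ∧ T.top v = c) c (fun v => T.dep v - 1)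
          ?_ _ v hv ?_)
        · intro w hw
          by_cases h2 : T.par w = T.r
          · left; rw [← hw.2, T.top_self hw.1 h2]
          · right
            have e1 := T.dep_par w hw.1
            have e2 := T.dep_par _ h2
            exact ⟨hw.1, ⟨h2, by rw [T.top_par hw.1 h2, hw.2]⟩, by omega⟩
        · have := hu0 v (mem_univ v)
          omega
      · have e1 := hv0 v hv
        have e2 : T.G.dist v c ≤ T.G.dist v T.r + T.G.dist T.r c := T.connected.dist_triangle
        have e3 := T.dep_ch hc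
        rw [T.dep_r] at e3
        rw [← hdep c, SimpleGraph.dist_comm (u := v) (v := T.r), ← hdep v] at e2
        omega
    omega
  · refine (T.data_Br x hx _ (fun v => v ≠ T.r) (fun v => T.dep u0 - T.dep v) ?_ ?_ c
      hc'.1).mono ?_
    · intro v _
      refine Finset.card_lt_card ⟨subset_univ _, fun h => ?_⟩
      exact (T.mem_ch.1 (h (mem_univ T.r))).1 rfl
    · intro v _ c hc
      have h1 := T.dep_ch hc
      have h2 := hu0 c (mem_univ c)
      exact ⟨(T.mem_ch.1 hc).1, by omega⟩
    · have := T.dep_ch hc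
      omega
  · intro y hy
    obtain ⟨d, hd, rfl⟩ := Multiset.mem_map.1 hy
    have hd2 := mem_erase.1 hd
    have hd3 := T.mem_ch.1 hd2.2
    have hd4 : T.top d ≠ c := by rw [T.top_self hd3.1 hd3.2]; exact hd2.1
    refine (T.data_Br x hx _ (fun v => v ≠ T.r ∧ T.top v ≠ c) (fun v => T.dep v0 - T.dep v) ?_ ?_ d
      ⟨hd3.1, hd4⟩).mono ?_
    · intro v _
      refine Finset.card_lt_card ⟨subset_univ _, fun h => ?_⟩
      exact (T.mem_ch.1 (h (mem_univ T.r))).1 rfl
    · intro v hv e he
      have h1 := T.dep_ch he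
      have h3 := T.mem_ch.1 he
      have h4 : T.top e ≠ c := by
        rw [← T.top_par h3.1 (by rw [h3.2]; exact hv.1), h3.2]; exact hv.2
      have h2 := hv0 e (fun h => h4 h.2)
      exact ⟨⟨h3.1, h4⟩, by omega⟩
    · have := T.dep_ch hd2.2
      have h2 := hv0 d (fun h => hd4 h.2)
      omega
  · rw [T.data_card x hx, ← Multiset.map_cons, Finset.erase_val, Multiset.cons_erase hc]
  · rw [T.data_ratio x hx hne, ← Multiset.map_cons, Finset.erase_val, Multiset.cons_erase hc]

end Pool.Agent.Lib.MP_70d11c_co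
end
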