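import Pool.Agent.Lib.MP_70d11c_co.Pot
import Pool.Agent.Lib.MP_70d11c_co.FamNat
import Pool.Agent.Lib.MP_70d11c_co.DPTab
import Pool.Agent.Lib.MP_70d11c_co.Up

-- part Pool.Agent.Lib.MP_70d11c_co.PotCert
section

namespace Pool.Agent.Lib.MP_70d11c_co

def pot2 : Pot := ⟨2, 96793 / 500000, 1 / 10, -2057 / 100000, 2061 / 100000, 4633 / 25000,
  [(243, 243, 243)],
  314, 343431 / 1000000⟩

def pot3 : Pot := ⟨3, 25147 / 125000, 1 / 10, -833 / 100000, 97 / 5000, 15497 / 100000,
  [(243, 243, 241), (361, 361, 361)],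
  394, 142181 / 500000⟩

def pot4 : Pot := ⟨4, 100987 / 500000, 1 / 5, 229 / 10000, 8 / 125, 16363 / 100000,
  [(233, 233, 233), (367, 367, 367), (487, 487, 487)],
  520, 145437 / 500000⟩

def pot5 : Pot := ⟨5, 101841 / 500000, 1 / 5, 2403 / 100000, 5651 / 100000, 15299 / 100000,
  [(243, 232, 232), (365, 365, 365), (497, 482, 482), (616, 616, 595)],
  649, 278143 / 1000000⟩

def pot6 : Pot := ⟨6, 204537 / 1000000, 3 / 20, 2187 / 100000, 4197 / 100000, 3817 / 25000,
  [(232, 232, 232), (365, 365, 365), (498, 498, 498), (632, 632, 613), (746, 746, 722)],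
  774, 133153 / 500000⟩

def pot7 : Pot := ⟨7, 10247 / 50000, 3 / 20, 1961 / 100000, 1833 / 50000, 14649 / 100000,
  [(243, 240, 231), (365, 365, 365), (498, 498, 498), (631, 627, 613), (746, 746, 746), (880, 880, 848)],
  900, 51413 / 200000⟩

def pot8 : Pot := ⟨8, 102621 / 500000, 1 / 10, 777 / 50000, 2541 / 100000, 7509 / 50000,
  [(232, 231, 231), (365, 365, 365), (498, 498, 498), (631, 631, 631), (765, 765, 765), (883, 880, 880), (1013, 1013, 972)],
  1024, 123011 / 500000⟩

def pot9 : Pot := ⟨9, 102769 / 500000, 1 / 10, 869 / 100000, 1831 / 100000, 2847 / 20000,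
  [(243, 243, 231), (364, 364, 364), (498, 498, 498), (631, 631, 631), (749, 749, 749), (880, 880, 880), (1013, 1013, 1013), (1146, 1146, 1131)],
  1177, 231527 / 1000000⟩

def pot10 : Pot := ⟨10, 41133 / 200000, 1 / 10, 539 / 100000, 763 / 50000, 6949 / 50000,
  [(243, 243, 231), (364, 364, 364), (498, 498, 498), (631, 631, 616), (749, 749, 749), (882, 882, 882), (1013, 1013, 1013), (1146, 1146, 1146), (1268, 1258, 1216)],
  1265, 223149 / 1000000⟩

def pot11 : Pot := ⟨11, 102909 / 500000, 1 / 10, 93 / 50000, 609 / 50000, 6823 / 50000,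
  [(243, 243, 239), (369, 364, 364), (498, 498, 498), (617, 616, 616), (749, 749, 749), (882, 882, 882), (1016, 1016, 1016), (1146, 1146, 1146), (1280, 1280, 1280), (1387, 1377, 1336)],
  1385, 212891 / 1000000⟩

def pot12 : Pot := ⟨12, 102973 / 500000, 1 / 10, -3 / 3125, 481 / 50000, 3397 / 25000,
  [(243, 243, 243), (372, 365, 365), (498, 498, 498), (618, 616, 616), (749, 749, 749), (882, 882, 882), (1016, 1016, 1016), (1149, 1149, 1146), (1280, 1280, 1280), (1413, 1413, 1413), (1506, 1496, 1455)],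
  1506, 202789 / 1000000⟩

def pot13 : Pot := ⟨13, 41211 / 200000, 1 / 10, -21 / 6250, 93 / 12500, 1693 / 12500,
  [(243, 243, 243), (375, 365, 365), (499, 499, 497), (620, 620, 616), (749, 749, 749), (882, 882, 882), (1016, 1016, 1016), (1149, 1149, 1149), (1282, 1282, 1280), (1413, 1413, 1413), (1546, 1546, 1546), (1625, 1614, 1573)],
  1623, 192911 / 1000000⟩

def pot14 : Pot := ⟨14, 51537 / 250000, 1 / 10, -27 / 5000, 279 / 50000, 13507 / 100000,
  [(243, 243, 243), (377, 367, 366), (499, 499, 487), (620, 620, 616), (749, 749, 749), (882, 882, 882), (1016, 1016, 1016), (1149, 1149, 1149), (1282, 1282, 1282), (1416, 1416, 1413), (1546, 1546, 1546), (1680, 1680, 1680), (1741, 1731, 1690)],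
  1743, 22899 / 125000⟩

def pot15 : Pot := ⟨15, 206209 / 1000000, 1 / 10, -337 / 50000, 109 / 25000, 6741 / 50000,
  [(243, 243, 243), (379, 369, 366), (499, 499, 487), (620, 620, 616), (749, 749, 749), (882, 882, 882), (1016, 1016, 1016), (1149, 1149, 1149), (1282, 1282, 1282), (1416, 1416, 1416), (1546, 1546, 1546), (1680, 1680, 1680), (1813, 1813, 1776), (1828, 1818, 1776)],
  1827, 43913 / 250000⟩

def pot16 : Pot := ⟨16, 206283 / 1000000, 1 / 10, -837 / 100000, 9 / 3125, 13453 / 100000,
  [(243, 243, 243), (381, 371, 366), (500, 494, 487), (620, 620, 620), (749, 749, 749), (882, 882, 882), (1016, 1016, 1016), (1149, 1149, 1149), (1282, 1282, 1282), (1416, 1416, 1416), (1549, 1549, 1549), (1682, 1680, 1680), (1813, 1813, 1813), (1944, 1934, 1893), (1944, 1934, 1893)],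
  1944, 33179 / 200000⟩

def pot17 : Pot := ⟨17, 51581 / 250000, 1 / 10, -927 / 100000, 103 / 50000, 3359 / 25000,
  [(243, 243, 243), (382, 372, 366), (497, 488, 487), (620, 620, 620), (749, 749, 749), (882, 882, 882), (1016, 1016, 1016), (1149, 1149, 1149), (1282, 1282, 1282), (1416, 1416, 1416), (1549, 1549, 1549), (1682, 1682, 1682), (1813, 1813, 1813), (1946, 1946, 1946), (2015, 2005, 1964), (2016, 2006, 1965)],
  2017, 159779 / 1000000⟩

def pot18 : Pot := ⟨18, 51597 / 250000, 1 / 10, -211 / 20000, 39 / 50000, 13411 / 100000,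
  [(243, 243, 243), (384, 374, 367), (487, 487, 487), (620, 620, 620), (749, 749, 749), (882, 882, 882), (1016, 1016, 1016), (1149, 1149, 1149), (1282, 1282, 1282), (1416, 1416, 1416), (1549, 1549, 1549), (1682, 1682, 1682), (1816, 1816, 1816), (1946, 1946, 1946), (2080, 2080, 2080), (2138, 2128, 2087), (2138, 2128, 2087)],
  2142, 149609 / 1000000⟩

def pot19 : Pot := ⟨19, 206439 / 1000000, 1 / 10, -1157 / 100000, -3 / 12500, 1339 / 10000,
  [(243, 243, 243), (385, 375, 367), (487, 487, 487), (620, 620, 620), (749, 749, 749), (882, 882, 882), (1016, 1016, 1016), (1149, 1149, 1149), (1282, 1282, 1282), (1416, 1416, 1416), (1549, 1549, 1549), (1682, 1682, 1682), (1816, 1816, 1816), (1949, 1949, 1949), (2080, 2080, 2080), (2213, 2213, 2195), (2246, 2236, 2195), (2247, 2237, 2196)],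
  2247, 2194 / 15625⟩

def pot20 : Pot := ⟨20, 41297 / 200000, 1 / 10, -1249 / 100000, -29 / 25000, 3343 / 25000,
  [(243, 243, 243), (386, 376, 367), (487, 487, 487), (620, 620, 620), (749, 749, 749), (882, 882, 882), (1016, 1016, 1016), (1149, 1149, 1149), (1282, 1282, 1282), (1416, 1416, 1416), (1549, 1549, 1549), (1682, 1682, 1682), (1816, 1816, 1816), (1949, 1949, 1949), (2082, 2082, 2082), (2216, 2216, 2213), (2346, 2344, 2303), (2354, 2344, 2303), (2355, 2345, 2304)],
  2360, 65721 / 500000⟩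

def pot21 : Pot := ⟨21, 206539 / 1000000, 1 / 10, -1357 / 100000, -7 / 3125, 267 / 2000,
  [(243, 243, 243), (388, 378, 367), (490, 487, 487), (620, 620, 620), (749, 749, 749), (882, 882, 882), (1016, 1016, 1016), (1149, 1149, 1149), (1282, 1282, 1282), (1416, 1416, 1416), (1549, 1549, 1549), (1682, 1682, 1682), (1816, 1816, 1816), (1949, 1949, 1949), (2082, 2082, 2082), (2216, 2216, 2216), (2349, 2349, 2349), (2480, 2480, 2444), (2495, 2485, 2444), (2495, 2485, 2444)],
  2495, 2399 / 20000⟩

def pot22 : Pot := ⟨22, 206586181 / 1000000000, 1 / 10, -1451 / 100000, -311 / 100000, 13331 / 100000,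
  [(243, 243, 243), (389, 379, 367), (492, 487, 487), (620, 620, 620), (753, 750, 749), (882, 882, 882), (1016, 1016, 1016), (1149, 1149, 1149), (1282, 1282, 1282), (1416, 1416, 1416), (1549, 1549, 1549), (1682, 1682, 1682), (1816, 1816, 1816), (1949, 1949, 1949), (2082, 2082, 2082), (2216, 2216, 2216), (2349, 2349, 2349), (2482, 2482, 2482), (2616, 2615, 2575), (2626, 2616, 2575), (2626, 2616, 2575)],
  2629, 54681 / 500000⟩

def pot23 : Pot := ⟨23, 206586181 / 1000000000, 1 / 10, -1451 / 100000, -311 / 100000, 13331 / 100000,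
  [(243, 243, 243), (389, 379, 367), (492, 487, 487), (620, 620, 620), (753, 750, 749), (882, 882, 882), (1016, 1016, 1016), (1149, 1149, 1149), (1282, 1282, 1282), (1416, 1416, 1416), (1549, 1549, 1549), (1682, 1682, 1682), (1816, 1816, 1816), (1949, 1949, 1949), (2082, 2082, 2082), (2216, 2216, 2216), (2349, 2349, 2349), (2482, 2482, 2482), (2616, 2615, 2575), (2626, 2616, 2575), (2626, 2616, 2575), (2647, 2647, 2624)],
  2657, 13483 / 125000⟩

def pot24 : Pot := ⟨24, 206586181 / 1000000000, 1 / 10, -1451 / 100000, -311 / 100000, 13331 / 100000,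
  [(243, 243, 243), (389, 379, 367), (492, 487, 487), (620, 620, 620), (753, 750, 749), (882, 882, 882), (1016, 1016, 1016), (1149, 1149, 1149), (1282, 1282, 1282), (1416, 1416, 1416), (1549, 1549, 1549), (1682, 1682, 1682), (1816, 1816, 1816), (1949, 1949, 1949), (2082, 2082, 2082), (2216, 2216, 2216), (2349, 2349, 2349), (2482, 2482, 2482), (2616, 2615, 2575), (2626, 2616, 2575), (2626, 2616, 2575), (2647, 2647, 2624), (2700, 2700, 2700)],
  2712, 107487 / 1000000⟩

def pots : List Pot := [pot2, pot3, pot4, pot5, pot6, pot7, pot8, pot9, pot10, pot11, pot12, pot13, pot14, pot15, pot16, pot17, pot18, pot19, pot20, pot21, pot22, pot23]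

end Pool.Agent.Lib.MP_70d11c_co
end

-- part Pool.Agent.Lib.MP_70d11c_co.DP
section

namespace Pool.Agent.Lib.MP_70d11c_co

abbrev T3 := ℕ × ℕ × ℕ

noncomputable def lall (f : T3 → Bool) (L : List T3) : Bool :=
  List.rec true (fun e _ r => (f e).rec false r) L

lemma lall_spec {f : T3 → Bool} {L : List T3} (h : lall f L = true) : ∀ e ∈ L, f e = true := by
  induction L with
  | nil => simp
  | cons a L ih =>
    have e : lall f (a :: L) = (f a).rec false (lall f L) := rfl
    rw [e] at h
    cases hf : f a with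
    | false => rw [hf] at h; exact absurd h (by simp)
    | true =>
      rw [hf] at h
      intro i hi
      rcases List.mem_cons.1 hi with rfl | hi
      · exact hf
      · exact ih h i hi

noncomputable def dom1 (a b c : ℕ) (e : T3) : Bool :=
  Prod.rec (fun P q => Prod.rec (fun R d =>
    (Nat.ble (Nat.mul a d) (Nat.mul P c)).rec false
      ((Nat.ble (Nat.mul b d) (Nat.mul R c)).rec false (Nat.ble 1 d))) q) e

noncomputable def dom (a b c : ℕ) (L : List T3) : Bool :=
  List.rec false (fun e _ r => (dom1 a b c e).rec r true) L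

def Dom (u v : ℚ) (L : List T3) : Prop :=
  ∃ e ∈ L, 0 < e.2.2 ∧ u * e.2.2 ≤ e.1 ∧ v * e.2.2 ≤ e.2.1

lemma dom_spec {a b c : ℕ} {L : List T3} (h : dom a b c L = true) {u v : ℚ} (hc : 0 < c)
    (hu : u * c ≤ a) (hv : v * c ≤ b) : Dom u v L := by
  induction L with
  | nil => exact absurd h (by simp [dom])
  | cons e L ih =>
    have e1 : dom a b c (e :: L) = (dom1 a b c e).rec (dom a b c L) true := rfl
    rw [e1] at h
    cases hf : dom1 a b c e with
    | false =>
      rw [hf] at h
      obtain ⟨e', h1, h2⟩ := ih h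
      exact ⟨e', List.mem_cons_of_mem _ h1, h2⟩
    | true =>
      obtain ⟨P, R, d⟩ := e
      have e2 : dom1 a b c (P, R, d) = (Nat.ble (a * d) (P * c)).rec false
        ((Nat.ble (b * d) (R * c)).rec false (Nat.ble 1 d)) := rfl
      rw [e2] at hf
      cases h1 : Nat.ble (a * d) (P * c) with
      | false => rw [h1] at hf; exact absurd hf (by simp)
      | true =>
        cases h2 : Nat.ble (b * d) (R * c) with
        | false => rw [h1, h2] at hf; exact absurd hf (by simp)
        | true =>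
          rw [h1, h2] at hf
          have k1 : ((a * d : ℕ) : ℚ) ≤ (P * c : ℕ) := by exact_mod_cast Nat.le_of_ble_eq_true h1
          have k2 : ((b * d : ℕ) : ℚ) ≤ (R * c : ℕ) := by exact_mod_cast Nat.le_of_ble_eq_true h2
          have k3 : 1 ≤ d := Nat.le_of_ble_eq_true hf
          have hc' : (0 : ℚ) < c := by exact_mod_cast hc
          have hd : (0 : ℚ) ≤ d := by positivity
          push_cast at k1 k2
          refine ⟨(P, R, d), List.mem_cons_self, k3, ?_, ?_⟩
          · exact le_of_mul_le_mul_right (by nlinarith [mul_le_mul_of_nonneg_right hu hd]) hc'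
          · exact le_of_mul_le_mul_right (by nlinarith [mul_le_mul_of_nonneg_right hv hd]) hc'

def ft (s m : ℕ) : List T3 := (FT.getD s []).getD m []
def bt (s : ℕ) : List T3 := BT.getD s []

noncomputable def nodeChk (m : ℕ) (L : List T3) (e : T3) : Bool :=
  Prod.rec (fun P q => Prod.rec (fun R d =>
    dom (Nat.add R P) (Nat.add R (Nat.mul 2 P)) (Nat.mul d (Nat.add m 1)) L) q) e

noncomputable def consChk (L : List T3) (b e : T3) : Bool :=
  Prod.rec (fun Z q' => Prod.rec (fun W c => Prod.rec (fun P q => Prod.rec (fun R d =>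
    dom (Nat.mul P Z) (Nat.add (Nat.mul R Z) (Nat.mul P W)) (Nat.mul d c) L) q) e) q') b

noncomputable def rootChk (m A B : ℕ) (e : T3) : Bool :=
  Nat.ble (Nat.mul e.2.1 B) (Nat.mul (Nat.mul A m) e.2.2)

noncomputable def consAll (Lb Lf L : List T3) : Bool :=
  lall (fun b => lall (consChk L b) Lf) Lb

/-- all checks concerning size `s + 1` -/
noncomputable def dpChk (s : ℕ) : Bool :=
  allUpTo (fun m => lall (nodeChk m (bt (s + 1))) (ft s m)) 10 &&
  allUpTo (fun m => allUpTo (fun c => consAll (bt (c + 1)) (ft (s - c) m) (ft (s + 1) (m + 1)))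
    (s + 1)) 10 &&
  allUpTo (fun m => lall (rootChk (m + 1) (MN (s + 2)) (MD (s + 2))) (ft (s + 1) (m + 1))) 10

lemma dp_node {s : ℕ} (h : dpChk s = true) {l : Multiset X} (hl : ∀ y ∈ l, Pos y)
    (hc : l.card < 10) (hd : Dom (PP l) (PP l * (l.card + SS l)) (ft s l.card)) :
    Dom (node l).Z ((node l).Z * (1 + (node l).p)) (bt (s + 1)) := by
  simp only [dpChk, Bool.and_eq_true] at h
  obtain ⟨⟨P, R, d⟩, h1, h2, h3, h4⟩ := hd
  have := lall_spec (allUpTo_spec h.1.1 _ hc) _ h1
  have hS := SS_nonneg hl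
  simp only at h2 h3 h4
  refine dom_spec (a := R + P) (b := R + 2 * P) (c := d * (l.card + 1)) this (by positivity) ?_ ?_
  · have e : (node l).Z * ((d * (l.card + 1) : ℕ) : ℚ) =
        PP l * (l.card + SS l) * d + PP l * d := by
      simp only [node]; push_cast; field_simp; ring
    rw [e]; push_cast; linarith
  · have e : (node l).Z * (1 + (node l).p) * ((d * (l.card + 1) : ℕ) : ℚ) =
        PP l * (l.card + SS l) * d + 2 * (PP l * d) := by
      simp only [node]; push_cast; field_simp; ring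
    rw [e]; push_cast; linarith

lemma dp_cons {s c : ℕ} (h : dpChk s = true) (hcs : c < s + 1) {l : Multiset X} {x : X}
    (hl : ∀ y ∈ l, Pos y) (hx : Pos x) (hc : l.card < 10)
    (hd : Dom (PP l) (PP l * (l.card + SS l)) (ft (s - c) l.card))
    (hb : Dom x.Z (x.Z * (1 + x.p)) (bt (c + 1))) :
    Dom (PP (x ::ₘ l)) (PP (x ::ₘ l) * ((x ::ₘ l).card + SS (x ::ₘ l)))
      (ft (s + 1) (x ::ₘ l).card) := by
  simp only [dpChk, Bool.and_eq_true] at h
  obtain ⟨⟨P, R, d⟩, h1, h2, h3, h4⟩ := hd
  obtain ⟨⟨Z, W, e⟩, k1, k2, k3, k4⟩ := hb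
  have := lall_spec (lall_spec (allUpTo_spec (allUpTo_spec h.1.2 _ hc) _ hcs) _ k1) _ h1
  have hS := SS_nonneg hl
  have hP := PP_ge hl
  obtain ⟨-, x1, x2, -⟩ := hx
  simp only at h2 h3 h4 k2 k3 k4
  rw [Multiset.card_cons]
  have m1 : PP l * d * (x.Z * e) ≤ P * Z := mul_le_mul h3 k3 (by positivity) (by positivity)
  have m2 : PP l * (l.card + SS l) * d * (x.Z * e) ≤ R * Z :=
    mul_le_mul h4 k3 (by positivity) (by positivity)
  have m3 : PP l * d * (x.Z * (1 + x.p) * e) ≤ P * W :=
    mul_le_mul h3 k4 (by positivity) (by positivity)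
  refine dom_spec (a := P * Z) (b := R * Z + P * W) (c := d * e) this (by positivity) ?_ ?_
  · rw [PP_cons]; push_cast; linarith
  · rw [PP_cons, SS_cons]; push_cast; linarith

lemma dp_forest (h : ∀ s < 45, dpChk s = true) {D : ℕ} (hD : D ≤ 10) :
    ∀ s ≤ 45, ∀ (l : Multiset X) (H : ℕ), (∀ y ∈ l, Br D H y) → l.card ≤ 10 → sz l = s →
      Dom (PP l) (PP l * (l.card + SS l)) (ft s l.card) := by
  intro s
  induction s using Nat.strong_induction_on with
  | _ s ih =>
    intro hs l H hl hc hsz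
    induction l using Multiset.induction_on with
    | empty =>
      simp only [sz_zero] at hsz
      subst hsz
      exact ⟨(1, 0, 1), by decide, by simp⟩
    | cons x l _ =>
      have hx := hl x (Multiset.mem_cons_self _ _)
      have hl' := fun y hy => hl y (Multiset.mem_cons_of_mem hy)
      rw [Multiset.card_cons] at hc
      rw [sz_cons] at hsz
      obtain ⟨H, rfl⟩ : ∃ H', H = H' + 1 := by
        cases H with
        | zero => exact hx.elim
        | succ H => exact ⟨H, rfl⟩
      have hxp := hx.pos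
      obtain ⟨l0, a1, a2, rfl⟩ := hx
      have e0 : (node l0).s = 1 + sz l0 := rfl
      obtain ⟨s, rfl⟩ : ∃ s', s = s' + 1 := ⟨s - 1, by omega⟩
      have b1 := ih (sz l0) (by omega) (by omega) l0 H a2 (by omega) rfl
      have b2 := dp_node (h (sz l0) (by omega)) (fun y hy => (a2 y hy).pos) (by omega) b1
      have b3 := ih (sz l) (by omega) (by omega) l _ hl' (by omega) rfl
      refine dp_cons (c := sz l0) (h s (by omega)) (by omega) (fun y hy => (hl' y hy).pos) hxp
        (by omega) ?_ b2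
      rw [show s - sz l0 = sz l by omega]
      exact b3

lemma dp_root (h : ∀ s < 45, dpChk s = true) {D H n : ℕ} (hD : D ≤ 10) {l : Multiset X}
    (hl : ∀ y ∈ l, Br D H y) (hc1 : 1 ≤ l.card) (hc : l.card ≤ 10) (hn : n = 1 + sz l)
    (hn2 : n ≤ 46) : root l ≤ M n := by
  have hsz := card_le_sz fun y hy => (hl y hy).pos
  obtain ⟨⟨P, R, d⟩, h1, h2, h3, h4⟩ := dp_forest h hD (sz l) (by omega) l H hl hc rfl
  have h5 := h (sz l - 1) (by omega)
  simp only [dpChk, Bool.and_eq_true] at h5
  have h6 := allUpTo_spec h5.2 (l.card - 1) (by omega)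
  rw [show sz l - 1 + 2 = n by omega, show sz l - 1 + 1 = sz l by omega,
    show l.card - 1 + 1 = l.card by omega] at h6
  have h7 : R * MD n ≤ MN n * l.card * d := Nat.le_of_ble_eq_true (lall_spec h6 _ h1)
  obtain ⟨e2, p2⟩ := M_eq (n := n) (by omega)
  have p3 : (0 : ℚ) < MD n := by exact_mod_cast p2
  have p4 : (0 : ℚ) < l.card := by exact_mod_cast hc1
  have p5 : (0 : ℚ) < d := by exact_mod_cast h2
  have h8 : (R : ℚ) * MD n ≤ MN n * l.card * d := by exact_mod_cast h7
  have e : root l = PP l * (l.card + SS l) / l.card := by unfold root; field_simp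
  rw [e, e2, div_le_div_iff₀ p4 p3]
  simp only at h4
  refine le_of_mul_le_mul_right ?_ p5
  nlinarith [mul_le_mul_of_nonneg_right h4 p3.le]

end Pool.Agent.Lib.MP_70d11c_co
end

-- part Pool.Agent.Lib.MP_70d11c_co.Down
section

namespace Pool.Agent.Lib.MP_70d11c_co

open Finset

namespace RT

section join
variable {V W : Type} [DecidableEq V] (T : RT V) (U : RT W)

/-- hang `T` below the root of `U` -/
def join : RT (V ⊕ W) where
  r := Sum.inr U.r
  par := fun z => match z with
    | Sum.inl v => if v = T.r then Sum.inr U.r else Sum.inl (T.par v)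
    | Sum.inr w => Sum.inr (U.par w)
  dep := fun z => match z with
    | Sum.inl v => T.dep v + 1
    | Sum.inr w => U.dep w
  dep_par := by
    rintro (v | w) h
    · by_cases hv : v = T.r
      · simp [hv, U.dep_r, T.dep_r]
      · simp [hv, T.dep_par v hv]
    · simpa using U.dep_par w (fun h' => h (by rw [h']))
  dep_r := U.dep_r

lemma join_edist (h : ℕ) (hT : ∀ v, T.dep v ≤ h) (hU : ∀ w, U.dep w ≤ h) (a b : V ⊕ W) :
    (T.join U).G.edist a b ≤ (2 * h + 1 : ℕ) := by
  have e1 : ∀ v, (T.join U).G.edist (Sum.inl v) (Sum.inl T.r) ≤ h := by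
    intro v
    refine (T.join U).edist_up (fun z => ∃ v, z = Sum.inl v) (Sum.inl T.r)
      (fun z => (T.join U).dep z - 1) ?_ h _ ⟨v, rfl⟩ (hT v)
    rintro _ ⟨v, rfl⟩
    by_cases hv : v = T.r
    · left; rw [hv]
    · right
      have := T.dep_par v hv
      refine ⟨by simp [join], ⟨T.par v, by simp [join, hv]⟩, ?_⟩
      simp only [join, hv, if_false]
      omega
  have e2 : ∀ w, (T.join U).G.edist (Sum.inr w) (Sum.inr U.r) ≤ h := fun w =>
    ((T.join U).edist_r (Sum.inr w)).trans (by exact_mod_cast hU w)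
  have e3 : (T.join U).G.edist (Sum.inl T.r) (Sum.inr U.r) = 1 :=
    SimpleGraph.edist_eq_one_iff_adj.2 (Or.inl ⟨by simp [join], by simp [join]⟩)
  have e4 : ∀ v w, (T.join U).G.edist (Sum.inl v) (Sum.inr w) ≤ (2 * h + 1 : ℕ) := by
    intro v w
    calc _ ≤ (T.join U).G.edist (Sum.inl v) (Sum.inl T.r) +
          (T.join U).G.edist (Sum.inl T.r) (Sum.inr w) := SimpleGraph.edist_triangle
      _ ≤ (T.join U).G.edist (Sum.inl v) (Sum.inl T.r) +
          ((T.join U).G.edist (Sum.inl T.r) (Sum.inr U.r) +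
          (T.join U).G.edist (Sum.inr U.r) (Sum.inr w)) := by
            gcongr; exact SimpleGraph.edist_triangle
      _ ≤ h + (1 + h) := by
            rw [e3, SimpleGraph.edist_comm (u := Sum.inr U.r)]
            gcongr
            · exact e1 v
            · exact e2 w
      _ = _ := by push_cast; ring
  have e5 : ∀ a b c : V ⊕ W, (T.join U).G.edist a c ≤ h → (T.join U).G.edist b c ≤ h →
      (T.join U).G.edist a b ≤ (2 * h + 1 : ℕ) := by
    intro a b c h1 h2
    calc _ ≤ (T.join U).G.edist a c + (T.join U).G.edist c b := SimpleGraph.edist_triangle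
      _ ≤ h + h := by rw [SimpleGraph.edist_comm (u := c)]; gcongr
      _ ≤ _ := by rw [← Nat.cast_add, Nat.cast_le]; omega
  rcases a with v | w <;> rcases b with v' | w'
  · exact e5 _ _ _ (e1 v) (e1 v')
  · exact e4 _ _
  · rw [SimpleGraph.edist_comm]; exact e4 _ _
  · exact e5 _ _ _ (e2 w) (e2 w')

variable [Fintype V] [Fintype W] [DecidableEq W]

lemma join_ch_inl (v : V) : ((T.join U).ch (Sum.inl v)).val = (T.ch v).val.map Sum.inl := by
  rw [← Finset.image_val_of_injOn (Sum.inl_injective.injOn)]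
  congr 1
  ext z
  rw [mem_ch, mem_image]
  rcases z with c | c
  · by_cases hc : c = T.r <;> simp [join, mem_ch, hc]
  · simp [join]

lemma join_ch_inr (w : W) (hw : w ≠ U.r) :
    ((T.join U).ch (Sum.inr w)).val = (U.ch w).val.map Sum.inr := by
  rw [← Finset.image_val_of_injOn (Sum.inr_injective.injOn)]
  congr 1
  ext z
  rw [mem_ch, mem_image]
  rcases z with c | c
  · by_cases hc : c = T.r <;> simp [join, hc, hw.symm]
  · simp [join, mem_ch]

lemma join_ch_r :
    ((T.join U).ch (Sum.inr U.r)).val = Sum.inl T.r ::ₘ (U.ch U.r).val.map Sum.inr := by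
  rw [← Finset.image_val_of_injOn (Sum.inr_injective.injOn),
    ← Finset.insert_val_of_notMem (by simp)]
  congr 1
  ext z
  rw [mem_ch, mem_insert, mem_image]
  rcases z with c | c
  · by_cases hc : c = T.r <;> simp [join, hc]
  · simp [join, mem_ch]

end join

section transport
variable {V W : Type} (T : RT V) (e : V ≃ W)

def tr : RT W where
  r := e T.r
  par := fun w => e (T.par (e.symm w))
  dep := fun w => T.dep (e.symm w)
  dep_par := by
    intro w hw
    simpa using T.dep_par (e.symm w) (fun h => hw (by rw [← h]; simp))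
  dep_r := by simpa using T.dep_r

lemma tr_edist (a b : V) : (T.tr e).G.edist (e a) (e b) ≤ T.G.edist a b := by
  let f : T.G →g (T.tr e).G := ⟨e, fun {u v} h => by
    rcases h with h | h
    · exact Or.inl ⟨by simpa [tr] using h.1, by simpa [tr] using h.2⟩
    · exact Or.inr ⟨by simpa [tr] using h.1, by simpa [tr] using h.2⟩⟩
  obtain ⟨p, hp⟩ := T.connected.exists_walk_length_eq_edist a b
  rw [← hp]
  have := SimpleGraph.edist_le (p.map f)
  rwa [SimpleGraph.Walk.length_map] at this

variable [Fintype V] [Fintype W] [DecidableEq V] [DecidableEq W]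

lemma tr_ch (w : W) : ((T.tr e).ch w).val = (T.ch (e.symm w)).val.map e := by
  rw [← Finset.image_val_of_injOn (e.injective.injOn)]
  congr 1
  ext z
  rw [mem_ch, mem_image]
  constructor
  · rintro ⟨h1, h2⟩
    refine ⟨e.symm z, T.mem_ch.2 ⟨fun h => h1 ?_, ?_⟩, by simp⟩
    · simp [tr, ← h]
    · rw [← h2]; simp [tr]
  · rintro ⟨c, hc, rfl⟩
    rw [mem_ch] at hc
    exact ⟨by simpa [tr] using hc.1, by simp [tr, hc.2]⟩

end transport

end RT

/-- the forest `l` is realised by a rooted tree of depth at most `H` and diameter at most `K` -/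
def Real' (l : Multiset X) (H : ℕ) (K : ℕ∞) : Prop :=
  ∃ (V : Type) (_ : Fintype V) (_ : DecidableEq V) (T : RT V) (x : V → X),
    (∀ v, x v = node ((T.ch v).val.map x)) ∧ (T.ch T.r).val.map x = l ∧ (∀ v, T.dep v ≤ H) ∧
      ∀ u v, T.G.edist u v ≤ K

lemma real_zero (H : ℕ) : Real' 0 H ⊤ := by
  let T : RT Unit := ⟨(), id, fun _ => 0, fun v h => absurd rfl h, rfl⟩
  have : ∀ v, T.ch v = ∅ := fun v => by
    ext c; simp [RT.mem_ch]
  exact ⟨Unit, inferInstance, inferInstance, T, fun _ => node 0, fun v => by simp [this],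
    by simp [this], fun v => Nat.zero_le _, fun _ _ => le_top⟩

lemma real_cons {l l' : Multiset X} {H H' : ℕ} (h : Real' l H ⊤) (h' : Real' l' H' ⊤) :
    Real' (node l ::ₘ l') (max (H + 1) H') (2 * max H H' + 1 : ℕ) := by
  obtain ⟨V, _, _, T, x, h1, h2, h3, -⟩ := h
  obtain ⟨W, _, _, U, y, k1, k2, k3, -⟩ := h'
  let z : V ⊕ W → X := fun a => match a with
    | Sum.inl v => x v
    | Sum.inr w => if w = U.r then node (node l ::ₘ l') else y w
  have hz : ∀ w, (U.ch w).val.map (z ∘ Sum.inr) = (U.ch w).val.map y := fun w =>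
    Multiset.map_congr rfl fun c hc => by simp [z, (U.mem_ch.1 hc).1]
  have hr : ((T.join U).ch (T.join U).r).val.map z = node l ::ₘ l' := by
    have : (T.join U).r = Sum.inr U.r := rfl
    rw [this, RT.join_ch_r, Multiset.map_cons, Multiset.map_map, hz, k2]
    simp only [z]
    rw [h1 T.r, h2]
  refine ⟨V ⊕ W, inferInstance, inferInstance, T.join U, z, ?_, hr, ?_, ?_⟩
  · rintro (v | w)
    · rw [RT.join_ch_inl, Multiset.map_map]
      exact h1 v
    · by_cases hw : w = U.r
      · subst hw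
        have : (T.join U).r = Sum.inr U.r := rfl
        rw [← this, hr]
        simp [z, this]
      · rw [RT.join_ch_inr _ _ _ hw, Multiset.map_map, hz]
        simp only [z, hw, if_false]
        exact k1 w
  · rintro (v | w)
    · have := h3 v
      simp only [RT.join]; omega
    · have := k3 w
      simp only [RT.join]; omega
  · exact T.join_edist U _ (fun v => (h3 v).trans (le_max_left _ _))
      (fun v => (k3 v).trans (le_max_right _ _))

lemma Real'.top {l : Multiset X} {H H' : ℕ} {K : ℕ∞} (h : Real' l H K) (hH : H ≤ H') :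
    Real' l H' ⊤ := by
  obtain ⟨V, _, _, T, x, h1, h2, h3, -⟩ := h
  exact ⟨V, _, _, T, x, h1, h2, fun v => (h3 v).trans hH, fun _ _ => le_top⟩

lemma real_of_Br (D : ℕ) : ∀ (H : ℕ) (l : Multiset X), (∀ y ∈ l, Br D H y) → Real' l H ⊤ := by
  intro H
  induction H with
  | zero =>
    intro l hl
    have : l = 0 := Multiset.eq_zero_of_forall_notMem fun y hy => (hl y hy).elim
    rw [this]; exact real_zero 0
  | succ H ih =>
    intro l
    induction l using Multiset.induction_on with
    | empty => intro _; exact real_zero _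
    | cons a l ihl =>
      intro hl
      obtain ⟨l0, -, h2, rfl⟩ := hl a (Multiset.mem_cons_self _ _)
      exact (real_cons (ih l0 h2) (ihl fun y hy => hl y (Multiset.mem_cons_of_mem hy))).top
        (by omega)

lemma Real'.graph {l : Multiset X} {H : ℕ} {K : ℕ∞} (h : Real' l H K) (hl : 1 ≤ l.card) (n : ℕ)
    (hn : n = 1 + sz l) :
    ∃ G : SimpleGraph (Fin n), G.IsTree ∧ G.ediam ≤ K ∧ G.ediam ≤ (2 * H : ℕ) ∧
      lapRatio G = root l := by
  obtain ⟨V, _, _, T, x, h1, h2, h3, h4⟩ := h
  have hc : Fintype.card V = n := by rw [T.data_card x h1, h2, hn]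
  let e : V ≃ Fin n := Fintype.equivFinOfCardEq hc
  have hx : ∀ w, (x ∘ e.symm) w = node (((T.tr e).ch w).val.map (x ∘ e.symm)) := by
    intro w
    rw [RT.tr_ch, Multiset.map_map, Function.comp_apply, h1]
    congr 1
    exact Multiset.map_congr rfl fun c _ => by simp
  have hl' : ((T.tr e).ch (T.tr e).r).val.map (x ∘ e.symm) = l := by
    rw [RT.tr_ch, Multiset.map_map, ← h2]
    have : e.symm (T.tr e).r = T.r := by simp [RT.tr]
    rw [this]
    exact Multiset.map_congr rfl fun c _ => by simp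
  refine ⟨(T.tr e).G, (T.tr e).isTree, ?_, ?_, ?_⟩
  · refine SimpleGraph.ediam_le_of_edist_le fun a b => ?_
    have := T.tr_edist e (e.symm a) (e.symm b)
    simp only [Equiv.apply_symm_apply] at this
    exact this.trans (h4 _ _)
  · refine SimpleGraph.ediam_le_of_edist_le fun a b => ?_
    calc _ ≤ (T.tr e).G.edist a (T.tr e).r + (T.tr e).G.edist (T.tr e).r b :=
          SimpleGraph.edist_triangle
      _ ≤ H + H := by
          rw [SimpleGraph.edist_comm (u := (T.tr e).r)]
          gcongr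
          · exact ((T.tr e).edist_r a).trans (by exact_mod_cast h3 _)
          · exact ((T.tr e).edist_r b).trans (by exact_mod_cast h3 _)
      _ = _ := by push_cast; ring
  · rw [(T.tr e).data_ratio _ hx, hl']
    rw [← Finset.card_pos, ← Finset.card_val, ← Multiset.card_map (x ∘ e.symm), hl']
    exact hl

lemma down_even (D H n : ℕ) (l : Multiset X) (h : ∀ y ∈ l, Br D H y) (hl : 1 ≤ l.card)
    (hn : n = 1 + sz l) :
    ∃ G : SimpleGraph (Fin n), G.IsTree ∧ G.ediam ≤ (2 * H : ℕ) ∧ lapRatio G = root l := by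
  obtain ⟨G, h1, -, h3, h4⟩ := (real_of_Br D H l h).graph hl n hn
  exact ⟨G, h1, h3, h4⟩

lemma down_odd (D H n : ℕ) (l0 l : Multiset X) (h0 : ∀ y ∈ l0, Br D H y) (h : ∀ y ∈ l, Br D H y)
    (hn : n = 1 + sz (node l0 ::ₘ l)) :
    ∃ G : SimpleGraph (Fin n), G.IsTree ∧ G.ediam ≤ (2 * H + 1 : ℕ) ∧
      lapRatio G = root (node l0 ::ₘ l) := by
  obtain ⟨G, h1, h2, -, h4⟩ :=
    (real_cons (real_of_Br D H l0 h0) (real_of_Br D H l h)).graph (by simp) n hn
  exact ⟨G, h1, by simpa using h2, h4⟩

end Pool.Agent.Lib.MP_70d11c_co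
end

-- part Pool.Agent.Lib.MP_70d11c_co.Small2
section

namespace Pool.Agent.Lib.MP_70d11c_co

lemma interp3 {Z p q K : ℚ} (hq0 : 0 ≤ q) (hq1 : q ≤ 1) (h0 : Z ≤ K) (h1 : Z * (1 + p) ≤ 4 / 3 * K) :
    Z * (1 + p * q) ≤ K * (1 + q / 3) := by
  nlinarith

lemma B1 {l : Multiset X} (h : Stars l) (t : ℕ) (ht : sz l = 2 * t) :
    (node l).Z * (1 + (node l).p / 3) ≤ 4 / 3 * (3 / 2) ^ t := by
  have := K4odd (h.cons 1) (by simp) (t + 1) (by simp [star, ht]; ring)
  rw [root_cons _ h.pos, star_one] at this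
  simp only [Px, pow_succ] at this
  linarith

lemma C1 {l : Multiset X} (h : Stars l) (t : ℕ) (ht : sz l = 2 * t + 1) :
    3 / 2 * ((node l).Z * (1 + (node l).p / 3)) ≤ c4 (2 * t + 4) * (3 / 2) ^ (t + 1) := by
  have := K4even (h.cons 1) (t + 1) (by simp [star, ht]; ring)
  rw [root_cons _ h.pos, star_one] at this
  simp only [Px] at this
  rw [show 2 * t + 4 = 2 * (t + 1) + 2 by ring]
  linarith

lemma A2 {l : Multiset X} (h : Stars l) (t : ℕ) (ht : sz l = 2 * t + 1) {q : ℚ} (hq0 : 0 ≤ q)
    (hq1 : q ≤ 1) : (node l).Z * (1 + (node l).p * q) ≤ (3 / 2) ^ (t + 1) * (1 + q / 3) := by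
  refine interp3 hq0 hq1 ((A1 h t ht).trans (le_of_eq (by ring))) ?_
  have := K4odd (h.cons 0) (by simp) (t + 1) (by simp [star, ht]; ring)
  rw [root_cons _ h.pos, star_zero] at this
  simpa [Lx] using this

def two (l l' : Multiset X) : ℚ := (node l).Z * (node l').Z * (1 + (node l).p * (node l').p)

lemma two_comm (l l' : Multiset X) : two l l' = two l' l := by unfold two; ring

lemma two_eo {l l' : Multiset X} (h : Stars l) (h' : Stars l') (t t' : ℕ) (ht : sz l = 2 * t + 1)
    (ht' : sz l' = 2 * t') : two l l' ≤ 4 / 3 * (3 / 2) ^ (t + t' + 1) := by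
  have p' := pos_node h'.pos
  have e1 := A2 h t ht p'.2.2.1.le p'.2.2.2
  have e2 := B1 h' t' ht'
  have hZ : 0 ≤ (node l').Z := by linarith [p'.2.1]
  calc two l l' = (node l').Z * ((node l).Z * (1 + (node l).p * (node l').p)) := by
        unfold two; ring
    _ ≤ (node l').Z * ((3 / 2) ^ (t + 1) * (1 + (node l').p / 3)) := by gcongr
    _ = (3 / 2) ^ (t + 1) * ((node l').Z * (1 + (node l').p / 3)) := by ring
    _ ≤ (3 / 2) ^ (t + 1) * (4 / 3 * (3 / 2) ^ t') := by gcongr
    _ = _ := by ring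

lemma two_ee {l l' : Multiset X} (h : Stars l) (h' : Stars l') (t t' : ℕ) (ht : sz l = 2 * t + 1)
    (ht' : sz l' = 2 * t' + 1) : two l l' ≤ c4 (2 * t' + 4) * (3 / 2) ^ (t + t' + 1) := by
  have p' := pos_node h'.pos
  have e1 := A2 h t ht p'.2.2.1.le p'.2.2.2
  have e2 := C1 h' t' ht'
  have hZ : 0 ≤ (node l').Z := by linarith [p'.2.1]
  calc two l l' = (node l').Z * ((node l).Z * (1 + (node l).p * (node l').p)) := by
        unfold two; ring
    _ ≤ (node l').Z * ((3 / 2) ^ (t + 1) * (1 + (node l').p / 3)) := by gcongr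
    _ = (3 / 2) ^ t * (3 / 2 * ((node l').Z * (1 + (node l').p / 3))) := by ring
    _ ≤ (3 / 2) ^ t * (c4 (2 * t' + 4) * (3 / 2) ^ (t' + 1)) := by gcongr
    _ = _ := by ring

lemma two_hub (a b : ℕ) : two (Multiset.replicate a Px) (Multiset.replicate b Px) =
    (3 / 2) ^ (a + b) * (16 - (4 * (a + b) - 2) / ((a + 1) * (b + 1))) / 9 := by
  simp only [two, node_rep_P, hub, hubZ, hubp]
  field_simp
  ring

def c5 (n : ℕ) : ℚ := (16 - (2 * n - 6) / ((n + 2) ^ 2 / 16 : ℕ)) / 9

lemma c5_ge (t : ℕ) : 14 / 9 ≤ c5 (2 * t + 2) := by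
  have h1 : 2 * t ≤ (2 * t + 2 + 2) ^ 2 / 16 + 1 := by
    have : (2 * t - 1) ≤ (2 * t + 2 + 2) ^ 2 / 16 := by
      rw [Nat.le_div_iff_mul_le (by norm_num)]
      rcases t with _ | t
      · simp
      · have : 2 * (t + 1) - 1 = 2 * t + 1 := by omega
        rw [this]
        zify
        nlinarith [sq_nonneg ((t : ℤ) - 1)]
    omega
  have h2 : 1 ≤ (2 * t + 2 + 2) ^ 2 / 16 := by
    rw [Nat.le_div_iff_mul_le (by norm_num)]; nlinarith
  unfold c5
  generalize (2 * t + 2 + 2) ^ 2 / 16 = q at *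
  have h3 : (1 : ℚ) ≤ q := by exact_mod_cast h2
  have h4 : (2 : ℚ) * t ≤ q + 1 := by exact_mod_cast h1
  have : (2 * ((2 * t + 2 : ℕ) : ℚ) - 6) / q ≤ 2 := by
    rw [div_le_iff₀ (by linarith)]; push_cast; linarith
  linarith

lemma two_oo {l l' : Multiset X} (h : Stars l) (h' : Stars l') (t t' : ℕ) (ht : sz l = 2 * t)
    (ht' : sz l' = 2 * t') : two l l' ≤ c5 (2 * (t + t') + 2) * (3 / 2) ^ (t + t') := by
  have key : ∀ {l l' : Multiset X}, Stars l → Stars l' → ∀ t t' : ℕ, sz l' = 2 * t' →
      ((node l).Z ≤ 7 / 6 * (3 / 2) ^ t ∧ root (Lx ::ₘ l) ≤ 14 / 9 * (3 / 2) ^ t) →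
      two l l' ≤ 14 / 9 * (3 / 2) ^ (t + t') := by
    intro l l' h h' t t' ht' hb
    have p' := pos_node h'.pos
    rw [root_cons _ h.pos] at hb
    have e1 := interp3 (p := (node l).p) p'.2.2.1.le p'.2.2.2 hb.1
      (by have := hb.2; simp only [Lx] at this; linarith)
    have e2 := B1 h' t' ht'
    have hZ : 0 ≤ (node l').Z := by linarith [p'.2.1]
    calc two l l' = (node l').Z * ((node l).Z * (1 + (node l).p * (node l').p)) := by
          unfold two; ring
      _ ≤ (node l').Z * (7 / 6 * (3 / 2) ^ t * (1 + (node l').p / 3)) := by gcongr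
      _ = 7 / 6 * (3 / 2) ^ t * ((node l').Z * (1 + (node l').p / 3)) := by ring
      _ ≤ 7 / 6 * (3 / 2) ^ t * (4 / 3 * (3 / 2) ^ t') := by gcongr
      _ = _ := by ring
  have hc := c5_ge (t + t')
  rcases D1 h t ht with e | e
  · rcases D1 h' t' ht' with e' | e'
    · rw [e, e', two_hub]
      rcases Nat.eq_zero_or_pos (t + t') with h0 | h0
      · have h1 : t = 0 := by omega
        have h2 : t' = 0 := by omega
        subst h1 h2
        norm_num [c5]
      · have h1 : (t + 1) * (t' + 1) ≤ (2 * (t + t') + 2 + 2) ^ 2 / 16 := by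
          rw [Nat.le_div_iff_mul_le (by norm_num)]
          zify
          nlinarith [sq_nonneg ((t : ℤ) - t')]
        unfold c5
        generalize (2 * (t + t') + 2 + 2) ^ 2 / 16 = q at *
        have h2 : ((t : ℚ) + 1) * (t' + 1) ≤ q := by exact_mod_cast h1
        have h3 : (1 : ℚ) ≤ t + t' := by exact_mod_cast h0
        have h4 : (2 * ((2 * (t + t') + 2 : ℕ) : ℚ) - 6) / q ≤
            (4 * ((t : ℚ) + t') - 2) / ((t + 1) * (t' + 1)) := by
          push_cast
          rw [show (2 : ℚ) * (2 * (t + t') + 2) - 6 = 4 * (t + t') - 2 by ring]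
          apply div_le_div_of_nonneg_left (by linarith) (by positivity) h2
        have h5 : (0 : ℚ) < (3 / 2) ^ (t + t') := by positivity
        nlinarith
    · rw [two_comm]
      refine (key h' h t' t ht e').trans ?_
      rw [add_comm t' t]
      gcongr
  · exact (key h h' t t' ht' e).trans (by gcongr)

lemma stars_of_Br {D : ℕ} {l : Multiset X} (h : ∀ y ∈ l, Br D 2 y) : Stars l :=
  fun y hy => Br_two (h y hy)

lemma root_rep_L (m : ℕ) (hm : 1 ≤ m) : root (Multiset.replicate m Lx) = 2 := by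
  have : (m : ℚ) ≠ 0 := by positivity
  simp only [root, PP_replicate, SS_replicate, Multiset.card_replicate, Lx]
  field_simp; ring

lemma root_double (a b : ℕ) : root (star a ::ₘ Multiset.replicate b Lx) =
    4 - 2 * (a + b + 1) / ((a + 1) * (b + 1)) := by
  simp only [root, PP_cons, SS_cons, PP_replicate, SS_replicate, Multiset.card_cons,
    Multiset.card_replicate, Lx, star]
  push_cast
  field_simp; ring

theorem upper_small (n k : ℕ) (hn : 2 ≤ n) (hk : k ≤ 5) (G : SimpleGraph (Fin n)) (hG : G.IsTree)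
    (hd : G.ediam ≤ k) : lapRatio G ≤ maxRatio n k := by
  obtain ⟨x0, l, D, H, H', h1, h2, h3, h4, h5, h6, h7⟩ := up_diam G hG (by simpa using hn) k hd
  rw [Fintype.card_fin] at h6
  rw [h7]
  by_cases k2 : k ≤ 2
  · have e : x0 ::ₘ l = Multiset.replicate (l.card + 1) Lx := by
      rw [Multiset.eq_replicate]
      refine ⟨by simp, fun y hy => ?_⟩
      rcases Multiset.mem_cons.1 hy with rfl | hy
      · exact Br_one (h4.mono (by omega))
      · exact Br_one ((h5 y hy).mono (by omega))
    rw [e, root_rep_L _ (by omega), maxRatio, if_pos k2]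
  by_cases k3 : k = 3
  · obtain ⟨a, rfl⟩ := Br_two (h4.mono (show H ≤ 2 by omega))
    have e : l = Multiset.replicate l.card Lx :=
      Multiset.eq_replicate.2 ⟨rfl, fun y hy => Br_one ((h5 y hy).mono (by omega))⟩
    generalize l.card = b at e
    subst e
    rw [root_double, maxRatio, if_neg k2, if_pos k3]
    simp only [sz_cons, sz_replicate, star, Lx] at h6
    have q1 : (a + 1) * (b + 1) ≤ n ^ 2 / 4 := by
      rw [Nat.le_div_iff_mul_le (by norm_num), h6]
      zify
      nlinarith [sq_nonneg ((a : ℤ) - b)]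
    have q2 : ((a : ℚ) + 1) * (b + 1) ≤ (n ^ 2 / 4 : ℕ) := by exact_mod_cast q1
    have q3 : (n : ℚ) - 1 = a + b + 1 := by rw [h6]; push_cast; ring
    rw [q3]
    gcongr
  have hl : Stars l := stars_of_Br fun y hy => (h5 y hy).mono (by omega)
  rw [maxRatio, if_neg k2, if_neg k3]
  by_cases k4 : k = 4
  · have hl' : Stars (x0 ::ₘ l) := by
      obtain ⟨a, rfl⟩ := Br_two (h4.mono (show H ≤ 2 by omega))
      exact hl.cons a
    rcases Nat.even_or_odd' n with ⟨t, ht | ht⟩
    · obtain ⟨u, rfl⟩ : ∃ u, t = u + 1 := ⟨t - 1, by omega⟩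
      have := K4even hl' u (by omega)
      rw [if_neg (by omega)]
      have e : n / 2 - 1 = u := by omega
      have e' : 2 * u + 2 = n := by omega
      rw [e'] at this
      rw [e]
      unfold c4 at this
      by_cases h10 : n ≤ 10
      · rw [if_pos h10] at this
        rw [if_pos ⟨k4, h10⟩]
        exact this.trans (le_of_eq (by ring))
      · rw [if_neg h10] at this
        rw [if_neg (fun h => h10 h.2), if_pos k4]
        exact this.trans (le_of_eq (by ring))
    · rw [if_pos ⟨hk, by omega⟩, show n / 2 = t by omega]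
      exact K4odd hl' (by simp) t (by omega)
  have k5 : k = 5 := by omega
  obtain ⟨l0, -, h8, rfl⟩ := h4.mono (show H ≤ 3 by omega)
  have hl0 : Stars l0 := stars_of_Br h8
  rw [root_cons _ hl.pos]
  change two l0 l ≤ _
  simp only [sz_cons, node] at h6
  rcases Nat.even_or_odd' (sz l0) with ⟨t, ht | ht⟩ <;>
    rcases Nat.even_or_odd' (sz l) with ⟨t', ht' | ht'⟩
  · rw [if_neg (by omega), if_neg (by omega), if_neg k4, if_pos k5]
    have := two_oo hl0 hl t t' ht ht'
    rw [show 2 * (t + t') + 2 = n by omega] at this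
    rw [show n / 2 - 1 = t + t' by omega]
    exact this.trans (le_of_eq (by unfold c5; ring))
  · rw [if_pos ⟨hk, by omega⟩, show n / 2 = t' + t + 1 by omega, two_comm]
    exact two_eo hl hl0 t' t ht' ht
  · rw [if_pos ⟨hk, by omega⟩, show n / 2 = t + t' + 1 by omega]
    exact two_eo hl0 hl t t' ht ht'
  · rw [if_neg (by omega), if_neg (by omega), if_neg k4, if_pos k5]
    have hc := c5_ge (t + t' + 1)
    rw [show 2 * (t + t' + 1) + 2 = n by omega] at hc
    rw [show n / 2 - 1 = t + t' + 1 by omega]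
    have e : (3 / 2 : ℚ) ^ (t + t' + 1) * (16 - (2 * n - 6) / ((n + 2) ^ 2 / 16 : ℕ)) / 9 =
        c5 n * (3 / 2) ^ (t + t' + 1) := by unfold c5; ring
    rw [e]
    rcases Nat.eq_zero_or_pos t' with h0 | h0
    · rcases Nat.eq_zero_or_pos t with h00 | h00
      · refine (two_ee hl0 hl t t' ht ht').trans (le_of_eq ?_)
        rw [show n = 4 by omega, h0]
        norm_num [c4, c5]
      · rw [two_comm]
        refine (two_ee hl hl0 t' t ht' ht).trans ?_
        rw [add_comm t' t]
        gcongr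
        exact (c4_le _ (by omega)).trans hc
    · refine (two_ee hl0 hl t t' ht ht').trans ?_
      gcongr
      exact (c4_le _ (by omega)).trans hc

theorem attain_small (n k : ℕ) (hn : 2 ≤ n) (hk : k ≤ 5)
    (hex : ∃ G : SimpleGraph (Fin n), G.IsTree ∧ G.ediam ≤ k) :
    ∃ G : SimpleGraph (Fin n), G.IsTree ∧ G.ediam ≤ k ∧ lapRatio G = maxRatio n k := by
  have repL : ∀ a : ℕ, ∀ y ∈ Multiset.replicate a Lx, Br 3 1 y := fun a y hy => by
    rw [Multiset.eq_of_mem_replicate hy]; exact Br_L (by norm_num)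
  have repP : ∀ a : ℕ, ∀ y ∈ Multiset.replicate a Px, Br 3 2 y := fun a y hy => by
    rw [Multiset.eq_of_mem_replicate hy]; exact Br_P (by norm_num)
  by_cases k1 : k ≤ 1
  · obtain ⟨G, hG, hd⟩ := hex
    refine ⟨G, hG, hd, ?_⟩
    obtain ⟨x0, l, D, H, H', h1, h2, h3, h4, h5, h6, h7⟩ := up_diam G hG (by simpa using hn) k hd
    have e : x0 ::ₘ l = Multiset.replicate (l.card + 1) Lx := by
      rw [Multiset.eq_replicate]
      refine ⟨by simp, fun y hy => ?_⟩
      rcases Multiset.mem_cons.1 hy with rfl | hy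
      · exact Br_one (h4.mono (by omega))
      · exact Br_one ((h5 y hy).mono (by omega))
    rw [h7, e, root_rep_L _ (by omega), maxRatio, if_pos (by omega)]
  by_cases k2 : k = 2
  · obtain ⟨G, h1, h2, h3⟩ := down_even 3 1 n _ (repL (n - 1)) (by simp; omega)
      (by simp [Lx]; omega)
    exact ⟨G, h1, by simpa [k2] using h2, by
      rw [h3, root_rep_L _ (by omega), maxRatio, if_pos (by omega)]⟩
  by_cases k3 : k = 3
  · obtain ⟨G, h1, h2, h3⟩ := down_odd 3 1 n _ _ (repL (n / 2 - 1)) (repL (n - n / 2 - 1))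
      (by simp [Lx, node]; omega)
    refine ⟨G, h1, by simpa [k3] using h2, ?_⟩
    rw [h3, node_rep_L, root_double, maxRatio, if_neg (by omega), if_pos k3]
    have q1 : n ^ 2 / 4 = (n / 2 - 1 + 1) * (n - n / 2 - 1 + 1) := by
      rcases Nat.even_or_odd' n with ⟨t, rfl | rfl⟩
      · rw [show 2 * t / 2 - 1 + 1 = t by omega, show 2 * t - 2 * t / 2 - 1 + 1 = t by omega,
          show (2 * t) ^ 2 = 4 * (t * t) by ring]
        omega
      · rw [show (2 * t + 1) / 2 - 1 + 1 = t by omega,
          show 2 * t + 1 - (2 * t + 1) / 2 - 1 + 1 = t + 1 by omega,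
          show (2 * t + 1) ^ 2 = 4 * (t * (t + 1)) + 1 by ring]
        omega
    have q3 : (n : ℚ) - 1 = (n / 2 - 1 : ℕ) + (n - n / 2 - 1 : ℕ) + 1 := by
      have : n = (n / 2 - 1) + (n - n / 2 - 1) + 2 := by omega
      conv_lhs => rw [this]
      push_cast; ring
    rw [q1, q3]
    push_cast; ring
  have hk4 : (4 : ℕ∞) ≤ k := by exact_mod_cast (show 4 ≤ k by omega)
  rw [maxRatio, if_neg (by omega), if_neg k3]
  rcases Nat.even_or_odd' n with ⟨t, ht | ht⟩
  · obtain ⟨u, rfl⟩ : ∃ u, t = u + 1 := ⟨t - 1, by omega⟩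
    rw [if_neg (by omega), show n / 2 - 1 = u by omega]
    by_cases k4 : k = 4
    · by_cases h10 : n ≤ 10
      · obtain ⟨G, h1, h2, h3⟩ := down_even 3 2 n (star 0 ::ₘ Multiset.replicate u Px)
          (fun y hy => by
            rcases Multiset.mem_cons.1 hy with rfl | hy
            · exact Br_star (by norm_num)
            · exact repP _ y hy) (by simp) (by simp [star, Px]; omega)
        refine ⟨G, h1, h2.trans hk4, ?_⟩
        rw [h3, if_pos ⟨k4, h10⟩, ht]
        simp only [root, PP_cons, SS_cons, PP_replicate, SS_replicate, Multiset.card_cons,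
          Multiset.card_replicate, Px, star]
        push_cast
        field_simp; ring
      · obtain ⟨v, rfl⟩ : ∃ v, u = v + 1 := ⟨u - 1, by omega⟩
        obtain ⟨G, h1, h2, h3⟩ := down_even 3 2 n (star 2 ::ₘ Multiset.replicate v Px)
          (fun y hy => by
            rcases Multiset.mem_cons.1 hy with rfl | hy
            · exact Br_star (by norm_num)
            · exact repP _ y hy) (by simp) (by simp [star, Px]; omega)
        refine ⟨G, h1, h2.trans hk4, ?_⟩
        rw [h3, if_neg (fun h => h10 h.2), if_pos k4, ht]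
        simp only [root, PP_cons, SS_cons, PP_replicate, SS_replicate, Multiset.card_cons,
          Multiset.card_replicate, Px, star]
        push_cast
        rw [show (2 : ℚ) * (v + 1 + 1) - 2 = 2 * (v + 1) by ring]
        field_simp; ring
    · have k5 : k = 5 := by omega
      obtain ⟨G, h1, h2, h3⟩ := down_odd 3 2 n _ _ (repP (u / 2)) (repP (u - u / 2))
        (by simp [Px, node]; omega)
      refine ⟨G, h1, by simpa [k5] using h2, ?_⟩
      rw [h3, if_neg (fun h => k4 h.1), if_neg k4, if_pos k5,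
        root_cons _ fun y hy => (repP _ y hy).pos]
      change two _ _ = _
      rw [two_hub]
      have q1 : (n + 2) ^ 2 / 16 = (u / 2 + 1) * (u - u / 2 + 1) := by
        rw [ht]
        rcases Nat.even_or_odd' u with ⟨t, rfl | rfl⟩
        · rw [show 2 * t / 2 = t by omega, show 2 * t - t = t by omega,
            show (2 * (2 * t + 1) + 2) ^ 2 = 16 * ((t + 1) * (t + 1)) by ring]
          omega
        · rw [show (2 * t + 1) / 2 = t by omega, show 2 * t + 1 - t = t + 1 by omega,
            show (2 * (2 * t + 1 + 1) + 2) ^ 2 = 16 * ((t + 1) * (t + 1 + 1)) + 4 by ring]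
          omega
      have q3 : (n : ℚ) = 2 * ((u / 2 : ℕ) + (u - u / 2 : ℕ)) + 2 := by
        have : n = 2 * (u / 2 + (u - u / 2)) + 2 := by omega
        conv_lhs => rw [this]
        push_cast; ring
      rw [q1, q3, show u / 2 + (u - u / 2) = u by omega]
      push_cast; ring
  · rw [if_pos ⟨hk, by omega⟩, show n / 2 = t by omega]
    obtain ⟨G, h1, h2, h3⟩ := down_even 3 2 n _ (repP t) (by simp; omega) (by simp [Px]; omega)
    refine ⟨G, h1, h2.trans hk4, ?_⟩
    have : (t : ℚ) ≠ 0 := by have : t ≠ 0 := by omega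
                             positivity
    rw [h3]
    simp only [root, PP_replicate, SS_replicate, Multiset.card_replicate, Px]
    field_simp; ring

end Pool.Agent.Lib.MP_70d11c_co
end
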