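import Pool.Agent.Lib.MP_70d11c_co.Fam
import Pool.Agent.Lib.MP_70d11c_co.Bal
import Pool.Agent.Lib.MP_70d11c_co.DPChk
import Pool.Agent.Lib.MP_70d11c_co.PotChkA
import Pool.Agent.Lib.MP_70d11c_co.PotChkB
import Pool.Agent.Lib.MP_70d11c_co.PotChkC
import Pool.Agent.Lib.MP_70d11c_co.Small2

namespace Pool.Agent.Lib.MP_70d11c_co

open Real

lemma pots_ok : ∀ c ∈ pots, (c.stepAll && c.rootOK) = true := by
  intro c hc
  simp only [pots, List.mem_cons, List.not_mem_nil, or_false] at hc
  rcases hc with rfl | rfl | rfl | rfl | rfl | rfl | rfl | rfl | rfl | rfl | rfl | rfl | rfl | rfl |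
    rfl | rfl | rfl | rfl | rfl | rfl | rfl | rfl
  exacts [pot2_ok, pot3_ok, pot4_ok, pot5_ok, pot6_ok, pot7_ok, pot8_ok, pot9_ok, pot10_ok,
    pot11_ok, pot12_ok, pot13_ok, pot14_ok, pot15_ok, pot16_ok, pot17_ok, pot18_ok, pot19_ok,
    pot20_ok, pot21_ok, pot22_ok, pot23_ok]

lemma root_pos {l : Multiset X} (h : ∀ y ∈ l, Pos y) : 0 < root l := by
  have h1 := PP_ge h
  have h2 := SS_nonneg h
  unfold root
  positivity

lemma sz_le_good {l : Multiset X} (h : ∀ y ∈ l, Good y) : sz l ≤ 17 * l.card := by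
  have := Multiset.sum_le_card_nsmul (l.map X.s) 17 (by
    intro x hx
    obtain ⟨y, hy, rfl⟩ := Multiset.mem_map.1 hx
    rcases h y hy with rfl | ⟨a, -, h2, rfl⟩
    · simp [Px]
    · simp only [hub]; omega)
  rw [Multiset.card_map, smul_eq_mul, mul_comm] at this
  exact this

theorem root_upper {l : Multiset X} {H n : ℕ} (h1 : 1 ≤ l.card) (h2 : ∀ y ∈ l, Br l.card H y)
    (hn : n = 1 + sz l) : root l ≤ M n := by
  have hpos : ∀ y ∈ l, Pos y := fun y hy => (h2 y hy).pos
  have hsz := card_le_sz hpos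
  by_cases hA : l.card ≤ 10 ∧ n ≤ 46
  · exact dp_root dp_ok hA.1 h2 h1 hA.1 hn hA.2
  by_cases hG : ∀ y ∈ l, Good y
  · have := sz_le_good hG
    obtain ⟨j, a, x, y, k1, k2, k3, k4, k5⟩ := good_bal hG (by omega)
    exact k5.trans (fam_upper (by omega) k1 k2 (by omega))
  push Not at hG
  obtain ⟨y0, hy0, hbad⟩ := hG
  suffices h : log (root l) ≤ log (M n) by
    have := (Real.log_le_log_iff (by exact_mod_cast root_pos hpos)
      (by exact_mod_cast M_pos n)).1 h
    exact_mod_cast this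
  have hlow := low (n := n) (by omega)
  rw [show n - 1 = sz l by omega] at hlow
  by_cases h24 : 24 ≤ l.card
  · exact (big_bad h2 h24 hy0 hbad).trans hlow
  have hD2 : 2 ≤ l.card := by
    by_contra h0
    obtain ⟨z, rfl⟩ := Multiset.card_eq_one.1 (show l.card = 1 by omega)
    have hz := h2 z (Multiset.mem_singleton_self z)
    cases H with
    | zero => exact hz.elim
    | succ H =>
      obtain ⟨l0, a1, -, rfl⟩ := hz
      have : l0 = 0 := Multiset.card_eq_zero.1 (by simpa using a1)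
      subst this
      simp [sz, node] at hn hA
      omega
  obtain ⟨c, hc, hcD⟩ := pots_D l.card (by omega) hD2
  have ok := pots_ok c hc
  rw [Bool.and_eq_true] at ok
  have b1 := Pot.root_ok ok.1 ok.2 hcD.symm (by rw [hcD]; exact h2) hy0 hbad
  refine b1.trans ?_
  by_cases hn2 : n ≤ 392
  · have k1 := low_ok (n := n) (by omega) hn2
    simp only [lowChk2, Bool.and_eq_true, List.all_eq_true, Bool.or_eq_true,
      decide_eq_true_eq] at k1
    rcases k1.2 c hc with (k | k) | k
    · exact absurd ⟨hcD ▸ k.1, k.2⟩ hA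
    · omega
    · rw [show n - 1 = sz l by omega] at k
      have k' : ((c.mu * (sz l : ℚ) + c.C : ℚ) : ℝ) ≤ LB n := by exact_mod_cast k
      push_cast at k'
      exact k'.trans (LB_le n)
  · have k1 := List.all_eq_true.1 pots_far c hc
    simp only [Bool.and_eq_true, decide_eq_true_eq] at k1
    have k2 : (c.mu : ℝ) ≤ wlo := by exact_mod_cast k1.1
    have k3 : ((c.mu * 392 + c.C : ℚ) : ℝ) ≤ ((wlo * 392 + logLo (26 / 23) - eta0 : ℚ) : ℝ) := by
      exact_mod_cast k1.2
    rw [Rat.cast_add, Rat.cast_sub, Rat.cast_add, Rat.cast_mul, Rat.cast_mul] at k3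
    have k4 := wlo_le
    have k5 := le_g0
    have k6 : (392 : ℝ) ≤ sz l := by exact_mod_cast (show 392 ≤ sz l by omega)
    norm_num only at k3
    nlinarith

theorem upper_big (n : ℕ) (hn : 2 ≤ n) (G : SimpleGraph (Fin n)) (hG : G.IsTree) :
    lapRatio G ≤ M n := by
  obtain ⟨l, H, h1, h2, h3, h4⟩ := up_max G hG (by simpa using hn)
  rw [Fintype.card_fin] at h3
  rw [h4]
  exact root_upper h1 h2 h3

theorem attain_fam {n j m : ℕ} (hv : Valid n j m) :
    ∃ G : SimpleGraph (Fin n), G.IsTree ∧ G.ediam ≤ (6 : ℕ) ∧ lapRatio G = fam n j m := by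
  obtain ⟨k1, k2⟩ := hv.decomp
  obtain ⟨v1, v2, v3, v4⟩ := hv
  unfold fam
  generalize ((n - 1 - m) / 2 - j) / m = a at *
  generalize ((n - 1 - m) / 2 - j) % m = y at *
  obtain ⟨x, rfl⟩ : ∃ x, m = x + y := ⟨m - y, by omega⟩
  rw [Nat.add_sub_cancel] at k2 ⊢
  rw [← root_fam]
  refine down_even (a + 2) 3 n _ (fun z hz => ?_) (by simp; omega) ?_
  · rcases Multiset.mem_add.1 hz with hz | hz
    · rcases Multiset.mem_add.1 hz with hz | hz
      · rw [Multiset.eq_of_mem_replicate hz]; exact (Br_P (by omega)).succ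
      · rw [Multiset.eq_of_mem_replicate hz]; exact Br_hub (by omega) (by omega)
    · rw [Multiset.eq_of_mem_replicate hz]; exact Br_hub (by omega) (by omega)
  · simp only [sz_add, sz_replicate, Px, hub]
    have : n = 1 + (x + y) + 2 * (j + a * x + (a + 1) * y) := by omega
    rw [this]; ring

theorem main (n k : ℕ) (hn : 2 ≤ n)
    (hex : ∃ T : SimpleGraph (Fin n), T.IsTree ∧ T.ediam ≤ k) :
    IsGreatest {x : ℚ | ∃ T : SimpleGraph (Fin n), T.IsTree ∧ T.ediam ≤ k ∧ lapRatio T = x}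
      (maxRatio n k) := by
  by_cases hk : k ≤ 5
  · refine ⟨attain_small n k hn hk hex, ?_⟩
    rintro _ ⟨T, h1, h2, rfl⟩
    exact upper_small n k hn hk T h1 h2
  · have e : maxRatio n k = M n := by
      unfold maxRatio M
      rw [if_neg (by omega), if_neg (by omega), if_neg (by omega), if_neg (by omega),
        if_neg (by omega), if_neg (by omega)]
    rw [e]
    constructor
    · obtain ⟨G, h1, h2, h3⟩ := attain_fam (valid_opt hn)
      exact ⟨G, h1, h2.trans (by exact_mod_cast (show 6 ≤ k by omega)), h3⟩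
    · rintro _ ⟨T, h1, -, rfl⟩
      exact upper_big n hn T h1

end Pool.Agent.Lib.MP_70d11c_co
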