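import Pool.Agent.Lib.MP_70d11c_co.Logs

namespace Pool.Agent.Lib.MP_70d11c_co

open Real

def lHt : List ℕ := [0, 559615789, 1011600914, 1439538879, 1858249215, 2272448004, 2684105083,
  3094189138, 3503232068, 3911550246, 4319343645, 4726744863, 5133845295, 5540709984, 5947386481,
  6353910351, 6760308731, 7166602684, 7572808808, 7978940362, 8385008062, 8791020666, 9196985400,
  9602908280]

def lH (a : ℕ) : ℚ := (lHt.getD a 0 : ℚ) / 1000000000

lemma lH_ok : ∀ a : ℕ, a < 24 → a * lP + logHi ((4 * a + 3) / (3 * a + 3)) ≤ lH a := by decide +kernel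

lemma log_hub_le {a : ℕ} (ha : a < 24) : log (hubZ a) ≤ lH a := by
  have h1 : ((a * lP + logHi ((4 * a + 3) / (3 * a + 3)) : ℚ) : ℝ) ≤ lH a := by
    exact_mod_cast lH_ok a ha
  have h2 := le_logHi (hub_frac a)
  have h3 := log_P_le
  have h4 : (0 : ℝ) ≤ a := by positivity
  rw [log_hubZ]
  rw [Rat.cast_add, Rat.cast_mul, Rat.cast_natCast] at h1
  nlinarith

structure Pot where
  D : ℕ
  mu : ℚ
  tau : ℚ
  b0 : ℚ
  b1 : ℚ
  b2 : ℚ
  qs : List (ℕ × ℕ × ℕ)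
  q : ℕ
  C : ℚ

def valP (μ t : ℚ) : ℚ := lP - 2 * μ + t / 3
def valH (μ t : ℚ) (a : ℕ) : ℚ := lH a - μ * (2 * a + 1) + t * hubp a
def hubMax (μ t : ℚ) (lo hi : ℕ) : ℚ := ((List.range' lo (hi - lo)).map (valH μ t)).foldr max (-1)

namespace Pot
variable (c : Pot)

def beta (t : ℚ) : ℚ :=
  max (c.b0 + (c.b1 - c.b0) * t / c.tau) (c.b1 + (c.b2 - c.b1) * (t - c.tau) / (1 / 2 - c.tau))
def allV (t : ℚ) : ℚ := max (valP c.mu t) (max (hubMax c.mu t 0 c.D) (c.beta t))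
def nonP (t : ℚ) (m : ℕ) : ℚ := max (hubMax c.mu t (if m = 1 then 1 else 0) c.D) (c.beta t)
def step2 (m : ℕ) (t b q0 t' : ℚ) : Bool :=
  decide (-c.mu + logHi (q0 / (m + 1)) + t / q0 - t' * (q0 - (m + 1)) +
    ((m - 1) * c.allV t' + c.nonP t' m) ≤ b)
def step1 (m : ℕ) (t b q0 : ℚ) : Bool :=
  decide ((m : ℚ) + 1 ≤ q0) && c.step2 m t b q0 (1 / q0 - t / q0 ^ 2)
def stepM (m : ℕ) (q : ℕ × ℕ × ℕ) : Bool :=
  c.step1 m 0 c.b0 (q.1 / 100) && c.step1 m c.tau c.b1 (q.2.1 / 100) &&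
    c.step1 m (1 / 2) c.b2 (q.2.2 / 100)
def stepAll : Bool :=
  decide (0 < c.tau) && decide (c.tau < 1 / 2) && decide (c.D ≤ 24) &&
    (List.range (c.D - 1)).all fun i => c.stepM (i + 1) (c.qs.getD i (0, 0, 0))
def rootC (q0 : ℚ) : ℚ :=
  logHi (q0 / c.D) - 1 / q0 * (q0 - c.D) + ((c.D - 1) * c.allV (1 / q0) +
    max (c.beta (1 / q0)) (max (hubMax c.mu (1 / q0) 0 3) (hubMax c.mu (1 / q0) 9 c.D)))
def rootOK : Bool :=
  decide (2 ≤ c.D) && decide ((c.D : ℚ) ≤ c.q / 100) && decide (c.rootC (c.q / 100) ≤ c.C)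

def Bad (μ : ℝ) (x : X) : Prop :=
  ell μ x ≤ c.b0 ∧ ell μ x + c.tau * x.p ≤ c.b1 ∧ ell μ x + 1 / 2 * x.p ≤ c.b2

def Cls (μ : ℝ) (x : X) : Prop := x = Px ∨ (∃ a < c.D, x = hub a) ∨ c.Bad μ x

variable {c} {μ : ℝ}

lemma beta_ge {x : X} (h0 : 0 < c.tau) (h1 : c.tau < 1 / 2) (hx : c.Bad μ x) {t : ℚ} (ht0 : 0 ≤ t)
    (ht1 : t ≤ 1 / 2) : ell μ x + t * x.p ≤ c.beta t := by
  obtain ⟨k0, k1, k2⟩ := hx
  have h0' : (0 : ℝ) < c.tau := by exact_mod_cast h0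
  have h1' : (c.tau : ℝ) < 1 / 2 := by
    have : ((c.tau : ℚ) : ℝ) < ((1 / 2 : ℚ) : ℝ) := by exact_mod_cast h1
    simpa using this
  have ht0' : (0 : ℝ) ≤ t := by exact_mod_cast ht0
  have ht1' : (t : ℝ) ≤ 1 / 2 := by
    have : ((t : ℚ) : ℝ) ≤ ((1 / 2 : ℚ) : ℝ) := by exact_mod_cast ht1
    simpa using this
  unfold beta
  push_cast
  rcases le_total (t : ℝ) c.tau with h | h
  · refine le_trans ?_ (le_max_left _ _)
    have e : (c.b0 : ℝ) + (c.b1 - c.b0) * t / c.tau =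
        ((c.tau - t) * c.b0 + t * c.b1) / c.tau := by field_simp; ring
    rw [e, le_div_iff₀ h0']
    have a1 := mul_le_mul_of_nonneg_left k0 (sub_nonneg.2 h)
    have a2 := mul_le_mul_of_nonneg_left k1 ht0'
    nlinarith
  · refine le_trans ?_ (le_max_right _ _)
    have h2 : (0 : ℝ) < 1 / 2 - c.tau := by linarith
    have e : (c.b1 : ℝ) + (c.b2 - c.b1) * (t - c.tau) / (1 / 2 - c.tau) =
        ((1 / 2 - t) * c.b1 + (t - c.tau) * c.b2) / (1 / 2 - c.tau) := by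
      rw [eq_div_iff h2.ne', add_mul, div_mul_cancel₀ _ h2.ne']; ring
    rw [e, le_div_iff₀ h2]
    have a1 := mul_le_mul_of_nonneg_left k1 (sub_nonneg.2 ht1')
    have a2 := mul_le_mul_of_nonneg_left k2 (sub_nonneg.2 h)
    nlinarith

end Pot

lemma valP_ge {μ : ℝ} {m : ℚ} (hm : (m : ℝ) ≤ μ) (t : ℚ) :
    ell μ Px + t * Px.p ≤ valP m t := by
  have := log_P_le
  simp only [ell, Px, valP]
  push_cast
  linarith

lemma valH_ge {μ : ℝ} {m : ℚ} (hm : (m : ℝ) ≤ μ) (t : ℚ) {a : ℕ} (ha : a < 24) :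
    ell μ (hub a) + t * (hub a).p ≤ valH m t a := by
  have := log_hub_le ha
  simp only [ell, hub, valH]
  push_cast
  have h4 : (0 : ℝ) ≤ a := by positivity
  nlinarith

lemma le_foldr_max {L : List ℚ} {v z : ℚ} (h : v ∈ L) : v ≤ L.foldr max z := by
  induction L with
  | nil => simp at h
  | cons a L ih =>
    rcases List.mem_cons.1 h with rfl | h
    · exact le_max_left _ _
    · exact (ih h).trans (le_max_right _ _)

lemma hubMax_ge {μ : ℝ} {m : ℚ} (hm : (m : ℝ) ≤ μ) (t : ℚ) {a lo hi : ℕ} (h1 : lo ≤ a) (h2 : a < hi)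
    (ha : a < 24) : ell μ (hub a) + t * (hub a).p ≤ hubMax m t lo hi := by
  refine (valH_ge hm t ha).trans ?_
  have : valH m t a ≤ hubMax m t lo hi :=
    le_foldr_max (List.mem_map.2 ⟨a, List.mem_range'_1.2 ⟨h1, by omega⟩, rfl⟩)
  exact_mod_cast this

namespace Pot
variable {c : Pot} {μ : ℝ}

lemma allV_ge (hm : (c.mu : ℝ) ≤ μ) (h0 : 0 < c.tau) (h1 : c.tau < 1 / 2) (hD : c.D ≤ 24) {x : X}
    (hx : c.Cls μ x) {t : ℚ} (ht0 : 0 ≤ t) (ht1 : t ≤ 1 / 2) :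
    ell μ x + t * x.p ≤ c.allV t := by
  unfold allV
  push_cast
  rcases hx with rfl | ⟨a, ha, rfl⟩ | hx
  · exact (valP_ge hm t).trans (le_max_left _ _)
  · exact (hubMax_ge hm t (Nat.zero_le _) ha (by omega)).trans
      ((le_max_left _ _).trans (le_max_right _ _))
  · exact (beta_ge h0 h1 hx ht0 ht1).trans ((le_max_right _ _).trans (le_max_right _ _))

lemma step1_ok (hm : (c.mu : ℝ) ≤ μ) (h0 : 0 < c.tau) (h1 : c.tau < 1 / 2) (hD : c.D ≤ 24)
    {l : Multiset X} (hl : ∀ y ∈ l, Pos y) (hc : ∀ y ∈ l, c.Cls μ y) {y0 : X} (hy0 : y0 ∈ l)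
    (hP : y0 ≠ Px) (hL : l.card = 1 → y0 ≠ Lx) {t b q0 : ℚ} (ht0 : 0 ≤ t) (ht1 : t ≤ 1 / 2)
    (h : c.step1 l.card t b q0 = true) : ell μ (node l) + t * (node l).p ≤ b := by
  simp only [step1, step2, Bool.and_eq_true, decide_eq_true_eq] at h
  obtain ⟨k1, k2⟩ := h
  have hm1 : (1 : ℚ) ≤ l.card := by
    exact_mod_cast Multiset.card_pos_iff_exists_mem.2 ⟨y0, hy0⟩
  have hq2 : (2 : ℚ) ≤ q0 := by linarith
  have t0 : 0 ≤ 1 / q0 - t / q0 ^ 2 := by
    have : 1 / q0 - t / q0 ^ 2 = (q0 - t) / q0 ^ 2 := by field_simp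
    rw [this]; exact div_nonneg (by linarith) (by positivity)
  have t1 : 1 / q0 - t / q0 ^ 2 ≤ 1 / 2 := by
    have a1 : 1 / q0 ≤ 1 / 2 := one_div_le_one_div_of_le (by norm_num) hq2
    have a2 : 0 ≤ t / q0 ^ 2 := by positivity
    linarith
  have b1 := node_bound μ t q0 hl (by exact_mod_cast (show (1 : ℚ) ≤ q0 by linarith))
    (by exact_mod_cast ht0) (by
      have : ((t : ℚ) : ℝ) ≤ ((1 / 2 : ℚ) : ℝ) := by exact_mod_cast ht1
      simpa using this)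
  have b2 := sum_le_of_mem (l := l)
    (fun y => ell μ y + ((1 / q0 - t / q0 ^ 2 : ℚ) : ℝ) * y.p) (c.allV (1 / q0 - t / q0 ^ 2))
    (c.nonP (1 / q0 - t / q0 ^ 2) l.card) hy0
    (fun y hy => allV_ge hm h0 h1 hD (hc y hy) t0 t1) (by
      unfold nonP
      rw [Rat.cast_max]
      rcases hc y0 hy0 with rfl | ⟨a, ha, rfl⟩ | hx
      · exact absurd rfl hP
      · refine (hubMax_ge hm _ ?_ ha (by omega)).trans (le_max_left _ _)
        split_ifs with h1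
        · rcases a with _ | a
          · exact absurd hub_zero (hL h1)
          · omega
        · omega
      · exact (beta_ge h0 h1 hx t0 t1).trans (le_max_right _ _))
  have b3 := le_logHi (x := q0 / (l.card + 1)) (by rw [le_div_iff₀ (by linarith)]; linarith)
  have b4 : ((-c.mu + logHi (q0 / (l.card + 1)) + t / q0 - (1 / q0 - t / q0 ^ 2) *
    (q0 - (l.card + 1)) + ((l.card - 1) * c.allV (1 / q0 - t / q0 ^ 2) +
      c.nonP (1 / q0 - t / q0 ^ 2) l.card) : ℚ) : ℝ) ≤ b := by exact_mod_cast k2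
  push_cast at b1 b2 b3 b4
  linarith

lemma step_cls (hm : (c.mu : ℝ) ≤ μ) (hs : c.stepAll = true) {l : Multiset X}
    (hcard : l.card < c.D) (hl : ∀ y ∈ l, Pos y) (hc : ∀ y ∈ l, c.Cls μ y) :
    c.Cls μ (node l) := by
  simp only [stepAll, Bool.and_eq_true, decide_eq_true_eq, List.all_eq_true, List.mem_range] at hs
  obtain ⟨⟨⟨h0, h1⟩, hD⟩, hs⟩ := hs
  by_cases hP : ∀ y ∈ l, y = Px
  · right; left
    refine ⟨l.card, hcard, ?_⟩
    rw [← node_rep_P]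
    congr 1
    exact Multiset.eq_replicate.2 ⟨rfl, hP⟩
  by_cases hL : l = {Lx}
  · left; rw [hL, node_L]
  right; right
  push Not at hP
  obtain ⟨y0, hy0, hP⟩ := hP
  have hL' : l.card = 1 → y0 ≠ Lx := by
    intro h1 h2
    obtain ⟨z, rfl⟩ := Multiset.card_eq_one.1 h1
    rw [Multiset.mem_singleton.1 hy0] at h2
    exact hL (by rw [h2])
  have hm1 : 1 ≤ l.card := Multiset.card_pos_iff_exists_mem.2 ⟨y0, hy0⟩
  have := hs (l.card - 1) (by omega)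
  rw [show l.card - 1 + 1 = l.card by omega] at this
  simp only [stepM, Bool.and_eq_true] at this
  obtain ⟨⟨s0, s1⟩, s2⟩ := this
  refine ⟨?_, ?_, ?_⟩
  · simpa using step1_ok hm h0 h1 hD hl hc hy0 hP hL' le_rfl (by norm_num) s0
  · exact step1_ok hm h0 h1 hD hl hc hy0 hP hL' h0.le h1.le s1
  · simpa using step1_ok hm h0 h1 hD hl hc hy0 hP hL' (by norm_num) le_rfl s2

lemma cls_of_Br (hm : (c.mu : ℝ) ≤ μ) (hs : c.stepAll = true) {h : ℕ} {x : X} (hx : Br c.D h x) :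
    c.Cls μ x :=
  Br.ind (c.Cls μ) (fun _ h1 h2 h3 => step_cls hm hs h1 h2 h3) hx

end Pot

def Good (x : X) : Prop := x = Px ∨ ∃ a, 3 ≤ a ∧ a ≤ 8 ∧ x = hub a

lemma Pot.root_ok {c : Pot} (hs : c.stepAll = true) (hr : c.rootOK = true) {l : Multiset X} {H : ℕ}
    (hcard : l.card = c.D) (hl : ∀ y ∈ l, Br c.D H y) {y0 : X} (hy0 : y0 ∈ l) (hbad : ¬ Good y0) :
    log (root l) ≤ c.mu * sz l + c.C := by
  have hc : ∀ y ∈ l, c.Cls c.mu y := fun y hy => Pot.cls_of_Br le_rfl hs (hl y hy)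
  simp only [Pot.stepAll, Bool.and_eq_true, decide_eq_true_eq] at hs
  obtain ⟨⟨⟨h0, h1⟩, hD⟩, -⟩ := hs
  simp only [Pot.rootOK, Bool.and_eq_true, decide_eq_true_eq] at hr
  obtain ⟨⟨k0, k1⟩, k2⟩ := hr
  generalize (c.q : ℚ) / 100 = q0 at k1 k2
  have hD2 : (2 : ℚ) ≤ c.D := by exact_mod_cast k0
  have t0 : 0 ≤ 1 / q0 := by apply div_nonneg <;> linarith
  have t1 : 1 / q0 ≤ 1 / 2 := one_div_le_one_div_of_le (by norm_num) (by linarith)
  have b1 := root_bound c.mu q0 (fun y hy => (hl y hy).pos) (by omega)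
    (by exact_mod_cast (show (1 : ℚ) ≤ q0 by linarith))
  have b2 := sum_le_of_mem (l := l)
    (fun y => ell c.mu y + ((1 / q0 : ℚ) : ℝ) * y.p) (c.allV (1 / q0))
    (max (c.beta (1 / q0)) (max (hubMax c.mu (1 / q0) 0 3) (hubMax c.mu (1 / q0) 9 c.D)) : ℚ) hy0
    (fun y hy => Pot.allV_ge le_rfl h0 h1 hD (hc y hy) t0 t1) (by
      rw [Rat.cast_max, Rat.cast_max]
      rcases hc y0 hy0 with rfl | ⟨a, ha, rfl⟩ | hx
      · exact absurd (Or.inl rfl) hbad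
      · have : ¬ (3 ≤ a ∧ a ≤ 8) := fun h => hbad (Or.inr ⟨a, h.1, h.2, rfl⟩)
        by_cases h3 : a < 3
        · exact (hubMax_ge le_rfl _ (Nat.zero_le _) h3 (by omega)).trans
            ((le_max_left _ _).trans (le_max_right _ _))
        · exact (hubMax_ge le_rfl _ (by omega) ha (by omega)).trans
            ((le_max_right _ _).trans (le_max_right _ _))
      · exact (Pot.beta_ge h0 h1 hx t0 t1).trans (le_max_left _ _))
  have b3 := le_logHi (x := q0 / c.D) (by rw [le_div_iff₀ (by linarith)]; linarith)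
  have b4 : ((c.rootC q0 : ℚ) : ℝ) ≤ c.C := by exact_mod_cast k2
  unfold Pot.rootC at b4
  rw [hcard] at b1 b2
  push_cast at b1 b2 b3 b4
  linarith

end Pool.Agent.Lib.MP_70d11c_co
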