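import Pool.Agent.Lib.MP_70d11c_co.Small2

namespace Pool.Agent.Lib.MP_70d11c_co

lemma pot23_ok : (pot23.stepAll && pot23.rootOK) = true := by decide +kernel

lemma pot24_ok : pot24.stepAll = true := by decide +kernel

end Pool.Agent.Lib.MP_70d11c_co
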